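import Mathlib
import Pool.Graph.R_seed8.Y114.GF.Compl

/-!
# Jordan blocks of nilpotent endomorphisms, counted with ranks
-/

set_option autoImplicit false
set_option linter.unusedSectionVars false

namespace Pool.Agent.H20.TB

open Module

noncomputable section

variable {k V : Type} [Field k] [AddCommGroup V] [Module k V] [FiniteDimensional k V]

/-- stable subspaces -/
def St (f : End k V) (U : Submodule k V) : Prop := ∀ x ∈ U, f x ∈ U

/-- the rank of `N ^ m` on `U` -/
def rk (N : End k V) (U : Submodule k V) (m : ℕ) : ℕ := finrank k (U.map (N ^ m))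

/-- the number of Jordan blocks of length `m + 1` of `N` on `U` -/
def jb (N : End k V) (U : Submodule k V) (m : ℕ) : ℕ := rk N U m + rk N U (m + 2) - 2 * rk N U (m + 1)

theorem pow_mem {N : End k V} {U : Submodule k V} (h : St N U) (m : ℕ) {x : V} (hx : x ∈ U) :
    (N ^ m) x ∈ U := by
  induction m with
  | zero => exact hx
  | succ m ih =>
    rw [pow_succ', Module.End.mul_apply]
    exact h _ ih

theorem rk_zero (N : End k V) (U : Submodule k V) : rk N U 0 = finrank k U := by
  unfold rk
  rw [pow_zero, Module.End.one_eq_id, Submodule.map_id]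

/-- the kernel of `N` on `N ^ m U` -/
def kk (N : End k V) (U : Submodule k V) (m : ℕ) : ℕ :=
  finrank k ↥(U.map (N ^ m) ⊓ LinearMap.ker N)

theorem rk_succ (N : End k V) (U : Submodule k V) (m : ℕ) :
    rk N U m = rk N U (m + 1) + kk N U m := by
  have h1 : U.map (N ^ (m + 1)) = (U.map (N ^ m)).map N := by
    rw [← Submodule.map_comp, pow_succ']
    rfl
  have h2 := LinearMap.finrank_range_add_finrank_ker (N.domRestrict (U.map (N ^ m)))
  have h3 : LinearMap.range (N.domRestrict (U.map (N ^ m))) = (U.map (N ^ m)).map N :=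
    LinearMap.range_domRestrict _ _
  have h4 : finrank k (LinearMap.ker (N.domRestrict (U.map (N ^ m)))) = kk N U m := by
    unfold kk
    have h5 : LinearMap.ker (N.domRestrict (U.map (N ^ m))) =
        (U.map (N ^ m) ⊓ LinearMap.ker N).comap (U.map (N ^ m)).subtype := by
      ext x
      simp [LinearMap.domRestrict_apply]
    rw [h5]
    exact (Submodule.comapSubtypeEquivOfLe inf_le_left).finrank_eq
  unfold rk
  rw [h1, ← h3, ← h4]
  exact h2.symm

theorem kk_le {N : End k V} {U : Submodule k V} (h : St N U) (m : ℕ) :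
    kk N U (m + 1) ≤ kk N U m := by
  refine Submodule.finrank_mono (inf_le_inf_right _ ?_)
  rintro _ ⟨x, hx, rfl⟩
  refine ⟨N x, h x hx, ?_⟩
  rw [pow_succ, Module.End.mul_apply]

theorem jb_eq {N : End k V} {U : Submodule k V} (h : St N U) (m : ℕ) :
    kk N U m = kk N U (m + 1) + jb N U m := by
  have h1 := rk_succ N U m
  have h2 : rk N U (m + 1) = rk N U (m + 2) + kk N U (m + 1) := rk_succ N U (m + 1)
  have h3 := kk_le h m
  unfold jb
  omega

/-- The sum of the lengths of the Jordan blocks is the dimension. -/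
theorem sum_jb {N : End k V} {U : Submodule k V} (h : St N U) {n : ℕ}
    (hn : ∀ x ∈ U, (N ^ n) x = 0) :
    ∑ m ∈ Finset.range n, (m + 1) * jb N U m = finrank k U := by
  have h0 : U.map (N ^ n) = ⊥ := by
    rw [eq_bot_iff]
    rintro _ ⟨x, hx, rfl⟩
    rw [Submodule.mem_bot]
    exact hn x hx
  have h1 : rk N U n = 0 := by
    unfold rk
    rw [h0, finrank_bot]
  have h2 : kk N U n = 0 := by
    unfold kk
    rw [h0, bot_inf_eq, finrank_bot]
  have h3 : ∀ n, ∑ m ∈ Finset.range n, kk N U m + rk N U n = rk N U 0 := by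
    intro n
    induction n with
    | zero => simp
    | succ n ih =>
      rw [Finset.sum_range_succ]
      have := rk_succ N U n
      omega
  have h4 : ∀ n, ∑ m ∈ Finset.range n, (m + 1) * jb N U m + n * kk N U n =
      ∑ m ∈ Finset.range n, kk N U m := by
    intro n
    induction n with
    | zero => simp
    | succ n ih =>
      rw [Finset.sum_range_succ, Finset.sum_range_succ, ← ih]
      have := jb_eq h n
      rw [this]
      ring
  have h5 := h3 n
  have h6 := h4 n
  rw [h1, add_zero, rk_zero] at h5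
  rw [h2, mul_zero, add_zero] at h6
  rw [h6, h5]

theorem rk_sup {N : End k V} {U U' : Submodule k V} (h : St N U) (h' : St N U')
    (hd : Disjoint U U') (m : ℕ) : rk N (U ⊔ U') m = rk N U m + rk N U' m := by
  unfold rk
  rw [Submodule.map_sup]
  have h1 := Submodule.finrank_sup_add_finrank_inf_eq (U.map (N ^ m)) (U'.map (N ^ m))
  have h2 : Disjoint (U.map (N ^ m)) (U'.map (N ^ m)) := by
    refine hd.mono ?_ ?_
    · rintro _ ⟨x, hx, rfl⟩
      exact pow_mem h m hx
    · rintro _ ⟨x, hx, rfl⟩
      exact pow_mem h' m hx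
  rw [h2.eq_bot, finrank_bot, add_zero] at h1
  exact h1

theorem jb_sup {N : End k V} {U U' : Submodule k V} (h : St N U) (h' : St N U')
    (hd : Disjoint U U') (m : ℕ) : jb N (U ⊔ U') m = jb N U m + jb N U' m := by
  have h1 := rk_sup h h' hd
  have e1 := rk_succ N U m
  have e2 : rk N U (m + 1) = rk N U (m + 2) + kk N U (m + 1) := rk_succ N U (m + 1)
  have e3 := kk_le h m
  have e4 := rk_succ N U' m
  have e5 : rk N U' (m + 1) = rk N U' (m + 2) + kk N U' (m + 1) := rk_succ N U' (m + 1)
  have e6 := kk_le h' m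
  unfold jb
  rw [h1, h1, h1]
  omega

section form

variable (ω : V →ₗ[k] V →ₗ[k] k) (halt : ∀ v, ω v v = 0)

include halt in
theorem anti (u w : V) : ω u w = -ω w u := by
  have h1 := halt (u + w)
  simp only [map_add, LinearMap.add_apply, halt, zero_add, add_zero] at h1
  linear_combination h1

/-- the orthogonal space -/
def orth (U : Submodule k V) : Submodule k V where
  carrier := {v | ∀ u ∈ U, ω u v = 0}
  zero_mem' := fun u _ => map_zero _
  add_mem' := by
    intro a b ha hb u hu
    rw [map_add, ha u hu, hb u hu, add_zero]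
  smul_mem' := by
    intro c a ha u hu
    rw [map_smul, ha u hu, smul_zero]

theorem mem_orth {U : Submodule k V} {v : V} : v ∈ orth ω U ↔ ∀ u ∈ U, ω u v = 0 := Iff.rfl

include halt in
theorem refl : LinearMap.BilinForm.IsRefl ω := by
  intro u v h
  rw [anti ω halt, h, neg_zero]

include halt in
/-- a nondegenerate subspace -/
theorem isCompl_orth {X : Submodule k V} (hX : ∀ x ∈ X, (∀ y ∈ X, ω y x = 0) → x = 0) :
    IsCompl X (orth ω X) := by
  have h := LinearMap.BilinForm.isCompl_orthogonal_of_restrict_nondegenerate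
    (B := ω) (refl ω halt) (W := X) ⟨?_, ?_⟩
  · exact h
  · intro x hx
    refine Subtype.ext (hX x x.2 fun y hy => ?_)
    have h1 : ω x y = 0 := hx ⟨y, hy⟩
    rw [anti ω halt, h1, neg_zero]
  · intro x hx
    exact Subtype.ext (hX x x.2 fun y hy => hx ⟨y, hy⟩)

theorem orth_st {N : End k V} (hN : ∀ x y, ω (N x) y + ω x (N y) = 0) {U : Submodule k V}
    (h : St N U) : St N (orth ω U) := by
  intro v hv u hu
  have h1 := hN u v
  rw [hv _ (h u hu), zero_add] at h1
  exact h1

theorem skew_pow {N : End k V} (hN : ∀ x y, ω (N x) y + ω x (N y) = 0) (m : ℕ) :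
    ∀ x y, ω ((N ^ m) x) y = (-1) ^ m * ω x ((N ^ m) y) := by
  induction m with
  | zero => intro x y; simp
  | succ m ih =>
    intro x y
    have h1 := hN ((N ^ m) x) y
    have h2 : (N ^ (m + 1)) y = (N ^ m) (N y) := by rw [pow_succ, Module.End.mul_apply]
    rw [h2, pow_succ' N, Module.End.mul_apply, eq_neg_of_add_eq_zero_left h1, ih,
      pow_succ (-1 : k)]
    ring

include halt in
/-- The rank of an even power of `N` on a nondegenerate subspace is even. -/
theorem even_rk [CharZero k] {N : End k V} (hN : ∀ x y, ω (N x) y + ω x (N y) = 0)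
    {U : Submodule k V} (h : St N U) (hU : ∀ x ∈ U, (∀ y ∈ U, ω y x = 0) → x = 0) {m : ℕ}
    (hm : Even m) : Even (rk N U m) := by
  classical
  let M : Submodule k V := U.map (N ^ m)
  let g : U →ₗ[k] M := ((N ^ m).domRestrict U).codRestrict M fun x => ⟨x, x.2, rfl⟩
  have hg : Function.Surjective g := by
    rintro ⟨_, x, hx, rfl⟩
    exact ⟨⟨x, hx⟩, rfl⟩
  obtain ⟨s, hs⟩ := g.exists_rightInverse_of_surjective (LinearMap.range_eq_top.2 hg)
  have hs' : ∀ a : M, (N ^ m) (s a : V) = a := fun a =>
    congrArg (fun F : M →ₗ[k] M => ((F a : M) : V)) hs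
  let θ : M →ₗ[k] M →ₗ[k] k := ω.compl₁₂ (U.subtype ∘ₗ s) M.subtype
  have hθ : ∀ a b : M, θ a b = ω (s a) b := fun a b => rfl
  have h1 := Pool.Agent.Y114.GF.even_of_alt θ (fun a => by
    change ω (s a) a = 0
    have h2 := skew_pow ω hN m (s a) (s a)
    rw [hm.neg_one_pow, one_mul, hs' a, anti ω halt] at h2
    have h3 : (2 : k) * ω (s a) a = 0 := by linear_combination -h2
    exact (mul_eq_zero.1 h3).resolve_left two_ne_zero) (fun b hb => by
    have hb' : ∀ x ∈ U, ω x b = 0 := by
      intro x hx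
      have h2 := hb ⟨(N ^ m) x, x, hx, rfl⟩
      rw [hθ] at h2
      -- `ω (s a) b` with `a = N ^ m x`
      have h3 : ω x b = ω (s ⟨(N ^ m) x, x, hx, rfl⟩) b := by
        have h4 := skew_pow ω hN m (x - s ⟨(N ^ m) x, x, hx, rfl⟩) (s b)
        rw [map_sub, hs', sub_self, map_zero, LinearMap.zero_apply, hm.neg_one_pow, one_mul, hs' b,
          map_sub, LinearMap.sub_apply] at h4
        exact (sub_eq_zero.1 h4.symm)
      rw [h3, h2]
    obtain ⟨x, hx, hxb⟩ := b.2
    refine Subtype.ext (hU b ?_ hb')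
    rw [← hxb]
    exact pow_mem h m hx)
  exact h1

include halt in
/-- The number of Jordan blocks of a given odd length on a nondegenerate subspace is even. -/
theorem even_jb [CharZero k] {N : End k V} (hN : ∀ x y, ω (N x) y + ω x (N y) = 0)
    {U : Submodule k V} (h : St N U) (hU : ∀ x ∈ U, (∀ y ∈ U, ω y x = 0) → x = 0) {m : ℕ}
    (hm : Even m) : Even (jb N U m) := by
  have h1 := even_rk ω halt hN h hU hm
  have h2 := even_rk ω halt hN h hU (m := m + 2) (hm.add even_two)
  have h3 : Even (rk N U m + rk N U (m + 2)) := h1.add h2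
  unfold jb
  obtain ⟨a, ha⟩ := h3
  rw [ha]
  exact ⟨a - rk N U (m + 1), by omega⟩

include halt in
theorem jb_le_of_nondeg {N : End k V} (hN : ∀ x y, ω (N x) y + ω x (N y) = 0)
    {U : Submodule k V} (h : St N U) (hU : ∀ x ∈ U, (∀ y ∈ U, ω y x = 0) → x = 0) (m : ℕ) :
    jb N U m ≤ jb N ⊤ m := by
  have h1 := isCompl_orth ω halt hU
  rw [← h1.sup_eq_top, jb_sup h (orth_st ω hN h) h1.disjoint]
  exact Nat.le_add_right _ _

include halt in
/-- An isotropic subspace with a stable complement of its orthogonal space. -/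
theorem jb_isotropic {N : End k V} (hN : ∀ x y, ω (N x) y + ω x (N y) = 0)
    (hnd : ∀ u, (∀ v, ω v u = 0) → u = 0)
    {U : Submodule k V} (h : St N U) (hU : ∀ x ∈ U, ∀ y ∈ U, ω x y = 0)
    {Y : Submodule k V} (hY : St N Y) (hc : IsCompl (orth ω U) Y) (m : ℕ) :
    2 * jb N U m ≤ jb N ⊤ m := by
  classical
  have hle : U ≤ orth ω U := fun x hx u hu => hU u hu x hx
  have hd : Disjoint U Y := hc.disjoint.mono_left hle
  -- the two maps
  let L : U →ₗ[k] Dual k Y := (LinearMap.domRestrict₁₂ ω U Y)
  have hL : ∀ (u : U) (y : Y), L u y = ω u y := fun u y => rfl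
  have hLinj : Function.Injective L := by
    rw [← LinearMap.ker_eq_bot, LinearMap.ker_eq_bot']
    intro u hu
    have hu' : ∀ y ∈ Y, ω u y = 0 := fun y hy => by
      have := congrArg (fun F : Dual k Y => F ⟨y, hy⟩) hu
      exact this
    refine Subtype.ext (hnd u fun v => ?_)
    rw [anti ω halt, neg_eq_zero]
    have hv : v ∈ orth ω U ⊔ Y := by rw [hc.sup_eq_top]; trivial
    obtain ⟨a, ha, b, hb, rfl⟩ := Submodule.mem_sup.1 hv
    rw [map_add, ha u u.2, hu' b hb, add_zero]
  have hYinj : ∀ y ∈ Y, (∀ u ∈ U, ω u y = 0) → y = 0 := by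
    intro y hy hyu
    have h1 : y ∈ orth ω U ⊓ Y := ⟨hyu, hy⟩
    rwa [hc.inf_eq_bot, Submodule.mem_bot] at h1
  have hLsurj : Function.Surjective L := by
    let L' : Y →ₗ[k] Dual k U := (LinearMap.domRestrict₁₂ ω.flip Y U)
    have hL'inj : Function.Injective L' := by
      rw [← LinearMap.ker_eq_bot, LinearMap.ker_eq_bot']
      intro y hy
      refine Subtype.ext (hYinj y y.2 fun u hu => ?_)
      exact congrArg (fun F : Dual k U => F ⟨u, hu⟩) hy
    have h1 := LinearMap.finrank_le_finrank_of_injective hL'inj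
    rw [Subspace.dual_finrank_eq] at h1
    have h2 := LinearMap.finrank_le_finrank_of_injective hLinj
    rw [Subspace.dual_finrank_eq] at h2
    exact (LinearMap.injective_iff_surjective_of_finrank_eq_finrank (by
      rw [Subspace.dual_finrank_eq]; omega)).1 hLinj
  have hrk : ∀ m, rk N Y m = rk N U m := by
    intro m
    let NU : End k U := (N ^ m).restrict fun x hx => pow_mem h m hx
    let NY : End k Y := (N ^ m).restrict fun x hx => pow_mem hY m hx
    have e1 : rk N U m = finrank k (LinearMap.range NU) := by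
      have h2 : U.map (N ^ m) = (LinearMap.range NU).map U.subtype := by
        ext v
        constructor
        · rintro ⟨x, hx, rfl⟩
          exact ⟨NU ⟨x, hx⟩, ⟨_, rfl⟩, rfl⟩
        · rintro ⟨_, ⟨x, rfl⟩, rfl⟩
          exact ⟨x, x.2, rfl⟩
      unfold rk
      rw [h2]
      exact (Submodule.equivMapOfInjective U.subtype U.injective_subtype _).finrank_eq.symm
    have e2 : rk N Y m = finrank k (LinearMap.range NY) := by
      have h2 : Y.map (N ^ m) = (LinearMap.range NY).map Y.subtype := by
        ext v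
        constructor
        · rintro ⟨x, hx, rfl⟩
          exact ⟨NY ⟨x, hx⟩, ⟨_, rfl⟩, rfl⟩
        · rintro ⟨_, ⟨x, rfl⟩, rfl⟩
          exact ⟨x, x.2, rfl⟩
      unfold rk
      rw [h2]
      exact (Submodule.equivMapOfInjective Y.subtype Y.injective_subtype _).finrank_eq.symm
    have h2 : L ∘ₗ NU = ((-1 : k) ^ m) • (NY.dualMap ∘ₗ L) := by
      refine LinearMap.ext fun u => LinearMap.ext fun y => ?_
      change ω ((N ^ m) u) y = (-1 : k) ^ m * ω u ((N ^ m) y)
      exact skew_pow ω hN m u y
    have h3 : finrank k (LinearMap.range (L ∘ₗ NU)) = finrank k (LinearMap.range NU) := by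
      rw [LinearMap.range_comp]
      exact (Submodule.equivMapOfInjective L hLinj _).finrank_eq.symm
    have h4 : LinearMap.range (((-1 : k) ^ m) • (NY.dualMap ∘ₗ L)) =
        LinearMap.range NY.dualMap := by
      rw [LinearMap.range_smul _ _ (pow_ne_zero _ (neg_ne_zero.2 one_ne_zero))]
      rw [LinearMap.range_comp, LinearMap.range_eq_top.2 hLsurj, Submodule.map_top]
    rw [e1, e2, ← h3, h2, h4]
    exact (LinearMap.finrank_range_dualMap_eq_finrank_range NY).symm
  have hjb : jb N Y m = jb N U m := by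
    unfold jb
    rw [hrk, hrk, hrk]
  have hH : St N (U ⊔ Y) := by
    intro x hx
    obtain ⟨a, ha, b, hb, rfl⟩ := Submodule.mem_sup.1 hx
    rw [map_add]
    exact Submodule.add_mem_sup (h a ha) (hY b hb)
  have hHnd : ∀ x ∈ U ⊔ Y, (∀ y ∈ U ⊔ Y, ω y x = 0) → x = 0 := by
    intro x hx hxy
    obtain ⟨a, ha, b, hb, rfl⟩ := Submodule.mem_sup.1 hx
    have hb0 : b = 0 := by
      refine hYinj b hb fun u hu => ?_
      have h1 := hxy u (Submodule.mem_sup_left hu)
      rwa [map_add, hU u hu a ha, zero_add] at h1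
    subst hb0
    rw [add_zero] at hxy ⊢
    have h1 : (⟨a, ha⟩ : U) = 0 := by
      apply hLinj
      refine LinearMap.ext fun y => ?_
      rw [hL, map_zero, LinearMap.zero_apply, anti ω halt, hxy y (Submodule.mem_sup_right y.2),
        neg_zero]
    exact congrArg Subtype.val h1
  have h1 := jb_le_of_nondeg ω halt hN hH hHnd m
  rw [jb_sup h hY hd, hjb] at h1
  omega

end form

end

end Pool.Agent.H20.TB
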