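import Mathlib
import Pool.Agent.H20.TB.Blocks
import Pool.Graph.R_pool_sql_team_seeded_64922ed1.X292.SP.Gen

/-!
# Base change to the algebraic closure
-/

set_option autoImplicit false
set_option linter.unusedSectionVars false

namespace Pool.Agent.H20.TB

open Module
open scoped TensorProduct

noncomputable section

section density

variable {K V : Type} [Field K] [AddCommGroup V] [Module K V] [FiniteDimensional K V]
  [Nontrivial V]

/-- The density theorem. -/
theorem density (S : Subalgebra K (Module.End K V))
    (hirr : ∀ W : Submodule K V, (∀ a ∈ S, ∀ w ∈ W, a w ∈ W) → W = ⊥ ∨ W = ⊤)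
    (hcom : ∀ d : Module.End K V, (∀ a ∈ S, d * a = a * d) → ∃ c : K, ∀ v, d v = c • v) :
    S = ⊤ := by
  classical
  have hsm : ∀ (c : K) (v : V), (algebraMap K S c) • v = c • v := by
    intro c v
    rw [Subalgebra.smul_def, Subalgebra.coe_algebraMap, Module.End.smul_def,
      Module.algebraMap_end_apply]
  have hsimp : IsSimpleModule S V := by
    rw [isSimpleModule_iff]
    refine { exists_pair_ne := ⟨⊥, ⊤, bot_ne_top⟩, eq_bot_or_eq_top := fun W => ?_ }
    let W' : Submodule K V :=
      { carrier := W
        add_mem' := fun h1 h2 => W.add_mem h1 h2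
        zero_mem' := W.zero_mem
        smul_mem' := fun c w hw => by
          have h1 : (algebraMap K S c) • w ∈ W := W.smul_mem _ hw
          rw [hsm] at h1
          exact h1 }
    have h1 := hirr W' (fun a ha w hw => W.smul_mem (⟨a, ha⟩ : S) hw)
    rcases h1 with h1 | h1
    · left
      rw [eq_bot_iff]
      intro w hw
      have h2 : w ∈ W' := hw
      rw [h1] at h2
      exact h2
    · right
      rw [eq_top_iff]
      intro w _
      have h2 : w ∈ W' := by rw [h1]; trivial
      exact h2
  have hlin : ∀ g : Module.End S V, ∃ c : K, ∀ v, g v = c • v := by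
    intro g
    let d : Module.End K V :=
      { toFun := g
        map_add' := fun x y => map_add g x y
        map_smul' := fun c v => by
          rw [← hsm, map_smul, hsm]
          rfl }
    obtain ⟨c, hc⟩ := hcom d (fun a ha => by
      refine LinearMap.ext fun v => ?_
      exact g.map_smul (⟨a, ha⟩ : S) v)
    exact ⟨c, fun v => hc v⟩
  rw [eq_top_iff]
  intro φ _
  let f : Module.End (Module.End S V) V :=
    { toFun := φ
      map_add' := fun x y => map_add φ x y
      map_smul' := fun g v => by
        obtain ⟨c, hc⟩ := hlin g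
        show φ (g v) = g (φ v)
        rw [hc, hc, map_smul] }
  let b := Module.finBasis K V
  obtain ⟨r, hr⟩ := jacobson_density f (Finset.univ.image b)
  have h1 : φ = r.1 := b.ext fun i => hr (b i) (Finset.mem_image_of_mem _ (Finset.mem_univ i))
  rw [h1]
  exact r.2

end density

section base

variable {k V : Type} [Field k] [AddCommGroup V] [Module k V] [FiniteDimensional k V]
  (K : Type) [Field K] [Algebra k K]

theorem finrank_range_bc (f : End k V) :
    finrank K (LinearMap.range (f.baseChange K)) = finrank k (LinearMap.range f) := by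
  have h1 : f.baseChange K = ((LinearMap.range f).subtype.baseChange K) ∘ₗ
      (f.rangeRestrict.baseChange K) := by
    rw [← LinearMap.baseChange_comp]
    rfl
  have h2 : Function.Surjective (f.rangeRestrict.baseChange K) := by
    rw [LinearMap.baseChange_eq_ltensor]
    exact LinearMap.lTensor_surjective K f.surjective_rangeRestrict
  have h3 : Function.Injective ((LinearMap.range f).subtype.baseChange K) := by
    rw [LinearMap.baseChange_eq_ltensor]
    exact Module.Flat.lTensor_preserves_injective_linearMap _ (Submodule.injective_subtype _)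
  rw [h1, LinearMap.range_comp_of_range_eq_top _ (LinearMap.range_eq_top.2 h2),
    LinearMap.finrank_range_of_inj h3, Module.finrank_baseChange]

theorem rk_bc (N : End k V) (m : ℕ) : rk (N.baseChange K) ⊤ m = rk N ⊤ m := by
  unfold rk
  rw [Submodule.map_top, Submodule.map_top, ← LinearMap.baseChange_pow, finrank_range_bc]

theorem jb_bc (N : End k V) (m : ℕ) : jb (N.baseChange K) ⊤ m = jb N ⊤ m := by
  unfold jb
  rw [rk_bc, rk_bc, rk_bc]

/-- A linear combination of operators which are defined over `k`. -/
def LK (L : Submodule k (End k V)) : Submodule K (End K (K ⊗[k] V)) :=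
  Submodule.span K ((fun X : End k V => X.baseChange K) '' (L : Set (End k V)))

theorem mem_LK {L : Submodule k (End k V)} {X : End k V} (h : X ∈ L) : X.baseChange K ∈ LK K L :=
  Submodule.subset_span ⟨X, h, rfl⟩

/-- The descent. -/
theorem of_mem_LK {L : Submodule k (End k V)} {X : End k V} (h : X.baseChange K ∈ LK K L) :
    X ∈ L := by
  obtain ⟨π, hπ⟩ := LinearMap.exists_leftInverse_of_injective (Algebra.linearMap k K)
    (LinearMap.ker_eq_bot.2 (algebraMap k K).injective)
  have hπ1 : π 1 = 1 := by
    have h1 := LinearMap.congr_fun hπ 1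
    simpa using h1
  let P : End K (K ⊗[k] V) → End k V := fun Z =>
    ((TensorProduct.lid k V).toLinearMap ∘ₗ (π.rTensor V)) ∘ₗ (Z.restrictScalars k) ∘ₗ
      (TensorProduct.mk k K V 1)
  have hP : ∀ Z v, P Z v = (TensorProduct.lid k V) (π.rTensor V (Z (1 ⊗ₜ[k] v))) := fun Z v => rfl
  have key : ∀ Z ∈ LK K L, ∀ a : K, P (a • Z) ∈ L := by
    intro Z hZ
    refine Submodule.span_induction (p := fun Z _ => ∀ a : K, P (a • Z) ∈ L) ?_ ?_ ?_ ?_ hZ
    · rintro _ ⟨Y, hY, rfl⟩ a
      have h1 : P (a • Y.baseChange K) = π a • Y := by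
        refine LinearMap.ext fun v => ?_
        rw [hP, LinearMap.smul_apply, LinearMap.baseChange_tmul, TensorProduct.smul_tmul',
          LinearMap.rTensor_tmul, TensorProduct.lid_tmul, LinearMap.smul_apply, smul_eq_mul,
          mul_one]
      rw [h1]
      exact L.smul_mem _ hY
    · intro a
      have h1 : P (a • 0) = 0 := by
        refine LinearMap.ext fun v => ?_
        rw [hP, smul_zero, LinearMap.zero_apply, map_zero, map_zero, LinearMap.zero_apply]
      rw [h1]
      exact L.zero_mem
    · intro Y Z _ _ hY hZ a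
      have h1 : P (a • (Y + Z)) = P (a • Y) + P (a • Z) := by
        refine LinearMap.ext fun v => ?_
        rw [LinearMap.add_apply, hP, hP, hP, smul_add, LinearMap.add_apply, map_add, map_add]
      rw [h1]
      exact L.add_mem (hY a) (hZ a)
    · intro c Z _ hZ a
      rw [smul_smul]
      exact hZ _
  have h1 := key _ h 1
  have h2 : P ((1 : K) • X.baseChange K) = X := by
    refine LinearMap.ext fun v => ?_
    rw [hP, one_smul, LinearMap.baseChange_tmul, LinearMap.rTensor_tmul, TensorProduct.lid_tmul,
      hπ1, one_smul]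
  rwa [h2] at h1

variable {Γ : Type} [Group Γ] (ρ : Representation k Γ V)

/-- The base change of a representation. -/
def rhoK : Γ →* (K ⊗[k] V →ₗ[K] K ⊗[k] V) where
  toFun g := (ρ g).baseChange K
  map_one' := by rw [map_one, LinearMap.baseChange_one]
  map_mul' g h := by rw [map_mul, LinearMap.baseChange_mul]

theorem rhoK_apply (g : Γ) : rhoK K ρ g = (ρ g).baseChange K := rfl

/-- Absolute irreducibility. -/
theorem SI_bc [Nontrivial V] (h : ∀ Δ : Subgroup Γ, Δ.FiniteIndex →
      (∀ U : Submodule k V, (∀ g ∈ Δ, ∀ u ∈ U, ρ g u ∈ U) → U = ⊥ ∨ U = ⊤) ∧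
      ∀ A : End k V, (∀ g ∈ Δ, ∀ x, A (ρ g x) = ρ g (A x)) → ∃ c : k, ∀ v, A v = c • v) :
    Pool.Agent.TH125.Gal.SI (rhoK K ρ) := by
  classical
  intro Δ hΔ W hW
  obtain ⟨h1, h2⟩ := h Δ hΔ
  let S : Subalgebra k (End k V) := Algebra.adjoin k ((fun g => ρ g) '' (Δ : Set Γ))
  have hS : S = ⊤ := by
    refine density S (fun U hU => h1 U fun g hg u hu =>
      hU _ (Algebra.subset_adjoin ⟨g, hg, rfl⟩) u hu) fun d hd => h2 d fun g hg x => ?_
    exact LinearMap.congr_fun (hd _ (Algebra.subset_adjoin ⟨g, hg, rfl⟩)) x
  have hall : ∀ X : End k V, ∀ w ∈ W, X.baseChange K w ∈ W := by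
    intro X
    have hX : X ∈ S := by rw [hS]; trivial
    refine Algebra.adjoin_induction (p := fun X _ => ∀ w ∈ W, X.baseChange K w ∈ W)
      ?_ ?_ ?_ ?_ hX
    · rintro _ ⟨g, hg, rfl⟩ w hw
      exact hW g hg w hw
    · intro c w hw
      have h3 : (algebraMap k (End k V) c).baseChange K w = algebraMap k K c • w := by
        rw [Algebra.algebraMap_eq_smul_one, LinearMap.baseChange_smul, LinearMap.baseChange_one,
          LinearMap.smul_apply, Module.End.one_apply, algebraMap_smul]
      rw [h3]
      exact W.smul_mem _ hw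
    · intro X Y _ _ hX hY w hw
      rw [LinearMap.baseChange_add, LinearMap.add_apply]
      exact W.add_mem (hX w hw) (hY w hw)
    · intro X Y _ _ hX hY w hw
      rw [LinearMap.baseChange_mul, Module.End.mul_apply]
      exact hX _ (hY w hw)
  by_cases hbot : W = ⊥
  · exact Or.inl hbot
  right
  obtain ⟨w, hw, hw0⟩ := Submodule.exists_mem_ne_zero_of_ne_bot hbot
  let b := Module.finBasis k V
  let bK := Algebra.TensorProduct.basis K b
  obtain ⟨i, hi⟩ : ∃ i, bK.repr w i ≠ 0 := by
    by_contra hcon
    push Not at hcon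
    apply hw0
    rw [← bK.repr.map_eq_zero_iff]
    exact Finsupp.ext hcon
  have hone : ∀ v : V, (1 : K) ⊗ₜ[k] v ∈ W := by
    intro v
    have h3 : ∀ z : K ⊗[k] V, ((b.coord i).smulRight v : End k V).baseChange K z =
        bK.repr z i • ((1 : K) ⊗ₜ[k] v) := by
      intro z
      induction z with
      | zero => rw [map_zero, map_zero, Finsupp.zero_apply, zero_smul]
      | add x y hx hy => rw [map_add, hx, hy, map_add, Finsupp.add_apply, add_smul]
      | tmul a x =>
        rw [LinearMap.baseChange_tmul, LinearMap.smulRight_apply, Basis.coord_apply,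
          Algebra.TensorProduct.basis_repr_tmul, TensorProduct.smul_tmul', smul_eq_mul, mul_one,
          TensorProduct.tmul_smul, TensorProduct.smul_tmul', Finsupp.smul_apply,
          Finsupp.mapRange_apply, smul_eq_mul, Algebra.smul_def, mul_comm]
    have h4 := hall ((b.coord i).smulRight v) w hw
    rw [h3] at h4
    have h5 := W.smul_mem (bK.repr w i)⁻¹ h4
    rwa [smul_smul, inv_mul_cancel₀ hi, one_smul] at h5
  rw [eq_top_iff]
  intro z _
  induction z with
  | zero => exact W.zero_mem
  | add x y hx hy => exact W.add_mem (hx trivial) (hy trivial)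
  | tmul a x =>
    have h3 := W.smul_mem a (hone x)
    rwa [TensorProduct.smul_tmul', smul_eq_mul, mul_one] at h3

end base

end

end Pool.Agent.H20.TB
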