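import Mathlib

/-!
# Definitions: pure representations at a place, lengths of Jordan blocks, Tate classes
-/

set_option autoImplicit false

namespace Pool.Agent.H20.TB

open NumberField IsDedekindDomain Module Polynomial
open scoped TensorProduct

noncomputable section

section linear

variable {k V : Type} [Field k] [AddCommGroup V] [Module k V]

/-- The number of Jordan blocks of length `m + 1` of the nilpotent endomorphism `N`. -/
def blocks (N : End k V) (m : ℕ) : ℕ :=
  finrank k (LinearMap.range (N ^ m)) + finrank k (LinearMap.range (N ^ (m + 2))) -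
    2 * finrank k (LinearMap.range (N ^ (m + 1)))

/-- Purity of weight `w` (the weight-monodromy property) for the geometric Frobenius `A` and the
monodromy operator `N`, `q` being the order of the residue field: the space is the direct sum of
`A`-stable subspaces `W j` such that the eigenvalues of `A` on `W j` are algebraic numbers all of
whose complex conjugates have absolute value `q ^ ((w + j) / 2)`, `N` maps `W j` into `W (j - 2)`,
and `N ^ j` maps `W j` bijectively onto `W (-j)`, for `j ≥ 0`. -/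
def IsPure [CharZero k] (A N : End k V) (q w : ℕ) : Prop :=
  ∃ W : ℤ → Submodule k V, DirectSum.IsInternal W ∧
    (∀ j, ∀ x ∈ W j, A x ∈ W j ∧ N x ∈ W (j - 2)) ∧
    (∀ j, ∃ C : ℚ[X], C ≠ 0 ∧ (∀ z : ℂ, aeval z C = 0 → ‖z‖ ^ 2 = (q : ℝ) ^ ((w : ℤ) + j)) ∧
      ∀ x ∈ W j, aeval A (C.map (algebraMap ℚ k)) x = 0) ∧
    ∀ j : ℕ, Set.BijOn (N ^ j) (W j) (W (-(j : ℤ)))

/-- The sum of the lengths of a family of Jordan blocks, with `c m` blocks of length `m + 1`. -/
def total (n : ℕ) (c : ℕ → ℕ) : ℕ := ∑ m ∈ Finset.range n, (m + 1) * c m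

/-- Let `b m` be the number of Jordan blocks of length `m + 1`.  The blocks exclude isotropic
subspaces of dimension `d`: `d` is not the sum of the lengths of a subfamily of the blocks which
contains at most half of the blocks of each length. -/
def ExcludesIsotropic (n : ℕ) (b : ℕ → ℕ) (d : ℕ) : Prop :=
  ¬ ∃ c : ℕ → ℕ, (∀ m, 2 * c m ≤ b m) ∧ total n c = d

/-- Let `b m` be the number of Jordan blocks of length `m + 1`.  The blocks exclude nondegenerate
subspaces of dimension `d`: `d` is not the sum of the lengths of a subfamily of the blocks which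
contains an even number of blocks of each odd length. -/
def ExcludesNondegenerate (n : ℕ) (b : ℕ → ℕ) (d : ℕ) : Prop :=
  ¬ ∃ c : ℕ → ℕ, (∀ m, c m ≤ b m ∧ (Even m → Even (c m))) ∧ total n c = d

end linear

section places

variable {F : Type} [Field F] [NumberField F]

/-- The place `v` of `F` lies above the prime number `p`. -/
def Above (v : HeightOneSpectrum (𝓞 F)) (p : ℕ) : Prop := (p : 𝓞 F) ∈ v.asIdeal

variable (F) in
/-- The prime number `p` is unramified in `F`. -/
def UnramifiedIn (p : ℕ) : Prop :=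
  ∀ v : HeightOneSpectrum (𝓞 F), Above v p → (p : 𝓞 F) ∉ v.asIdeal ^ 2

/-- `q v` is the number of elements of the residue field of `v`. -/
def q (v : HeightOneSpectrum (𝓞 F)) : ℕ := Ideal.absNorm v.asIdeal

/-- `Q` is a prime ideal above `v` of the ring of all algebraic integers in the algebraic
closure of `F`. -/
def PrimeOver (Q : Ideal (𝓞 (AlgebraicClosure F))) (v : HeightOneSpectrum (𝓞 F)) : Prop :=
  Q.IsPrime ∧ Q.comap (algebraMap (𝓞 F) (𝓞 (AlgebraicClosure F))) = v.asIdeal

/-- `g` is in the inertia group at `Q`. -/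
def InInertiaAt (Q : Ideal (𝓞 (AlgebraicClosure F))) (g : Gal(AlgebraicClosure F/F)) : Prop :=
  ∀ x : 𝓞 (AlgebraicClosure F), g • x - x ∈ Q

/-- `g` is an (arithmetic) Frobenius element at `Q`, for the residue field with `m` elements. -/
def IsFrobAt (Q : Ideal (𝓞 (AlgebraicClosure F))) (m : ℕ) (g : Gal(AlgebraicClosure F/F)) : Prop :=
  ∀ x : 𝓞 (AlgebraicClosure F), g • x - x ^ m ∈ Q

variable {ℓ : ℕ} [Fact ℓ.Prime] {V : Type} [AddCommGroup V] [Module ℚ_[ℓ] V]
  (ρ : Representation ℚ_[ℓ] Gal(AlgebraicClosure F/F) V) (χ : Gal(AlgebraicClosure F/F) →* ℚ_[ℓ])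

/-- The representation has good reduction at `v`: it is unramified at `v` and pure of weight `w`. -/
def GoodAt (w : ℕ) (v : HeightOneSpectrum (𝓞 F)) : Prop :=
  ∀ Q, PrimeOver Q v → (∀ g, InInertiaAt Q g → ρ g = 1) ∧
    ∀ φ, IsFrobAt Q (q v) φ → IsPure (ρ φ⁻¹) 0 (q v) w

/-- `u` is the exponential of the nilpotent endomorphism `N`. -/
def IsExpOf (u N : End ℚ_[ℓ] V) : Prop :=
  ∃ d : ℕ, N ^ d = 0 ∧ u = ∑ i ∈ Finset.range d, ((i.factorial : ℕ) : ℚ_[ℓ])⁻¹ • N ^ i

/-- The inertia groups at `v` act unipotently, and the representation is pure of weight `w` at `v`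
(the weight-monodromy property), with the monodromy operator `N = log (ρ τ)` for some `τ` in the
inertia group; `N` has `b m` Jordan blocks of length `m + 1`.  (Good reduction is the case
`N = 0`.) -/
def PureAt (w : ℕ) (v : HeightOneSpectrum (𝓞 F)) (b : ℕ → ℕ) : Prop :=
  ∀ Q, PrimeOver Q v → (∀ g, InInertiaAt Q g → IsNilpotent (ρ g - 1)) ∧
    ∃ τ N, InInertiaAt Q τ ∧ IsExpOf (ρ τ) N ∧ blocks N = b ∧
      ∀ φ, IsFrobAt Q (q v) φ → IsPure (ρ φ⁻¹) N (q v) w

/-- The representation is continuous, the similitude character is the `(-w)`-th power of the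
cyclotomic character, and there are three primes `p ≠ ℓ` which are unramified in `F` such that the
representation has good reduction at all places above `p`. -/
structure IsMotivic (w : ℕ) : Prop where
  continuous : ∀ (x : V) (f : Dual ℚ_[ℓ] V), Continuous fun g => f (ρ g x)
  similitude : ∀ g,
    χ g * (algebraMap ℤ_[ℓ] ℚ_[ℓ] (cyclotomicCharacter (AlgebraicClosure F) ℓ g : ℤ_[ℓ])) ^ w = 1
  good : ∃ T : Set ℕ, 3 ≤ T.encard ∧ ∀ p ∈ T, p.Prime ∧ p ≠ ℓ ∧ UnramifiedIn F p ∧
    ∀ v, Above v p → GoodAt ρ w v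

/-- For some prime number `p ≠ ℓ` which is unramified in `F` the representation is pure at all places
above `p`, and the lengths of the Jordan blocks of the monodromy at one of these places exclude
isotropic subspaces of dimension `d`. -/
def LocallyExcludes (d : ℕ) : Prop :=
  ∃ w p, IsMotivic ρ χ w ∧ p.Prime ∧ p ≠ ℓ ∧ UnramifiedIn F p ∧
    (∀ v, Above v p → ∃ b, PureAt ρ w v b) ∧
    ∃ v b, Above v p ∧ PureAt ρ w v b ∧ ExcludesIsotropic (finrank ℚ_[ℓ] V) b d

end places

section excludes

variable {ℓ : ℕ} [Fact ℓ.Prime] {V : Type} [AddCommGroup V] [Module ℚ_[ℓ] V]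
  {Γ : Type} [Group Γ] (ρ : Representation ℚ_[ℓ] Γ V) (χ : Γ →* ℚ_[ℓ])

/-- For some `γ`, no characteristic polynomial of a power `γ ^ e`, `e > 0`, has a divisor of degree
`d`. -/
def DegreeExcludes [FiniteDimensional ℚ_[ℓ] V] (d : ℕ) : Prop :=
  ∃ γ : Γ, ∀ e : ℕ, 0 < e → ∀ P : ℚ_[ℓ][X], P ∣ (ρ (γ ^ e)).charpoly → P.natDegree ≠ d

/-- The representation given by some point `s : Gal(F̄/F) → Γ` with values in a number field `F` is pure
at the places above a prime number, and the lengths of the Jordan blocks of the monodromy at one of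
these places exclude isotropic subspaces of dimension `d`. -/
def PlaceExcludes (d : ℕ) : Prop :=
  ∃ (F : Type) (_ : Field F) (_ : NumberField F) (s : Gal(AlgebraicClosure F/F) →* Γ),
    LocallyExcludes (ρ.comp s) (χ.comp s) d

/-- Some element of `Γ` acts unipotently, and the lengths of its Jordan blocks exclude nondegenerate
subspaces of dimension `d`. -/
def UnipotentExcludes (d : ℕ) : Prop :=
  ∃ τ N, χ τ = 1 ∧ IsExpOf (ρ τ) N ∧ ExcludesNondegenerate (finrank ℚ_[ℓ] V) (blocks N) d

end excludes

section tensor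

variable {k W : Type} [Field k] [AddCommGroup W] [Module k W]

/-- The representation `ρ` is semisimple as a representation of every subgroup of finite index. -/
def Semisimple {Γ : Type} [Group Γ] (ρ : Representation k Γ W) : Prop :=
  ∀ Δ : Subgroup Γ, Δ.FiniteIndex → ∀ U : Submodule k W, (∀ s ∈ Δ, ∀ u ∈ U, ρ s u ∈ U) →
    ∃ U' : Submodule k W, (∀ s ∈ Δ, ∀ u ∈ U', ρ s u ∈ U') ∧ IsCompl U U'

/-- The action of `g` on the twisted tensor power `W ^ {⊗ t} (c)`. -/
def twist {Γ : Type} [Group Γ] (ρ : Representation k Γ W) (χ : Γ →* k) (t c : ℕ) (g : Γ) :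
    End k (⨂[k] _ : Fin t, W) :=
  χ g ^ c • PiTensorProduct.map fun _ => ρ g

/-- The linear map `f : W ^ {⊗ s} (c) → W ^ {⊗ t} (d)` commutes with a subgroup of finite index. -/
def IsHom {Γ : Type} [Group Γ] (ρ : Representation k Γ W) (χ : Γ →* k) {s t : ℕ} (c d : ℕ)
    (f : (⨂[k] _ : Fin s, W) →ₗ[k] (⨂[k] _ : Fin t, W)) : Prop :=
  ∃ Δ : Subgroup Γ, Δ.FiniteIndex ∧ ∀ g ∈ Δ, ∀ x, f (twist ρ χ s c g x) = twist ρ χ t d g (f x)

/-- The linear form `z_1 ⊗ ... ⊗ z_t ↦ ω(z_1, y_1) * ... * ω(z_t, y_t)` on the tensor power. -/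
def pairing (ω : W →ₗ[k] W →ₗ[k] k) {t : ℕ} (y : Fin t → W) : (⨂[k] _ : Fin t, W) →ₗ[k] k :=
  PiTensorProduct.lift ((MultilinearMap.mkPiAlgebra k (Fin t) k).compLinearMap
    fun l => ω.flip (y l))

/-- The linear map `f : W ^ {⊗ s} → W ^ {⊗ t}` is, after the identification of `W ^ {⊗ t}` with its
dual space by the form `ω`, a product of bilinear forms of the family `B`, where the
`s + t = 2 m` factors are distributed in some way. -/
def IsProduct {ι : Type} (ω : W →ₗ[k] W →ₗ[k] k) (B : ι → W →ₗ[k] W →ₗ[k] k) {s t : ℕ}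
    (f : (⨂[k] _ : Fin s, W) →ₗ[k] (⨂[k] _ : Fin t, W)) : Prop :=
  ∃ (m : ℕ) (e : Fin m × Fin 2 ≃ Fin s ⊕ Fin t) (u : Fin m → ι), ∀ x y,
    pairing ω y (f (PiTensorProduct.tprod k x)) =
      ∏ l, B (u l) (Sum.elim x y (e (l, 0))) (Sum.elim x y (e (l, 1)))

/-- Every homomorphism `W ^ {⊗ s} (c) → W ^ {⊗ t} (d)` between twisted tensor powers of the same weight
which commutes with a subgroup of finite index is a linear combination of products of the
forms of the family `B`. -/
def HomsGeneratedBy {Γ ι : Type} [Group Γ] (ρ : Representation k Γ W) (χ : Γ →* k)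
    (ω : W →ₗ[k] W →ₗ[k] k) (B : ι → W →ₗ[k] W →ₗ[k] k) : Prop :=
  ∀ s t c d : ℕ, s + 2 * c = t + 2 * d → ∀ f : (⨂[k] _ : Fin s, W) →ₗ[k] (⨂[k] _ : Fin t, W),
    IsHom ρ χ c d f → f ∈ Submodule.span k {f' | IsProduct ω B f'}

end tensor

section family

/-- The `ℓ`-adic realizations of finitely many polarized motives of the same weight:
representations `ρ i` of the group `Γ`, nondegenerate alternating forms `ω i`, and the similitude
character `χ`. -/
structure Family (k : Type) [Field k] {ι : Type} (V : ι → Type) [∀ i, AddCommGroup (V i)]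
    [∀ i, Module k (V i)] (Γ : Type) [Group Γ] where
  /-- the representations -/
  ρ : ∀ i, Representation k Γ (V i)
  /-- the similitude character -/
  χ : Γ →* k
  /-- the polarizations -/
  ω : ∀ i, V i →ₗ[k] V i →ₗ[k] k
  alt : ∀ i v, ω i v v = 0
  nondeg : ∀ i u, (∀ v, ω i v u = 0) → u = 0
  sim : ∀ i s u v, ω i (ρ i s u) (ρ i s v) = χ s * ω i u v

variable {k : Type} [Field k] {ι : Type} {V : ι → Type} [∀ i, AddCommGroup (V i)]
  [∀ i, Module k (V i)] {Γ : Type} [Group Γ] (R : Family k V Γ)

/-- The rank of `g - 1` on the `i`-th representation. -/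
def Family.rank (i : ι) (g : Γ) : ℕ := finrank k (LinearMap.range (R.ρ i g - 1))

/-- The element `τ` acts on the `i`-th representation by a transvection; on the other ones some
positive power of it acts unipotently, but not by a transvection. -/
def Family.IsTransvection (i : ι) (τ : Γ) : Prop :=
  R.χ τ = 1 ∧ IsNilpotent (R.ρ i τ - 1) ∧ R.rank i τ = 1 ∧
    ∀ j, j ≠ i → ∃ e : ℕ, 0 < e ∧ IsNilpotent (R.ρ j (τ ^ e) - 1) ∧
      (finrank k (V j) = finrank k (V i) → R.rank j (τ ^ e) ≠ 1)

/-- The direct sum of the representations. -/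
def Family.sum : Representation k Γ (∀ i, V i) where
  toFun g := LinearMap.pi fun i => R.ρ i g ∘ₗ LinearMap.proj i
  map_one' := by
    refine LinearMap.ext fun x => funext fun i => ?_
    simp
  map_mul' g h := by
    refine LinearMap.ext fun x => funext fun i => ?_
    simp

/-- The polarization of a summand, as a form on the sum. -/
def Family.form (i : ι) : (∀ i, V i) →ₗ[k] (∀ i, V i) →ₗ[k] k :=
  (R.ω i).compl₁₂ (LinearMap.proj i) (LinearMap.proj i)

/-- The homomorphisms between twisted tensor powers of the sum which commute with a subgroup of finite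
index are generated by the polarizations of the summands. -/
def Family.TateClasses [Fintype ι] : Prop :=
  HomsGeneratedBy R.sum R.χ (∑ i, R.form i) R.form

end family

end

end Pool.Agent.H20.TB
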