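import Mathlib
import Pool.Agent.H20.TB.Defs

/-!
# Definitions: types of unipotent elements
-/

set_option autoImplicit false

namespace Pool.Agent.H20.TB

open Module Polynomial

noncomputable section

/-- The eigenvalues of the endomorphism `g`, in an algebraic closure, are not of the form
`a, a c, …, a c ^ (n - 1)`, where `n` is the dimension. -/
def NotGeometric {k V : Type} [Field k] [AddCommGroup V] [Module k V] [FiniteDimensional k V]
    (g : End k V) : Prop :=
  ∀ a c : AlgebraicClosure k, {b : AlgebraicClosure k | aeval b g.charpoly = 0} ≠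
    {b | ∃ i < finrank k V, b = a * c ^ i}

section family

variable {k : Type} [Field k] {ι : Type} {V : ι → Type} [∀ i, AddCommGroup (V i)]
  [∀ i, Module k (V i)] {Γ : Type} [Group Γ] (R : Family k V Γ)

/-- The element `τ` acts unipotently on all the representations. -/
def Family.Unipotent (τ : Γ) : Prop :=
  R.χ τ = 1 ∧ ∀ j, IsNilpotent (R.ρ j τ - 1)

/-- The number of Jordan blocks of length `m + 1` of `τ` on the `i`-th representation. -/
def Family.blocks (i : ι) (τ : Γ) (m : ℕ) : ℕ := Pool.Agent.H20.TB.blocks (R.ρ i τ - 1) m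

/-- Some even number is the length of exactly one Jordan block, there is a Jordan block of length one,
and there are none of the lengths `3`, `5`, `7`, ... -/
def Family.EvenType (i : ι) (τ : Γ) : Prop :=
  (∃ m, Odd m ∧ R.blocks i τ m = 1) ∧ R.blocks i τ 0 ≠ 0 ∧
    ∀ m, 2 ≤ m → Even m → R.blocks i τ m = 0

/-- There is only one Jordan block. -/
def Family.OneBlock (i : ι) (τ : Γ) : Prop :=
  (R.ρ i τ - 1) ^ (finrank k (V i) - 1) ≠ 0

/-- Some element acts unipotently on all the representations, and on the `i`-th one it is of even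
type or it has only one Jordan block; in the second case the dimension is two, or the eigenvalues
of some element are not of the form `a, a c, …, a c ^ (n - 1)`, or there is another unipotent element
`τ' ≠ 1` with more than one Jordan block. -/
def Family.BigAt [∀ i, FiniteDimensional k (V i)] (i : ι) : Prop :=
  ∃ τ, R.Unipotent τ ∧ (R.EvenType i τ ∨ R.OneBlock i τ ∧
    (finrank k (V i) = 2 ∨ (∃ φ, NotGeometric (R.ρ i φ)) ∨
      ∃ τ', R.Unipotent τ' ∧ R.ρ i τ' ≠ 1 ∧ ¬ R.OneBlock i τ'))

/-- No two of the representations are isomorphic, not even as representations of a subgroup of finite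
index. -/
def Family.Distinct : Prop :=
  ∀ i j, i ≠ j → ∀ Δ : Subgroup Γ, Δ.FiniteIndex → ∀ f : V i ≃ₗ[k] V j,
    ¬ ∀ s ∈ Δ, ∀ x, f (R.ρ i s x) = R.ρ j s (f x)

end family

end

end Pool.Agent.H20.TB
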