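import Mathlib
import Pool.Agent.H20.TB.Blocks

/-!
# Exponentials of nilpotent endomorphisms
-/

set_option autoImplicit false
set_option linter.unusedSectionVars false

namespace Pool.Agent.H20.TB

open Module Polynomial

noncomputable section

variable {k V : Type} [Field k] [CharZero k] [AddCommGroup V] [Module k V]
  [FiniteDimensional k V]

/-- `u` is the exponential of `N`, where `N ^ d = 0`. -/
def IsExp (u N : End k V) (d : ℕ) : Prop :=
  N ^ d = 0 ∧ ∀ m : ℕ, u ^ m = ∑ i ∈ Finset.range d, ((m : k) ^ i * ((i.factorial : ℕ) : k)⁻¹) • N ^ i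

theorem isExp_exp [Module ℚ (End k V)] {N : End k V} {d : ℕ} (hN : N ^ d = 0) :
    IsExp (IsNilpotent.exp N) N d := by
  refine ⟨hN, fun m => ?_⟩
  have h1 : ∀ m : ℕ, IsNilpotent.exp N ^ m = IsNilpotent.exp (m • N) := by
    intro m
    induction m with
    | zero => rw [pow_zero, zero_smul, IsNilpotent.exp_zero]
    | succ m ih =>
      rw [pow_succ, ih, succ_nsmul, IsNilpotent.exp_add_of_commute]
      · exact (Commute.refl N).smul_left m
      · exact ⟨d, by rw [_root_.smul_pow, hN, smul_zero]⟩
      · exact ⟨d, hN⟩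
  rw [h1, IsNilpotent.exp_eq_sum (k := d) (by rw [_root_.smul_pow, hN, smul_zero])]
  refine Finset.sum_congr rfl fun i _ => ?_
  rw [← Rat.cast_smul_eq_qsmul k, _root_.smul_pow, mul_comm, mul_smul]
  congr 1
  · push_cast
    rfl
  · rw [← Nat.cast_smul_eq_nsmul k, Nat.cast_pow]

theorem isExp_of_sum {u N : End k V} {d : ℕ} (hN : N ^ d = 0)
    (hu : u = ∑ i ∈ Finset.range d, ((i.factorial : ℕ) : k)⁻¹ • N ^ i) : IsExp u N d := by
  let _ : Module ℚ (End k V) := Module.compHom _ (algebraMap ℚ k)
  have h1 : u = IsNilpotent.exp N := by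
    rw [hu, IsNilpotent.exp_eq_sum (k := d) hN]
    refine Finset.sum_congr rfl fun i _ => ?_
    rw [← Rat.cast_smul_eq_qsmul k]
    congr 1
    push_cast
    rfl
  rw [h1]
  exact isExp_exp hN

/-- Vectors which are the coefficients of a polynomial function with values in `U`. -/
theorem coeff_mem {U : Submodule k V} {d : ℕ} (v : ℕ → V)
    (h : ∀ m : ℕ, ∑ i ∈ Finset.range d, (m : k) ^ i • v i ∈ U) : ∀ i < d, v i ∈ U := by
  intro i hi
  rw [← Submodule.Quotient.mk_eq_zero, ← Module.forall_dual_apply_eq_zero_iff k]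
  intro f
  let p : k[X] := ∑ i ∈ Finset.range d, Polynomial.C (f (Submodule.Quotient.mk (v i))) * X ^ i
  have hp : p = 0 := by
    refine Polynomial.eq_zero_of_infinite_isRoot p ?_
    refine (Set.infinite_range_of_injective (Nat.cast_injective (R := k))).mono ?_
    rintro _ ⟨m, rfl⟩
    have h1 : eval (m : k) p = f (Submodule.Quotient.mk
        (∑ i ∈ Finset.range d, (m : k) ^ i • v i)) := by
      simp only [p, eval_finsetSum, eval_mul, eval_C, eval_pow, eval_X]
      rw [← Submodule.mkQ_apply, map_sum, map_sum]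
      refine Finset.sum_congr rfl fun i _ => ?_
      rw [map_smul, map_smul, smul_eq_mul, mul_comm]
      rfl
    change eval (m : k) p = 0
    rw [h1, (Submodule.Quotient.mk_eq_zero U).2 (h m), map_zero]
  have h2 : p.coeff i = f (Submodule.Quotient.mk (v i)) := by
    simp only [p, finsetSum_coeff, coeff_C_mul_X_pow]
    rw [Finset.sum_ite_eq, if_pos (Finset.mem_range.2 hi)]
  rw [← h2, hp, coeff_zero]

/-- Subspaces stable under a positive power of the exponential are stable under `N`. -/
theorem IsExp.st {u N : End k V} {d : ℕ} (h : IsExp u N d) {U : Submodule k V} {e : ℕ}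
    (he : 0 < e) (hU : St (u ^ e) U) : St N U := by
  intro x hx
  by_cases hd : 1 < d
  · have h1 := coeff_mem (U := U) (d := d)
      (fun i => ((e : k) ^ i * ((i.factorial : ℕ) : k)⁻¹) • (N ^ i) x) (fun m => by
      have h2 : (u ^ (e * m)) x ∈ U := by
        rw [pow_mul]
        exact pow_mem hU m hx
      rw [h.2, LinearMap.sum_apply] at h2
      refine (congrArg (· ∈ U) (Finset.sum_congr rfl fun i _ => ?_)).mp h2
      rw [LinearMap.smul_apply, smul_smul]
      congr 1
      push_cast
      ring) 1 hd
    beta_reduce at h1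
    rw [pow_one, pow_one, Nat.factorial_one, Nat.cast_one, inv_one, mul_one] at h1
    have he' : (e : k) ≠ 0 := Nat.cast_ne_zero.2 he.ne'
    have h2 := U.smul_mem (e : k)⁻¹ h1
    rwa [smul_smul, inv_mul_cancel₀ he', one_smul] at h2
  · have h1 : N = 0 := by
      have h2 : N ^ 1 = N ^ d * N ^ (1 - d) := by
        rw [← pow_add]
        congr 1
        omega
      rw [h.1, zero_mul, pow_one] at h2
      exact h2
    rw [h1, LinearMap.zero_apply]
    exact U.zero_mem

theorem IsExp.mono {u N : End k V} {d : ℕ} (h : IsExp u N d) (D : ℕ) : IsExp u N (d + D) := by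
  refine ⟨by rw [pow_add, h.1, zero_mul], fun m => ?_⟩
  rw [h.2, Finset.sum_range_add, left_eq_add]
  refine Finset.sum_eq_zero fun i _ => ?_
  rw [pow_add N, h.1, zero_mul, smul_zero]

/-- `N` is skew if its exponential preserves the form. -/
theorem IsExp.skew {u N : End k V} {d : ℕ} (h0 : IsExp u N d) (ω : V →ₗ[k] V →ₗ[k] k)
    (hω : ∀ x y, ω (u x) (u y) = ω x y) (x y : V) : ω (N x) y + ω x (N y) = 0 := by
  have h := h0.mono 2
  set D := d + 2 with hD
  let c : ℕ → k := fun i => ((i.factorial : ℕ) : k)⁻¹
  let p : k[X] := ∑ i ∈ Finset.range D, ∑ j ∈ Finset.range D,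
    Polynomial.C (c i * c j * ω ((N ^ i) x) ((N ^ j) y)) * X ^ (i + j)
  have hpow : ∀ m : ℕ, ω ((u ^ m) x) ((u ^ m) y) = ω x y := by
    intro m
    induction m with
    | zero => rfl
    | succ m ih => rw [pow_succ', Module.End.mul_apply, Module.End.mul_apply, hω, ih]
  have hev : ∀ m : ℕ, eval (m : k) p = ω x y := by
    intro m
    rw [← hpow m, h.2]
    simp only [p, eval_finsetSum, eval_mul, eval_C, eval_pow, eval_X, LinearMap.sum_apply,
      LinearMap.smul_apply, map_sum, map_smul, smul_eq_mul]
    rw [Finset.sum_comm]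
    refine Finset.sum_congr rfl fun i _ => ?_
    rw [Finset.mul_sum]
    refine Finset.sum_congr rfl fun j _ => ?_
    simp only [c]
    ring
  have hp : p - Polynomial.C (ω x y) = 0 := by
    refine Polynomial.eq_zero_of_infinite_isRoot _ ?_
    refine (Set.infinite_range_of_injective (Nat.cast_injective (R := k))).mono ?_
    rintro _ ⟨m, rfl⟩
    change eval (m : k) (p - Polynomial.C (ω x y)) = 0
    rw [eval_sub, hev, eval_C, sub_self]
  have h1 : (p - Polynomial.C (ω x y)).coeff 1 = 0 := by rw [hp, coeff_zero]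
  rw [coeff_sub, coeff_C_succ, sub_zero] at h1
  have h2 : p.coeff 1 = ω (N x) y + ω x (N y) := by
    simp only [p, finsetSum_coeff, coeff_C_mul_X_pow]
    rw [hD, Finset.sum_range_succ', Finset.sum_range_succ', Finset.sum_eq_zero, zero_add]
    · congr 1
      · rw [Finset.sum_eq_single 0]
        · simp [c]
        · intro j _ hj
          rw [if_neg (by omega)]
        · intro hj
          exact absurd (Finset.mem_range.2 (by omega)) hj
      · rw [Finset.sum_eq_single 1]
        · simp [c]
        · intro j _ hj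
          rw [if_neg (by omega)]
        · intro hj
          exact absurd (Finset.mem_range.2 (by omega)) hj
    · intro i _
      refine Finset.sum_eq_zero fun j _ => ?_
      rw [if_neg (by omega)]
  rw [← h2, h1]

end

end Pool.Agent.H20.TB
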