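import Mathlib
import Pool.Agent.H20.TB.Blocks
import Pool.Graph.R_seed8.Y114.MU.SumTate
import Pool.Graph.R_seed8.W529.Ta.Transvection

/-!
# Lie algebras of families of symplectic representations with transvections
-/

set_option autoImplicit false
set_option linter.unusedSectionVars false
set_option linter.unusedVariables false

namespace Pool.Agent.H20.TB

open Module Polynomial Pool.Agent.H204R3.GP Pool.Agent.H204R3.SP Pool.Agent.Y114.TF
  Pool.Agent.Y114.MU

noncomputable section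

section one

variable {k V : Type} [Field k] [CharZero k] [AddCommGroup V] [Module k V]
  (ω : V →ₗ[k] V →ₗ[k] k)

theorem exists_pair (halt : ∀ v, ω v v = 0) (hnd : ∀ u, (∀ v, ω v u = 0) → u = 0) {a : V}
    (ha : a ≠ 0) : ∃ v, ω a v = 1 := by
  obtain ⟨b', hb'⟩ : ∃ v, ω v a ≠ 0 := by
    by_contra hcon
    push Not at hcon
    exact ha (hnd a hcon)
  refine ⟨-(ω b' a)⁻¹ • b', ?_⟩
  rw [map_smul, alt_neg ω halt a b', smul_eq_mul]
  field_simp

/-- A symplectic endomorphism `1 + M` with `M` of rank one. -/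
theorem transvection_form [FiniteDimensional k V] (halt : ∀ v, ω v v = 0)
    (hnd : ∀ u, (∀ v, ω v u = 0) → u = 0)
    {M : End k V} (hM : finrank k (LinearMap.range M) = 1)
    (h : ∀ x y, ω (M x) y + ω x (M y) + ω (M x) (M y) = 0) :
    ∃ (δ : V) (c : k), δ ≠ 0 ∧ c ≠ 0 ∧ ∀ v, M v = (c * ω δ v) • δ := by
  obtain ⟨δ, hδ, hspan⟩ := finrank_eq_one_iff'.1 hM
  have hδ' : (δ : V) ≠ 0 := fun h0 => hδ (Subtype.ext h0)
  have hf : ∀ v, ∃ a : k, M v = a • (δ : V) := by
    intro v
    obtain ⟨a, ha⟩ := hspan ⟨M v, v, rfl⟩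
    exact ⟨a, (congrArg Subtype.val ha).symm⟩
  choose f hf using hf
  obtain ⟨y, hy⟩ := exists_pair ω halt hnd hδ'
  have h1 : ∀ x, f x = f y * ω δ x := by
    intro x
    have h2 := h x y
    rw [hf x, hf y] at h2
    simp only [map_smul, LinearMap.smul_apply, smul_eq_mul, halt, hy, mul_zero, add_zero,
      mul_one] at h2
    rw [alt_neg ω halt x δ] at h2
    linear_combination h2
  refine ⟨δ, f y, hδ', ?_, fun v => ?_⟩
  · intro h0
    have h2 : M = 0 := LinearMap.ext fun v => by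
      rw [hf, h1, h0, zero_mul, zero_smul, LinearMap.zero_apply]
    rw [h2, LinearMap.range_zero, finrank_bot] at hM
    exact zero_ne_one hM
  · rw [hf, h1]

/-- A skew endomorphism of rank one. -/
theorem skew_rank_one [FiniteDimensional k V] (halt : ∀ v, ω v v = 0)
    (hnd : ∀ u, (∀ v, ω v u = 0) → u = 0)
    {M : End k V} (hM : finrank k (LinearMap.range M) = 1) (h : M ∈ SpL ω) :
    ∃ (δ : V) (c : k), δ ≠ 0 ∧ c ≠ 0 ∧ M = c • SS ω δ δ := by
  obtain ⟨δ, hδ, hspan⟩ := finrank_eq_one_iff'.1 hM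
  obtain ⟨δ, c, hδ, hc, hM⟩ := transvection_form ω halt hnd hM (fun x y => by
    have h1 := h x y
    have hf : ∀ v, ∃ a : k, M v = a • (δ : V) := by
      intro v
      obtain ⟨a, ha⟩ := hspan ⟨M v, v, rfl⟩
      exact ⟨a, (congrArg Subtype.val ha).symm⟩
    obtain ⟨a, ha⟩ := hf x
    obtain ⟨b, hb⟩ := hf y
    have h2 : ω (M x) (M y) = 0 := by
      rw [ha, hb, map_smul, map_smul, LinearMap.smul_apply, halt, smul_zero, smul_zero]
    rw [h2, add_zero]
    exact h1)
  refine ⟨δ, c / 2, hδ, div_ne_zero hc two_ne_zero, LinearMap.ext fun v => ?_⟩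
  rw [hM, LinearMap.smul_apply, SS_apply, ← add_smul, smul_smul]
  congr 1
  field_simp
  ring

theorem SS_eq_zero (halt : ∀ v, ω v v = 0) (hnd : ∀ u, (∀ v, ω v u = 0) → u = 0) {δ v : V}
    (hδ : δ ≠ 0) (h : SS ω δ v = 0) : v = 0 := by
  obtain ⟨x, hx⟩ := exists_pair ω halt hnd hδ
  have h1 : ∀ x, ω δ x • v + ω v x • δ = 0 := by
    intro x
    have h2 := congrArg (fun T : End k V => T x) h
    rw [SS_apply, LinearMap.zero_apply] at h2
    exact h2
  have h2 := h1 x
  rw [hx, one_smul] at h2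
  have h3 : v = (-ω v x) • δ := by rw [neg_smul]; exact eq_neg_of_add_eq_zero_left h2
  have h4 : ω v x = -ω v x := by
    conv_lhs => rw [h3]
    rw [map_smul, LinearMap.smul_apply, hx, smul_eq_mul, mul_one]
  have h5 : (2 : k) * ω v x = 0 := by linear_combination h4
  rw [h3, (mul_eq_zero.1 h5).resolve_left two_ne_zero, neg_zero, zero_smul]

/-- If `(ad N) ^ 2` has rank one, then `N` has rank one. -/
theorem rank_one_of_ad [FiniteDimensional k V] (halt : ∀ v, ω v v = 0)
    (hnd : ∀ u, (∀ v, ω v u = 0) → u = 0)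
    {N : End k V} (hN : IsNilpotent N) (hN0 : N ≠ 0) (hsk : N ∈ SpL ω)
    (h : ∀ u, ∃ c : k, N * (N * SS ω u u - SS ω u u * N) - (N * SS ω u u - SS ω u u * N) * N =
      c • N) : finrank k (LinearMap.range N) = 1 := by
  have hf : ∀ u, ∃ c : k, ∀ v, (2 * ω (N (N u)) v) • u + (2 * ω u v) • N (N u) +
      (4 * ω (N u) v) • N u = c • N v := by
    intro u
    obtain ⟨c, hc⟩ := h u
    refine ⟨c, fun v => ?_⟩
    rw [bracket_SS ω hsk, mul_add, add_mul] at hc
    have h1 : N * SS ω (N u) u + N * SS ω u (N u) - (SS ω (N u) u * N + SS ω u (N u) * N) =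
        (N * SS ω (N u) u - SS ω (N u) u * N) + (N * SS ω u (N u) - SS ω u (N u) * N) := by abel
    rw [h1, bracket_SS ω hsk, bracket_SS ω hsk] at hc
    have h2 := congrArg (fun T : End k V => T v) hc
    simp only [LinearMap.add_apply, SS_apply, LinearMap.smul_apply] at h2
    rw [← h2]
    module
  by_cases hsq : ∀ u, N (N u) = 0
  · obtain ⟨u, hu⟩ : ∃ u, N u ≠ 0 := by
      by_contra hcon
      push Not at hcon
      exact hN0 (LinearMap.ext hcon)
    obtain ⟨v₀, hv₀⟩ := exists_pair ω halt hnd hu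
    obtain ⟨c, hc⟩ := hf u
    have h1 := hc v₀
    rw [hsq, map_zero, LinearMap.zero_apply, mul_zero, zero_smul, smul_zero, zero_add, zero_add,
      hv₀, mul_one] at h1
    have hc0 : c ≠ 0 := by
      rintro rfl
      rw [zero_smul] at h1
      exact (smul_ne_zero (by norm_num : (4 : k) ≠ 0) hu) h1
    rw [finrank_eq_one_iff']
    refine ⟨⟨N u, u, rfl⟩, fun h0 => hu (congrArg Subtype.val h0), ?_⟩
    rintro ⟨_, v, rfl⟩
    refine ⟨c⁻¹ * (4 * ω (N u) v), Subtype.ext ?_⟩
    have h2 := hc v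
    rw [hsq, map_zero, LinearMap.zero_apply, mul_zero, zero_smul, smul_zero, zero_add,
      zero_add] at h2
    change (c⁻¹ * (4 * ω (N u) v)) • N u = N v
    rw [mul_smul, h2, smul_smul, inv_mul_cancel₀ hc0, one_smul]
  · push Not at hsq
    obtain ⟨u₀, hu₀⟩ := hsq
    exfalso
    have h1 : ∀ u, N (N u) ≠ 0 → u ∈ LinearMap.range N := by
      intro u hu
      obtain ⟨v, hv⟩ := exists_pair ω halt hnd hu
      obtain ⟨c, hc⟩ := hf u
      have h2 := hc v
      rw [hv, mul_one] at h2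
      have h3 : (2 : k) • u ∈ LinearMap.range N := by
        have h4 : (2 : k) • u = N (c • v - (2 * ω u v) • N u - (4 * ω (N u) v) • u) := by
          rw [map_sub, map_sub, map_smul, map_smul, map_smul, ← h2]
          abel
        rw [h4]
        exact ⟨_, rfl⟩
      exact (Submodule.smul_mem_iff _ two_ne_zero).1 h3
    have h2 : ∀ x, x ∈ LinearMap.range N := by
      intro x
      by_cases hx : N (N x) = 0
      · have h3 : x = (u₀ + x) - u₀ := by abel
        rw [h3]
        refine Submodule.sub_mem _ (h1 _ ?_) (h1 _ hu₀)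
        rw [map_add, map_add, hx, add_zero]
        exact hu₀
      · exact h1 x hx
    have h3 : Function.Surjective N := fun x => h2 x
    obtain ⟨m, hm⟩ := hN
    have h4 : Function.Surjective (N ^ m) := by
      rw [Module.End.coe_pow]
      exact h3.iterate m
    obtain ⟨y, hy⟩ := h4 (N (N u₀))
    rw [hm, LinearMap.zero_apply] at hy
    exact hu₀ hy.symm

/-- The symplectic Lie algebra moves a vector everywhere. -/
theorem exists_move (halt : ∀ v, ω v v = 0) (hnd : ∀ u, (∀ v, ω v u = 0) → u = 0) {δ : V}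
    (hδ : δ ≠ 0) (v : V) : ∃ Y ∈ SpL ω, Y δ = v := by
  obtain ⟨x, hx⟩ := exists_pair ω halt hnd hδ
  have hx' : ω x δ = -1 := by rw [alt_neg ω halt, hx]
  refine ⟨-SS ω x v - (ω v δ / 2) • SS ω x x, Submodule.sub_mem _
    (Submodule.neg_mem _ (SS_mem_SpL ω halt x v)) (Submodule.smul_mem _ _ (SS_mem_SpL ω halt x x)), ?_⟩
  simp only [LinearMap.sub_apply, LinearMap.neg_apply, LinearMap.smul_apply, SS_apply, hx']
  module

end one

section units

variable {k V : Type} [Field k] [CharZero k] [AddCommGroup V] [Module k V]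

theorem range_mul_unit {A B : End k V} (hB : IsUnit B) :
    LinearMap.range (A * B) = LinearMap.range A := by
  apply le_antisymm
  · rintro _ ⟨x, rfl⟩
    exact ⟨B x, rfl⟩
  · rintro _ ⟨x, rfl⟩
    obtain ⟨u, rfl⟩ := hB
    refine ⟨((u⁻¹ : (End k V)ˣ) : End k V) x, ?_⟩
    rw [← Module.End.mul_apply, mul_assoc, Units.mul_inv, mul_one]

/-- The rank of `u ^ e - 1` for a unipotent element. -/
theorem range_pow_sub_one {A : End k V} (hnil : IsNilpotent (A - 1)) {e : ℕ} (he : 0 < e) :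
    LinearMap.range (A ^ e - 1) = LinearMap.range (A - 1) := by
  have hcomm : ∀ j : ℕ, Commute (A - 1) (A ^ j) := fun j =>
    ((Commute.refl A).sub_left (Commute.one_left A)).pow_right j
  have h1 : A ^ e - 1 = (A - 1) * ∑ j ∈ Finset.range e, A ^ j := by rw [mul_geom_sum]
  have h2 : ∑ j ∈ Finset.range e, A ^ j = algebraMap k (End k V) (e : k) +
      ∑ j ∈ Finset.range e, (A ^ j - 1) := by
    rw [Finset.sum_sub_distrib, Finset.sum_const, Finset.card_range, nsmul_eq_mul, mul_one,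
      map_natCast]
    abel
  have hfac : ∃ T : End k V, Commute (A - 1) T ∧ ∑ j ∈ Finset.range e, (A ^ j - 1) = (A - 1) * T := by
    refine ⟨∑ j ∈ Finset.range e, ∑ i ∈ Finset.range j, A ^ i, ?_, ?_⟩
    · exact Commute.sum_right _ _ _ fun j _ => Commute.sum_right _ _ _ fun i _ => hcomm i
    · rw [Finset.mul_sum]
      exact Finset.sum_congr rfl fun j _ => by rw [mul_geom_sum]
  obtain ⟨T, hT, hT'⟩ := hfac
  have hu : IsUnit (∑ j ∈ Finset.range e, A ^ j) := by
    rw [h2, hT']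
    refine (hT.isNilpotent_mul_right hnil).isUnit_add_left_of_commute ?_ ?_
    · exact (IsUnit.mk0 (e : k) (by exact_mod_cast he.ne')).map _
    · exact (Algebra.commutes _ _).symm
  rw [h1]
  exact range_mul_unit hu

theorem nil_pow' {A : End k V} (h : IsNilpotent (A - 1)) (e : ℕ) : IsNilpotent (A ^ e - 1) := by
  have h1 : A ^ e - 1 = (A - 1) * ∑ j ∈ Finset.range e, A ^ j := by rw [mul_geom_sum]
  rw [h1]
  refine Commute.isNilpotent_mul_right ?_ h
  refine Commute.sum_right _ _ _ fun j _ => ?_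
  exact ((Commute.refl A).sub_left (Commute.one_left A)).pow_right j

end units

section family

variable {k : Type} [Field k] [CharZero k] {ι : Type} [Fintype ι] [DecidableEq ι]
  {V : ι → Type} [∀ i, AddCommGroup (V i)] [∀ i, Module k (V i)] [∀ i, FiniteDimensional k (V i)]
  {Γ : Type} [Group Γ] (ρ : ∀ i, Representation k Γ (V i)) (χ : Γ →* k)
  (ω : ∀ i, V i →ₗ[k] V i →ₗ[k] k)

/-- The logarithm of a unipotent element. -/
theorem exists_log' {τ : Γ} (hχ : χ τ = 1)
    (hnil : ∀ i, IsNilpotent (ρ i τ - 1)) : ∃ A ∈ aa ρ χ, ∀ i, IsNilpotent (A i) ∧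
      LinearMap.range (A i) = LinearMap.range (ρ i τ - 1) := by
  choose d hd using hnil
  set D := ∑ i, d i with hD
  have hle : ∀ i, d i ≤ D := fun i => Finset.single_le_sum (f := d) (fun _ _ => Nat.zero_le _)
    (Finset.mem_univ i)
  have hz : ∀ i, (ρ i τ - 1) ^ (D + 2) = 0 := by
    intro i
    obtain ⟨c, hc⟩ := Nat.exists_eq_add_of_le (hle i)
    rw [hc, add_assoc, pow_add, hd, zero_mul]
  have h0 : sumRep ρ τ - 1 = piE (fun i => ρ i τ - 1) := by
    rw [sumRep_eq, ← map_one (piE (k := k) (V := V)), ← map_sub]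
    rfl
  have h1 : (sumRep ρ τ - 1) ^ (D + 2) = 0 := by
    rw [h0, ← map_pow]
    have h2 : (fun i => ρ i τ - 1) ^ (D + 2) = (0 : ∀ i, End k (V i)) := by
      funext i
      exact hz i
    rw [h2, map_zero]
  have h3 := lg_mem (sumRep ρ) χ h1 hχ
  rw [h0, lgA_piE] at h3
  refine ⟨_, (mem_aa ρ χ _).2 h3, fun i => ⟨lgA_one_nil D ⟨D + 2, hz i⟩, ?_⟩⟩
  obtain ⟨w, hw, h4⟩ := lgA_one D (ρ i τ - 1)
  have h5 : IsNilpotent ((ρ i τ - 1) * w) := hw.isNilpotent_mul_right ⟨D + 2, hz i⟩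
  have h6 : IsUnit (1 + (ρ i τ - 1) * w) := by
    rw [add_comm]
    exact h5.isUnit_add_one
  change LinearMap.range (lgA (D + 2) (ρ i τ - 1) 1) = _
  rw [h4]
  exact range_mul_unit h6

/-- If the Lie algebra links two factors by an isomorphism which matches elements of rank one, the
dimensions are the same. -/
theorem dim_le (halt : ∀ i v, ω i v v = 0) (hnd : ∀ i u, (∀ v, ω i v u = 0) → u = 0)
    (hωρ : ∀ i s u v, ω i (ρ i s u) (ρ i s v) = χ s * ω i u v) {i j : ι}
    (hsurj : ∀ X ∈ SpL (ω i), ∃ A ∈ aa ρ χ, A i = X)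
    (hlink : ∀ A ∈ aa ρ χ, A j = 0 → A i = 0) {N : ∀ i, End k (V i)} (hN : N ∈ aa ρ χ)
    {δ : V i} {c : k} (hδ : δ ≠ 0) (hc : c ≠ 0) (hNi : N i = c • SS (ω i) δ δ)
    {δ' : V j} {c' : k} (hδ' : δ' ≠ 0) (hc' : c' ≠ 0) (hNj : N j = c' • SS (ω j) δ' δ') :
    finrank k (V i) ≤ finrank k (V j) := by
  classical
  let G : Submodule k (V i × V j) :=
    { carrier := {x | ∃ A ∈ aa ρ χ, A i = SS (ω i) δ x.1 ∧ A j = SS (ω j) δ' x.2}
      zero_mem' := ⟨0, Submodule.zero_mem _, by
        change (0 : End k (V i)) = SS (ω i) δ 0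
        rw [Pool.Agent.W529.Ta.SS_zero_right], by
        change (0 : End k (V j)) = SS (ω j) δ' 0
        rw [Pool.Agent.W529.Ta.SS_zero_right]⟩
      add_mem' := by
        rintro x y ⟨A, hA, h1, h2⟩ ⟨B, hB, h3, h4⟩
        refine ⟨A + B, Submodule.add_mem _ hA hB, ?_, ?_⟩
        · rw [Pi.add_apply, h1, h3, Prod.fst_add, Pool.Agent.W529.Ta.SS_add_right]
        · rw [Pi.add_apply, h2, h4, Prod.snd_add, Pool.Agent.W529.Ta.SS_add_right]
      smul_mem' := by
        rintro a x ⟨A, hA, h1, h2⟩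
        refine ⟨a • A, Submodule.smul_mem _ _ hA, ?_, ?_⟩
        · rw [Pi.smul_apply, h1, Prod.smul_fst, Pool.Agent.W529.Ta.SS_smul_right]
        · rw [Pi.smul_apply, h2, Prod.smul_snd, Pool.Agent.W529.Ta.SS_smul_right] }
  have h1 : Function.Surjective ((LinearMap.fst k (V i) (V j)).domRestrict G) := by
    intro v
    obtain ⟨Y, hY, hYδ⟩ := exists_move (ω i) (halt i) (hnd i) hδ v
    obtain ⟨B, hB, rfl⟩ := hsurj Y hY
    have h2 := Submodule.smul_mem _ (2 * c)⁻¹ (aa_bracket ρ χ B hB N hN)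
    have e1 : (2 * c)⁻¹ • (B i * N i - N i * B i) = SS (ω i) δ v := by
      rw [hNi, mul_smul_comm, smul_mul_assoc, ← smul_sub,
        bracket_SS (ω i) (aa_sp ρ χ ω hωρ B hB i), SS_comm (ω i) (B i δ), ← two_smul k, hYδ,
        smul_smul, smul_smul]
      have : (2 * c)⁻¹ * c * 2 = 1 := by field_simp
      rw [this, one_smul]
    have e2 : (2 * c)⁻¹ • (B j * N j - N j * B j) = SS (ω j) δ' ((c⁻¹ * c') • B j δ') := by
      rw [hNj, mul_smul_comm, smul_mul_assoc, ← smul_sub,
        bracket_SS (ω j) (aa_sp ρ χ ω hωρ B hB j), SS_comm (ω j) (B j δ'), ← two_smul k,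
        smul_smul, smul_smul, Pool.Agent.W529.Ta.SS_smul_right]
      congr 1
      field_simp
    exact ⟨⟨(v, (c⁻¹ * c') • B j δ'), _, h2, e1, e2⟩, rfl⟩
  have h2 : Function.Injective ((LinearMap.snd k (V i) (V j)).domRestrict G) := by
    rw [← LinearMap.ker_eq_bot, LinearMap.ker_eq_bot']
    rintro ⟨⟨v, v'⟩, A, hA, e1, e2⟩ h0
    have h0' : v' = 0 := h0
    subst h0'
    have e3 : A j = 0 := by
      rw [e2]
      exact Pool.Agent.W529.Ta.SS_zero_right (ω j) δ'
    have e4 := hlink A hA e3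
    rw [e1] at e4
    have e5 : v = 0 := SS_eq_zero (ω i) (halt i) (hnd i) hδ e4
    refine Subtype.ext ?_
    change (v, (0 : V j)) = 0
    rw [e5]
    rfl
  exact (LinearMap.finrank_le_finrank_of_surjective h1).trans
    (LinearMap.finrank_le_finrank_of_injective h2)

end family

end

end Pool.Agent.H20.TB
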