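import Mathlib
import Pool.Agent.H20.TB.Lie

/-!
# Tate classes of families of strongly irreducible symplectic representations with transvections
-/

set_option autoImplicit false
set_option linter.unusedSectionVars false
set_option linter.unusedVariables false

namespace Pool.Agent.H20.TB

open Module Polynomial Pool.Agent.H204R3.GP Pool.Agent.H204R3.SP Pool.Agent.Y114.TF
  Pool.Agent.Y114.MU

noncomputable section

variable {k : Type} [Field k] [CharZero k] {ι : Type} [Fintype ι] [DecidableEq ι]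
  {V : ι → Type} [∀ i, AddCommGroup (V i)] [∀ i, Module k (V i)] [∀ i, FiniteDimensional k (V i)]
  {Γ : Type} [Group Γ] (ρ : ∀ i, Representation k Γ (V i)) (χ : Γ →* k)
  (ω : ∀ i, V i →ₗ[k] V i →ₗ[k] k)

/-- The transvection. -/
theorem transvection_of (halt : ∀ i v, ω i v v = 0)
    (hnd : ∀ i u, (∀ v, ω i v u = 0) → u = 0)
    (hωρ : ∀ i s u v, ω i (ρ i s u) (ρ i s v) = χ s * ω i u v) {i : ι} {τ : Γ} (hχ : χ τ = 1)
    (hrk : finrank k (LinearMap.range (ρ i τ - 1)) = 1) :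
    ∃ (δ : V i) (c : k), δ ≠ 0 ∧ c ≠ 0 ∧ ∀ v, (ρ i τ - 1) v = (c * ω i δ v) • δ := by
  refine transvection_form (ω i) (halt i) (hnd i) hrk fun x y => ?_
  have h1 := hωρ i τ x y
  rw [hχ, one_mul] at h1
  have h2 : ∀ x, ρ i τ x = x + (ρ i τ - 1) x := fun x => by
    rw [LinearMap.sub_apply, Module.End.one_apply]
    abel
  rw [h2 x, h2 y] at h1
  simp only [map_add, LinearMap.add_apply] at h1
  linear_combination h1

/-- The commutant of a strongly irreducible representation with a transvection. -/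
theorem commutant (halt : ∀ i v, ω i v v = 0)
    (hnd : ∀ i u, (∀ v, ω i v u = 0) → u = 0)
    (hωρ : ∀ i s u v, ω i (ρ i s u) (ρ i s v) = χ s * ω i u v) {i : ι} {τ : Γ} (hχ : χ τ = 1)
    (hnil : IsNilpotent (ρ i τ - 1))
    (hrk : finrank k (LinearMap.range (ρ i τ - 1)) = 1) (Δ : Subgroup Γ) (hΔ : Δ.FiniteIndex)
    (hirr : ∀ U : Submodule k (V i), (∀ g ∈ Δ, ∀ u ∈ U, ρ i g u ∈ U) → U = ⊥ ∨ U = ⊤)
    (A : End k (V i)) (hA : ∀ g ∈ Δ, ∀ x, A (ρ i g x) = ρ i g (A x)) :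
    ∃ c : k, ∀ v, A v = c • v := by
  obtain ⟨M, hM0, -, hM⟩ := Subgroup.exists_pow_mem_of_index_ne_zero hΔ.index_ne_zero τ
  have h1 : finrank k (LinearMap.range (ρ i (τ ^ M) - 1)) = 1 := by
    rw [map_pow, range_pow_sub_one hnil hM0, hrk]
  obtain ⟨δ, c, hδ, hc, hM'⟩ := transvection_of ρ χ ω halt hnd hωρ (i := i)
    (by rw [map_pow, hχ, one_pow]) h1
  obtain ⟨y, hy⟩ := exists_pair (ω i) (halt i) (hnd i) hδ
  have h2 : ∀ x, A ((ρ i (τ ^ M) - 1) x) = (ρ i (τ ^ M) - 1) (A x) := by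
    intro x
    rw [LinearMap.sub_apply, LinearMap.sub_apply, map_sub, hA _ hM]
    rfl
  have h3 := h2 y
  rw [hM', hM', hy, mul_one, map_smul] at h3
  have h4 : A δ = (ω i δ (A y)) • δ := by
    have h5 := congrArg (fun x => c⁻¹ • x) h3
    beta_reduce at h5
    rw [smul_smul, smul_smul, ← mul_assoc, inv_mul_cancel₀ hc, one_smul, one_mul] at h5
    exact h5
  refine ⟨ω i δ (A y), fun v => ?_⟩
  have hs := hirr (LinearMap.ker (A - (ω i δ (A y)) • (1 : End k (V i)))) (fun g hg u hu => by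
    rw [LinearMap.mem_ker, LinearMap.sub_apply, LinearMap.smul_apply, Module.End.one_apply,
      sub_eq_zero] at hu ⊢
    rw [hA g hg, hu, map_smul])
  rcases hs with h | h
  · exfalso
    apply hδ
    rw [← Submodule.mem_bot k, ← h, LinearMap.mem_ker, LinearMap.sub_apply, LinearMap.smul_apply,
      Module.End.one_apply, sub_eq_zero]
    exact h4
  · have h5 : v ∈ LinearMap.ker (A - (ω i δ (A y)) • (1 : End k (V i))) := by rw [h]; trivial
    rw [LinearMap.mem_ker, LinearMap.sub_apply, LinearMap.smul_apply, Module.End.one_apply,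
      sub_eq_zero] at h5
    exact h5

/-- No isomorphisms. -/
theorem not_iso' {i j : ι} {τ : Γ} (hnili : IsNilpotent (ρ i τ - 1))
    (hnilj : IsNilpotent (ρ j τ - 1))
    (hi : finrank k (LinearMap.range (ρ i τ - 1)) = 1)
    (hj : finrank k (V j) = finrank k (V i) → finrank k (LinearMap.range (ρ j τ - 1)) ≠ 1)
    (Δ : Subgroup Γ) (hΔ : Δ.FiniteIndex) (B : V j →ₗ[k] V i)
    (hB : ∀ g ∈ Δ, ∀ x, B (ρ j g x) = ρ i g (B x)) : ¬ Function.Bijective B := by
  intro hbij
  obtain ⟨M, hM0, -, hM⟩ := Subgroup.exists_pow_mem_of_index_ne_zero hΔ.index_ne_zero τ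
  apply hj (LinearEquiv.ofBijective B hbij).finrank_eq
  rw [← range_pow_sub_one hnilj hM0, ← hi, ← range_pow_sub_one hnili hM0]
  have h1 : ∀ x, B ((ρ j τ ^ M - 1) x) = (ρ i τ ^ M - 1) (B x) := by
    intro x
    rw [LinearMap.sub_apply, LinearMap.sub_apply, map_sub, ← map_pow, ← map_pow, hB _ hM]
    rfl
  have h2 : (LinearMap.range (ρ j τ ^ M - 1)).map B = LinearMap.range (ρ i τ ^ M - 1) := by
    apply le_antisymm
    · rintro _ ⟨_, ⟨x, rfl⟩, rfl⟩
      exact ⟨B x, (h1 x).symm⟩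
    · rintro _ ⟨y, rfl⟩
      obtain ⟨x, rfl⟩ := hbij.2 y
      exact ⟨_, ⟨x, rfl⟩, h1 x⟩
  rw [← h2]
  exact (Submodule.equivMapOfInjective B hbij.1 _).finrank_eq

/-- **Tate classes of the sum.** -/
theorem family_tate (halt : ∀ i v, ω i v v = 0)
    (hnd : ∀ i u, (∀ v, ω i v u = 0) → u = 0)
    (hωρ : ∀ i s u v, ω i (ρ i s u) (ρ i s v) = χ s * ω i u v)
    (hirr : ∀ i (Δ : Subgroup Γ), Δ.FiniteIndex → ∀ U : Submodule k (V i),
      (∀ s ∈ Δ, ∀ u ∈ U, ρ i s u ∈ U) → U = ⊥ ∨ U = ⊤)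
    (τ : ι → Γ) (hχ : ∀ i, χ (τ i) = 1) (hnil : ∀ i j, IsNilpotent (ρ j (τ i) - 1))
    (hrk : ∀ i, finrank k (LinearMap.range (ρ i (τ i) - 1)) = 1)
    (hz : ∀ i j, i ≠ j → finrank k (V j) = finrank k (V i) →
      finrank k (LinearMap.range (ρ j (τ i) - 1)) ≠ 1) :
    FiniteIndexSemisimple (sumRep ρ) ∧ HomsGeneratedByPolarizations ρ χ ω := by
  classical
  have hpot : ∀ i (Δ : Subgroup Γ), Δ.FiniteIndex →
      (∀ U : Submodule k (V i), (∀ g ∈ Δ, ∀ u ∈ U, ρ i g u ∈ U) → U = ⊥ ∨ U = ⊤) ∧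
      ∀ A : End k (V i), (∀ g ∈ Δ, ∀ x, A (ρ i g x) = ρ i g (A x)) → ∃ c : k, ∀ v, A v = c • v :=
    fun i Δ hΔ => ⟨hirr i Δ hΔ, commutant ρ χ ω halt hnd hωρ (hχ i) (hnil i i) (hrk i) Δ hΔ
      (hirr i Δ hΔ)⟩
  have hss : FiniteIndexSemisimple (sumRep ρ) := semi_sum ρ fun i Δ hΔ => (hpot i Δ hΔ).1
  have hcm := comm_sum ρ hpot (fun i j hij Δ hΔ B hB hbij =>
    not_iso' ρ (hnil i i) (hnil i j) (hrk i) (hz i j hij) Δ hΔ B hB hbij)
  refine ⟨hss, ?_⟩
  -- the components of the Lie algebra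
  have hlog : ∀ i, ∃ A ∈ aa ρ χ, ∀ j, IsNilpotent (A j) ∧
      LinearMap.range (A j) = LinearMap.range (ρ j (τ i) - 1) := fun i =>
    exists_log' ρ χ (hχ i) (hnil i)
  choose N hN hN' using hlog
  let L : ∀ i, Submodule k (End k (V i)) := fun i => (aa ρ χ).map (LinearMap.proj i)
  have hL : ∀ i X, X ∈ L i ↔ ∃ A ∈ aa ρ χ, A i = X := fun i X => Iff.rfl
  have hNi : ∀ i, ∃ (δ : V i) (c : k), δ ≠ 0 ∧ c ≠ 0 ∧ N i i = c • SS (ω i) δ δ := by
    intro i
    refine skew_rank_one (ω i) (halt i) (hnd i) ?_ (aa_sp ρ χ ω hωρ _ (hN i) i)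
    rw [(hN' i i).2]
    exact hrk i
  choose δ c hδ hc hNi using hNi
  have hSS : ∀ i u w, SS (ω i) u w ∈ L i := by
    intro i
    refine Pool.Agent.W529.Ta.SS_all (ρ i) (ω i) (L i) (halt i) (hnd i) ?_ ?_ (hirr i) (hδ i) ?_
    · rintro _ ⟨A, hA, rfl⟩ _ ⟨B, hB, rfl⟩
      exact ⟨_, aa_bracket ρ χ A hA B hB, rfl⟩
    · intro s a b hab
      rw [Pool.Agent.W529.Ta.SS_rho (ρ i) χ (ω i) (hωρ i)]
      refine Submodule.smul_mem _ _ ?_
      obtain ⟨A, hA, hAi⟩ := hab
      refine ⟨_, aa_conj ρ χ s A hA, ?_⟩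
      change ρ i s * A i * ρ i s⁻¹ = _
      change A i = _ at hAi
      rw [hAi]
    · have h1 : N i i ∈ L i := ⟨N i, hN i, rfl⟩
      rw [hNi] at h1
      exact (Submodule.smul_mem_iff _ (hc i)).1 h1
  -- symplectic bases
  have hdx : ∀ i, ∃ (R : Type) (_ : Fintype R) (_ : DecidableEq R) (e : Basis R k (V i))
      (inv : R → R) (jj : R → k),
      (∀ x, inv (inv x) = x) ∧ (∀ x, inv x ≠ x) ∧ (∀ x, jj (inv x) = -jj x) ∧
      (∀ x, jj x = 1 ∨ jj x = -1) ∧ ∀ x y, ω i (e x) (e y) = JJ inv jj x y := fun i =>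
    Pool.Agent.W529.Ta.exists_darboux (finrank k (V i)) (V i) (ω i) (halt i) (hnd i) le_rfl
  choose R hRf hRd e iv jj hiv hivne hjj hj1 hω using hdx
  have hj0 : ∀ i x, jj i x ≠ 0 := by
    intro i x
    rcases hj1 i x with h | h <;> rw [h]
    · exact one_ne_zero
    · exact neg_ne_zero.2 one_ne_zero
  have hSpL : ∀ i, SpL (ω i) ≤ L i := fun i =>
    SpL_le (ω i) (e i) (hiv i) (hjj i) (hj0 i) (hω i) (hSS i)
  have hsurj : ∀ i, ∀ X ∈ SpL (ω i), ∃ A ∈ aa ρ χ, A i = X := fun i X hX => (hL i X).1 (hSpL i hX)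
  -- the pairs
  have hpair : ∀ i j, i ≠ j → (∃ A ∈ aa ρ χ, A j = 0 ∧ A i ≠ 0) ∨ ∃ A ∈ aa ρ χ, A i = 0 ∧ A j ≠ 0 := by
    intro i j hij
    by_contra hcon
    rw [not_or] at hcon
    push Not at hcon
    obtain ⟨hl1, hl2⟩ := hcon
    have hNi0 : N i i ≠ 0 := by
      rw [hNi]
      refine smul_ne_zero (hc i) fun h0 => hδ i (SS_eq_zero (ω i) (halt i) (hnd i) (hδ i) h0)
    have hNj0 : N i j ≠ 0 := fun h0 => hNi0 (hl1 _ (hN i) h0)
    have hNjsp := aa_sp ρ χ ω hωρ _ (hN i) j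
    have hrank : finrank k (LinearMap.range (N i j)) = 1 := by
      refine rank_one_of_ad (ω j) (halt j) (hnd j) (hN' i j).1 hNj0 hNjsp fun u => ?_
      obtain ⟨B, hB, hBj⟩ := hsurj j _ (SS_mem_SpL (ω j) (halt j) u u)
      have h1 := aa_bracket ρ χ (N i) (hN i) B hB
      have h2 := aa_bracket ρ χ (N i) (hN i) _ h1
      -- the `i`-th component is a multiple of `N i i`
      obtain ⟨a, ha⟩ : ∃ a : k, N i i * (N i i * B i - B i * N i i) -
          (N i i * B i - B i * N i i) * N i i = a • N i i := by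
        have hBsp := aa_sp ρ χ ω hωρ _ hB i
        have e1 : N i i * B i - B i * N i i = (-(2 * c i)) • SS (ω i) (δ i) (B i (δ i)) := by
          rw [hNi, mul_smul_comm, smul_mul_assoc, ← smul_sub, ← neg_sub,
            bracket_SS (ω i) hBsp, SS_comm (ω i) (B i (δ i)), ← two_smul k, ← smul_neg, smul_smul]
          module
        have e2 : N i i * SS (ω i) (δ i) (B i (δ i)) - SS (ω i) (δ i) (B i (δ i)) * N i i =
            (2 * c i * ω i (δ i) (B i (δ i))) • SS (ω i) (δ i) (δ i) := by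
          have hsp := aa_sp ρ χ ω hωρ _ (hN i) i
          rw [bracket_SS (ω i) hsp]
          have e3 : N i i (δ i) = 0 := by
            rw [hNi, LinearMap.smul_apply, SS_apply, halt, zero_smul, add_zero, smul_zero]
          have e4 : N i i (B i (δ i)) = (2 * c i * ω i (δ i) (B i (δ i))) • δ i := by
            rw [hNi, LinearMap.smul_apply, SS_apply, ← two_smul k, smul_smul, smul_smul]
            congr 1
            ring
          rw [e3, e4, Pool.Agent.W529.Ta.SS_smul_right]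
          have e5 : SS (ω i) 0 (B i (δ i)) = 0 := by
            rw [SS_comm, Pool.Agent.W529.Ta.SS_zero_right]
          rw [e5, zero_add]
        refine ⟨-(2 * c i) * (2 * ω i (δ i) (B i (δ i))), ?_⟩
        rw [e1, mul_smul_comm, smul_mul_assoc, ← smul_sub, e2, hNi, smul_smul, smul_smul]
        congr 1
        ring
      refine ⟨a, ?_⟩
      have h3 := hl2 _ (Submodule.sub_mem _ h2 (Submodule.smul_mem _ a (hN i))) (by
        change N i i * (N i i * B i - B i * N i i) - (N i i * B i - B i * N i i) * N i i -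
          a • N i i = 0
        rw [ha, sub_self])
      have h4 : N i j * (N i j * B j - B j * N i j) - (N i j * B j - B j * N i j) * N i j -
          a • N i j = 0 := h3
      rw [hBj] at h4
      exact sub_eq_zero.1 h4
    obtain ⟨δ', c', hδ', hc', hNj⟩ := skew_rank_one (ω j) (halt j) (hnd j) hrank hNjsp
    have h1 : finrank k (V i) ≤ finrank k (V j) :=
      dim_le ρ χ ω halt hnd hωρ (hsurj i) (fun A hA h => by
        by_contra h'
        exact h' (hl1 A hA h)) (hN i) (hδ i) (hc i) (hNi i) hδ' hc' hNj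
    have h2 : finrank k (V j) ≤ finrank k (V i) :=
      dim_le ρ χ ω halt hnd hωρ (hsurj j) (fun A hA h => by
        by_contra h'
        exact h' (hl2 A hA h)) (hN i) hδ' hc' hNj (hδ i) (hc i) (hNi i)
    refine hz i j hij (le_antisymm h2 h1) ?_
    rw [← (hN' i j).2]
    exact hrank
  have hmem : ∀ i, ∀ X ∈ SpL (ω i), piE (Pi.single i X) ∈ lieT (sumRep ρ) χ := by
    intro i X hX
    refine (mem_aa ρ χ _).1 (goursat (aa ρ χ) (aa_bracket ρ χ) (fun i => SpL (ω i))
      (aa_sp ρ χ ω hωρ) hsurj ?_ ?_ hpair i hX)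
    · intro i J hJle hJ hJne
      exact SpL_le (ω i) (e i) (hiv i) (hjj i) (hj0 i) (hω i)
        fun u w => J_all (ω i) (halt i) hJle hJ (hnd i) hJne w u
    · intro i
      exact SpL_nab (ω i) (hnd i) (halt i) (hδ i)
  -- the basis of the sum
  let E : Basis (Σ i, R i) k (∀ i, V i) := Pi.basis e
  let inv : (Σ i, R i) → (Σ i, R i) := fun x => ⟨x.1, iv x.1 x.2⟩
  let J : (Σ i, R i) → k := fun x => jj x.1 x.2
  have hE : ∀ i a, E ⟨i, a⟩ = Pi.single i (e i a) := fun i a => Pi.basis_apply e ⟨i, a⟩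
  have hinv : ∀ x, inv (inv x) = x := by
    rintro ⟨i, a⟩
    simp [inv, hiv]
  have hinvne : ∀ x, inv x ≠ x := by
    rintro ⟨i, a⟩ h
    exact hivne i a (eq_of_heq (Sigma.mk.inj h).2)
  have hJ : ∀ x, J (inv x) = -J x := fun x => hjj x.1 x.2
  have hJ0 : ∀ x, J x ≠ 0 := fun x => hj0 x.1 x.2
  have hform : ∀ x y, sumForm ω (E x) (E y) = JJ inv J x y := by
    rintro ⟨i, a⟩ ⟨j, b⟩
    rw [hE, hE, sumForm_apply, Finset.sum_eq_single i]
    · rw [Pi.single_eq_same]
      by_cases hij : j = i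
      · subst hij
        rw [Pi.single_eq_same, hω]
        unfold JJ
        by_cases hb : b = iv j a
        · rw [if_pos hb, if_pos (by simp [inv, hb])]
        · rw [if_neg hb, if_neg]
          intro h
          exact hb (eq_of_heq (Sigma.mk.inj h).2)
      · rw [Pi.single_eq_of_ne (Ne.symm hij), map_zero]
        unfold JJ
        rw [if_neg]
        intro h
        exact hij (Sigma.mk.inj h).1
    · intro l _ hl
      rw [Pi.single_eq_of_ne hl, map_zero, LinearMap.zero_apply]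
    · intro h
      exact absurd (Finset.mem_univ _) h
  have hDDi : ∀ i a, DD (e i) (iv i) a ∈ SpL (ω i) := by
    intro i a
    have h1 := SS_inv (e i) (ω i) (hiv i) (hivne i) (hjj i) (hω i) a
    have h2 := SS_mem_SpL (ω i) (halt i) (e i a) (e i (iv i a))
    rw [h1] at h2
    have h3 := Submodule.smul_mem _ (-jj i a)⁻¹ h2
    rwa [smul_smul, inv_mul_cancel₀ (neg_ne_zero.2 (hj0 i a)), one_smul] at h3
  have hDD : ∀ y, DD E inv y ∈ lieT (sumRep ρ) χ := by
    rintro ⟨i, a⟩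
    have h1 := hmem i _ (hDDi i a)
    have h2 : DD E inv ⟨i, a⟩ = piE (Pi.single i (DD (e i) (iv i) a)) := by
      refine E.ext ?_
      rintro ⟨j, b⟩
      rw [DD_basis, hE, piE_single]
      by_cases hij : j = i
      · subst hij
        rw [Pi.single_eq_same, DD_basis, ← Pi.single_smul]
        congr 2
        unfold dd
        have e1 : ((⟨j, b⟩ : Σ i, R i) = ⟨j, a⟩) ↔ b = a := by
          constructor
          · intro h
            exact eq_of_heq (Sigma.mk.inj h).2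
          · rintro rfl
            rfl
        have e2 : ((⟨j, b⟩ : Σ i, R i) = inv ⟨j, a⟩) ↔ b = iv j a := by
          constructor
          · intro h
            exact eq_of_heq (Sigma.mk.inj h).2
          · rintro rfl
            rfl
        simp only [e1, e2]
      · rw [Pi.single_eq_of_ne hij, LinearMap.zero_apply, Pi.single_zero, dd_other, zero_smul]
        · intro h
          exact hij (Sigma.mk.inj h).1
        · intro h
          exact hij (Sigma.mk.inj h).1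
    rw [h2]
    exact h1
  intro s₀ t₀ c₀ d₀ hst φ hφ
  have hmain := homs_of (sumRep ρ) χ (sumForm ω) (sumForm_alt _ halt)
    (sumForm_nondeg _ hnd) (sumForm_sim ρ χ ω hωρ)
    (Set.range (partForm ω)) (fun m φ hφ => by
      have h1 := tateG_mem E hinv hinvne hJ hJ0 (sumForm ω) hform (sumRep ρ) χ
        (sumForm_sim ρ χ ω hωρ) (hasProj_of hss)
        (fun m φ hφ I h0 y => balanced E (sumRep ρ) χ hDD m φ hφ I h0 y) φ hφ
      refine Submodule.span_induction ?_ (Submodule.zero_mem _)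
        (fun _ _ _ _ h1 h2 => Submodule.add_mem _ h1 h2) (fun c _ _ h => Submodule.smul_mem _ c h) h1
      rintro _ ⟨σ, B, hB, rfl⟩
      have h2 := mmG_mem_span σ (Set.range (partForm ω)) B fun l =>
        tate2_mem_span ρ χ ω halt hnd hωρ hcm (B l) (hB l)
      refine Submodule.span_mono ?_ h2
      rintro _ ⟨B', hB', rfl⟩
      exact ⟨σ, B', hB', rfl⟩) s₀ t₀ c₀ d₀ hst φ hφ
  refine Submodule.span_mono ?_ hmain
  rintro f' ⟨m, e, B, hB, hf'⟩
  choose u hu using hB
  refine ⟨m, e, u, fun x y => ?_⟩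
  rw [hf']
  refine Finset.prod_congr rfl fun l _ => ?_
  rw [← hu l]

end

end Pool.Agent.H20.TB
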