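import Mathlib
import Pool.Agent.H20.TB.Base
import Pool.Agent.H20.TB.Defs2

/-!
# Unipotent elements and the whole symplectic Lie algebra, over arbitrary fields
-/

set_option autoImplicit false
set_option linter.unusedSectionVars false

namespace Pool.Agent.H20.TB

open Module Pool.Agent.TH125.Gal Pool.Agent.TH118.IS Pool.Agent.Y126.JB
  Pool.Agent.Y126.MU Pool.Agent.TH118.SG Pool.Agent.H204R3.SP Pool.Agent.X292.JB
open scoped TensorProduct

noncomputable section

section prin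

variable {K T : Type} [Field K] [CharZero K] [AddCommGroup T] [Module K T]

/-- The nilpotent elements of a principal triple have one Jordan block. -/
theorem prin_pow_ne {e h f : End K T} {D : ℕ} {w : ℕ → T} (hp : Prin e h f D w) (hD : 0 < D)
    {X : End K T} (hX : X ∈ Submodule.span K ({e, h, f} : Set (End K T))) (hX0 : X ≠ 0)
    (hnil : IsNilpotent X) : X ^ D ≠ 0 := by
  intro hXD
  obtain ⟨α, β, γ, rfl⟩ := Submodule.mem_span_triple.1 hX
  obtain ⟨X, hXdef⟩ : ∃ X : End K T, X = α • e + β • h + γ • f := ⟨_, rfl⟩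
  rw [← hXdef] at hX0 hnil hXD
  have hXa : ∀ x, X x = α • e x + β • h x + γ • f x := fun x => by rw [hXdef]; rfl
  let F : ℕ → Submodule K T := fun j => Submodule.span K {x | ∃ i < j, x = w i}
  have hF : ∀ {i j : ℕ}, i < j → w i ∈ F j := fun {i j} hij => Submodule.subset_span ⟨i, hij, rfl⟩
  have hFle : ∀ {i j : ℕ}, i ≤ j → F i ≤ F j := fun {i j} hij =>
    Submodule.span_mono fun x ⟨l, hl, hx⟩ => ⟨l, by omega, hx⟩
  have hf : ∀ i, f (w i) ∈ F (i + 1) := by
    intro i
    cases i with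
    | zero => rw [hp.f_zero]; exact Submodule.zero_mem _
    | succ i => rw [hp.f_w]; exact Submodule.smul_mem _ _ (hF (by omega))
  have hXw : ∀ i, X (w i) - α • w (i + 1) ∈ F (i + 1) := by
    intro i
    have h1 : X (w i) - α • w (i + 1) = β • h (w i) + γ • f (w i) := by
      rw [hXa, hp.e_w]
      abel
    rw [h1, hp.h_w]
    exact Submodule.add_mem _ (Submodule.smul_mem _ _ (Submodule.smul_mem _ _ (hF (by omega))))
      (Submodule.smul_mem _ _ (hf i))
  have hXF : ∀ j, ∀ x ∈ F j, X x ∈ F (j + 1) := by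
    intro j x hx
    refine Submodule.span_induction (p := fun x _ => X x ∈ F (j + 1)) ?_ ?_ ?_ ?_ hx
    · rintro _ ⟨i, hi, rfl⟩
      have h1 : X (w i) = (X (w i) - α • w (i + 1)) + α • w (i + 1) := by abel
      rw [h1]
      exact Submodule.add_mem _ (hFle (by omega) (hXw i)) (Submodule.smul_mem _ _ (hF (by omega)))
    · rw [map_zero]; exact Submodule.zero_mem _
    · intro x y _ _ hx hy
      rw [map_add]; exact Submodule.add_mem _ hx hy
    · intro c x _ hx
      rw [map_smul]; exact Submodule.smul_mem _ _ hx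
  have hpow : ∀ j, (X ^ j) (w 0) - α ^ j • w j ∈ F j := by
    intro j
    induction j with
    | zero =>
      rw [pow_zero, pow_zero, one_smul, Module.End.one_apply, sub_self]
      exact Submodule.zero_mem _
    | succ j ih =>
      have h1 : (X ^ (j + 1)) (w 0) - α ^ (j + 1) • w (j + 1) =
          X ((X ^ j) (w 0) - α ^ j • w j) + α ^ j • (X (w j) - α • w (j + 1)) := by
        rw [pow_succ', Module.End.mul_apply, map_sub, map_smul, pow_succ, mul_smul, smul_sub]
        abel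
      rw [h1]
      exact Submodule.add_mem _ (hXF j _ ih) (Submodule.smul_mem _ _ (hXw j))
  have hker : ∀ x ∈ F D, (f ^ D) x = 0 := by
    intro x hx
    refine Submodule.span_induction (p := fun x _ => (f ^ D) x = 0) ?_ ?_ ?_ ?_ hx
    · rintro _ ⟨i, hi, rfl⟩
      exact hp.f_pow_zero hi hi.le
    · rw [map_zero]
    · intro x y _ _ hx hy
      rw [map_add, hx, hy, add_zero]
    · intro c x _ hx
      rw [map_smul, hx, smul_zero]
  obtain ⟨c, hc, hfD⟩ := hp.f_pow (le_refl D) (le_refl D)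
  rw [Nat.sub_self] at hfD
  have hw0 := hp.ne_zero (Nat.zero_le D)
  have hα : α = 0 := by
    have h1 := hker _ (hpow D)
    rw [hXD, LinearMap.zero_apply, zero_sub, map_neg, map_smul, hfD, neg_eq_zero, smul_smul] at h1
    have h2 := (smul_eq_zero.1 h1).resolve_right hw0
    exact eq_zero_of_pow_eq_zero ((mul_eq_zero.1 h2).resolve_right hc)
  have hβ : β = 0 := by
    have h1 : ∀ m : ℕ, (X ^ m) (w 0) = (-(D : K) * β) ^ m • w 0 := by
      intro m
      induction m with
      | zero => rw [pow_zero, pow_zero, one_smul]; rfl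
      | succ m ih =>
        rw [pow_succ', Module.End.mul_apply, ih, map_smul, hXa, hα, zero_smul, zero_add, hp.h_w,
          hp.f_zero, smul_zero, add_zero, smul_smul, smul_smul, pow_succ]
        congr 1
        push_cast
        ring
    obtain ⟨m, hm⟩ := hnil
    have h2 := h1 m
    rw [hm, LinearMap.zero_apply] at h2
    have h3 := (smul_eq_zero.1 h2.symm).resolve_right hw0
    have h4 := eq_zero_of_pow_eq_zero h3
    have h5 : (D : K) ≠ 0 := Nat.cast_ne_zero.2 hD.ne'
    rcases mul_eq_zero.1 h4 with h6 | h6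
    · exact absurd (neg_eq_zero.1 h6) h5
    · exact h6
  have hXγ : X = γ • f := by rw [hXdef, hα, hβ, zero_smul, zero_smul, zero_add, zero_add]
  have hγ : γ ≠ 0 := by
    rintro rfl
    exact hX0 (by rw [hXγ, zero_smul])
  have h1 : (X ^ D) (w D) = γ ^ D • (c • w 0) := by
    rw [hXγ, smul_pow, LinearMap.smul_apply, hfD]
  rw [hXD, LinearMap.zero_apply] at h1
  rcases smul_eq_zero.1 h1.symm with h2 | h2
  · exact hγ (eq_zero_of_pow_eq_zero h2)
  · exact hw0 ((smul_eq_zero.1 h2).resolve_left hc)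

end prin

section closed

variable {K : Type} [Field K] [CharZero K] [IsAlgClosed K] {T : Type} [AddCommGroup T]
  [Module K T] [FiniteDimensional K T] {G : Type} [Group G]
  {B : T →ₗ[K] T →ₗ[K] K} {ρ : G →* (T →ₗ[K] T)} {χ : G →* K} {L : Submodule K (End K T)}

/-- One Jordan block, and another nilpotent element with more than one. -/
theorem single_other (halt : ∀ v, B v v = 0) (hnd : ∀ u, (∀ v, B u v = 0) → u = 0)
    (hSI : Pool.Agent.TH125.Gal.SI ρ)
    (hconj : ∀ g : G, ∀ Y ∈ L, ρ g * Y * ρ g⁻¹ ∈ L)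
    (hbr : ∀ Y ∈ L, ∀ Z ∈ L, Y * Z - Z * Y ∈ L)
    (hsp : ∀ Y ∈ L, ∀ u w, B (Y u) w + B u (Y w) = 0)
    {e : End K T} (heL : e ∈ L) {D : ℕ} (hD0 : 0 < D) (hdim : finrank K T = D + 1)
    (heD1 : e ^ (D + 1) = 0) (heD : e ^ D ≠ 0)
    {X : End K T} (hXL : X ∈ L) (hX0 : X ≠ 0) (hXn : IsNilpotent X) (hXD : X ^ D = 0) (x y : T) :
    Pool.Agent.H204R3.SP.SS B x y ∈ L := by
  classical
  have hT : ∃ z : T, z ≠ 0 := by
    by_contra hcon
    push Not at hcon
    apply heD
    exact LinearMap.ext fun z => hcon _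
  have hX := SI_conv hT hSI
  obtain ⟨f₁, hf₁, hf2⟩ := jm hbr (fun y hy h => trace_nondeg hconj hbr hX hnd hsp hy h) heL
    ⟨D + 1, heD1⟩
  obtain ⟨h, hh₁⟩ : ∃ h, h = ad K e f₁ := ⟨_, rfl⟩
  have hhe : ad K h e = (2 : K) • e := by
    have h1 : ad K h e = -ad K e h := by rw [ad_apply, ad_apply]; abel
    rw [h1, hh₁, hf2, neg_smul, neg_neg]
  obtain ⟨f, hf, hh, hhf⟩ := exists_f hh₁ hhe hbr heL hf₁ ⟨D + 1, heD1⟩
  have hhL : h ∈ L := by rw [hh]; exact hbr e heL f hf
  obtain ⟨w, hp⟩ := exists_prin_of hh hhe hhf hdim heD heD1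
  have htop : e ^ D ∈ L := by
    by_cases hle : L ≤ Submodule.span K {e, h, f}
    · exact absurd hXD (prin_pow_ne hp hD0 (hle hXL) hX0 hXn)
    · obtain ⟨k, hk2, hkD, hkL⟩ := hp.exists_pow (hsp e heL) (hsp h hhL) hnd hbr hsp hD0 heL hhL
          hle
      exact hp.top_of_pow (hsp e heL) (hsp h hhL) hnd halt hbr hsp hf hk2 hkD hkL
  exact hp.full_of_top (hsp e heL) (hsp h hhL) (hsp f hf) hnd halt hbr hf htop hsp x y

/-- The Jordan type. -/
theorem typ2_of {e : End K T} (hnil : IsNilpotent e) {D : ℕ} (hD : Odd D) (h1 : jb e ⊤ D = 1)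
    (h2 : ∀ j, 2 ≤ j → Even j → jb e ⊤ j = 0) (h3 : jb e ⊤ 0 ≠ 0) : Typ2 e D := by
  have hK : ∀ j, finrank K (Kj e j) = kk e ⊤ j := by
    intro j
    have h : Kj e j = (⊤ : Submodule K T).map (e ^ j) ⊓ LinearMap.ker e := by
      ext x
      rw [mem_Kj, Submodule.mem_inf, Submodule.mem_map, LinearMap.mem_ker]
      constructor
      · rintro ⟨h1, u, hu⟩
        exact ⟨⟨u, trivial, hu⟩, h1⟩
      · rintro ⟨⟨u, -, hu⟩, h1⟩
        exact ⟨h1, u, hu⟩
    rw [h]
    rfl
  have hst : St e (⊤ : Submodule K T) := fun _ _ => trivial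
  refine ⟨hD, hnil, ?_, ?_, ?_⟩
  · rw [hK, hK, jb_eq hst, h1]
  · intro j hj2 hj
    refine (Submodule.eq_of_le_of_finrank_eq (Kj_le (by omega)) ?_).symm
    rw [hK, hK, jb_eq hst j, h2 j hj2 hj, add_zero]
  · intro h
    have h4 := jb_eq hst (N := e) 0
    rw [← hK, ← hK, h] at h4
    have h5 : kk e ⊤ (0 + 1) = finrank K (Kj e 1) := (hK 1).symm
    apply h3
    rw [zero_add] at h4
    omega

end closed

section span

variable {K : Type} [Field K] {T : Type} [AddCommGroup T] [Module K T]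

theorem span_br {S : Set (End K T)}
    (h : ∀ Y ∈ S, ∀ Z ∈ S, Y * Z - Z * Y ∈ Submodule.span K S) :
    ∀ Y ∈ Submodule.span K S, ∀ Z ∈ Submodule.span K S, Y * Z - Z * Y ∈ Submodule.span K S := by
  intro Y hY Z hZ
  refine Submodule.span_induction₂ (p := fun Y Z _ _ => Y * Z - Z * Y ∈ Submodule.span K S)
    ?_ ?_ ?_ ?_ ?_ ?_ ?_ hY hZ
  · intro Y Z hY hZ
    exact h Y hY Z hZ
  · intro Z _
    rw [zero_mul, mul_zero, sub_self]; exact Submodule.zero_mem _
  · intro Y _
    rw [zero_mul, mul_zero, sub_self]; exact Submodule.zero_mem _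
  · intro Y Y' Z _ _ _ h1 h2
    have h3 : (Y + Y') * Z - Z * (Y + Y') = (Y * Z - Z * Y) + (Y' * Z - Z * Y') := by
      rw [add_mul, mul_add]; abel
    rw [h3]; exact Submodule.add_mem _ h1 h2
  · intro Y Z Z' _ _ _ h1 h2
    have h3 : Y * (Z + Z') - (Z + Z') * Y = (Y * Z - Z * Y) + (Y * Z' - Z' * Y) := by
      rw [add_mul, mul_add]; abel
    rw [h3]; exact Submodule.add_mem _ h1 h2
  · intro c Y Z _ _ h1
    rw [smul_mul_assoc, mul_smul_comm, ← smul_sub]; exact Submodule.smul_mem _ _ h1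
  · intro c Y Z _ _ h1
    rw [smul_mul_assoc, mul_smul_comm, ← smul_sub]; exact Submodule.smul_mem _ _ h1

theorem span_conj {S : Set (End K T)} {P Q : End K T}
    (h : ∀ Y ∈ S, P * Y * Q ∈ Submodule.span K S) :
    ∀ Y ∈ Submodule.span K S, P * Y * Q ∈ Submodule.span K S := by
  intro Y hY
  refine Submodule.span_induction (p := fun Y _ => P * Y * Q ∈ Submodule.span K S)
    ?_ ?_ ?_ ?_ hY
  · intro Y hY
    exact h Y hY
  · rw [mul_zero, zero_mul]; exact Submodule.zero_mem _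
  · intro Y Z _ _ h1 h2
    rw [mul_add, add_mul]; exact Submodule.add_mem _ h1 h2
  · intro c Y _ h1
    rw [mul_smul_comm, smul_mul_assoc]; exact Submodule.smul_mem _ _ h1

theorem span_sp {S : Set (End K T)} {B : T →ₗ[K] T →ₗ[K] K}
    (h : ∀ Y ∈ S, ∀ u w, B (Y u) w + B u (Y w) = 0) :
    ∀ Y ∈ Submodule.span K S, ∀ u w, B (Y u) w + B u (Y w) = 0 := by
  intro Y hY
  refine Submodule.span_induction
    (p := fun Y _ => ∀ u w, B (Y u) w + B u (Y w) = 0) ?_ ?_ ?_ ?_ hY
  · intro Y hY u w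
    exact h Y hY u w
  · intro u w
    simp only [LinearMap.zero_apply, map_zero, add_zero]
  · intro Y Z _ _ h1 h2 u w
    rw [LinearMap.add_apply, LinearMap.add_apply, map_add, map_add, LinearMap.add_apply]
    linear_combination h1 u w + h2 u w
  · intro c Y _ h1 u w
    rw [LinearMap.smul_apply, LinearMap.smul_apply, map_smul, map_smul, LinearMap.smul_apply,
      ← smul_add, h1, smul_zero]

end span

section base

variable {k V : Type} [Field k] [CharZero k] [AddCommGroup V] [Module k V] [FiniteDimensional k V]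
  {Γ : Type} [Group Γ] (ρ : Representation k Γ V) (χ : Γ →* k) (ω : V →ₗ[k] V →ₗ[k] k)

/-- the base change of the form -/
abbrev formK : (AlgebraicClosure k ⊗[k] V) →ₗ[AlgebraicClosure k] (AlgebraicClosure k ⊗[k] V)
    →ₗ[AlgebraicClosure k] AlgebraicClosure k :=
  LinearMap.BilinForm.baseChange (AlgebraicClosure k) ω

theorem formK_tmul (a a' : AlgebraicClosure k) (x y : V) :
    formK ω (a ⊗ₜ x) (a' ⊗ₜ y) = (ω x y) • (a * a') := by
  rw [formK, LinearMap.BilinForm.baseChange_tmul]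

variable {ω ρ χ}

theorem formK_anti (hanti : ∀ u w, ω u w = -ω w u) (u w : (AlgebraicClosure k) ⊗[k] V) :
    formK ω u w = -formK ω w u := by
  induction u with
  | zero => rw [map_zero, LinearMap.zero_apply, map_zero, neg_zero]
  | add u u' hu hu' => rw [map_add, LinearMap.add_apply, hu, hu', map_add, neg_add]
  | tmul a x =>
    induction w with
    | zero => rw [map_zero, map_zero, LinearMap.zero_apply, neg_zero]
    | add w w' hw hw' => rw [map_add, hw, hw', map_add, LinearMap.add_apply, neg_add]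
    | tmul a' y => rw [formK_tmul, formK_tmul, hanti x y, neg_smul, mul_comm a' a]

theorem formK_rho (hωρ : ∀ s u v, ω (ρ s u) (ρ s v) = χ s * ω u v) (g : Γ) (u w : (AlgebraicClosure k) ⊗[k] V) :
    formK ω (rhoK (AlgebraicClosure k) ρ g u) (rhoK (AlgebraicClosure k) ρ g w) =
      ((algebraMap k (AlgebraicClosure k) : k →* (AlgebraicClosure k)).comp χ) g * formK ω u w := by
  induction u with
  | zero => rw [map_zero, map_zero, LinearMap.zero_apply, LinearMap.zero_apply, mul_zero]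
  | add u u' hu hu' =>
    rw [map_add, map_add, LinearMap.add_apply, hu, hu', map_add, LinearMap.add_apply, mul_add]
  | tmul a x =>
    induction w with
    | zero => rw [map_zero, map_zero, map_zero, mul_zero]
    | add w w' hw hw' => rw [map_add, map_add, hw, hw', map_add, mul_add]
    | tmul a' y =>
      rw [rhoK_apply, LinearMap.baseChange_tmul, LinearMap.baseChange_tmul, formK_tmul,
        formK_tmul, hωρ, Algebra.smul_def, Algebra.smul_def, map_mul, mul_assoc]
      rfl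

theorem formK_sp {Z : End k V} (h : ∀ u w, ω (Z u) w + ω u (Z w) = 0) (u w : (AlgebraicClosure k) ⊗[k] V) :
    formK ω (Z.baseChange (AlgebraicClosure k) u) w + formK ω u (Z.baseChange (AlgebraicClosure k) w) = 0 := by
  induction u with
  | zero => simp only [map_zero, LinearMap.zero_apply, add_zero]
  | add u u' hu hu' =>
    simp only [map_add, LinearMap.add_apply]
    linear_combination hu + hu'
  | tmul a x =>
    induction w with
    | zero => simp only [map_zero, add_zero]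
    | add w w' hw hw' =>
      simp only [map_add]
      linear_combination hw + hw'
    | tmul a' y =>
      rw [LinearMap.baseChange_tmul, LinearMap.baseChange_tmul, formK_tmul, formK_tmul,
        ← add_smul, h, zero_smul]

theorem LK_sp {L : Submodule k (End k V)} (hsp : ∀ Y ∈ L, ∀ u w, ω (Y u) w + ω u (Y w) = 0) :
    ∀ Y ∈ LK (AlgebraicClosure k) L, ∀ u w, formK ω (Y u) w + formK ω u (Y w) = 0 :=
  span_sp fun _ ⟨Z, hZ, h⟩ => h ▸ formK_sp (hsp Z hZ)

theorem LK_conj {L : Submodule k (End k V)} (hconj : ∀ g : Γ, ∀ Y ∈ L, ρ g * Y * ρ g⁻¹ ∈ L) :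
    ∀ g : Γ, ∀ Y ∈ LK (AlgebraicClosure k) L, rhoK (AlgebraicClosure k) ρ g * Y * rhoK (AlgebraicClosure k) ρ g⁻¹ ∈ LK (AlgebraicClosure k) L := by
  intro g
  refine span_conj ?_
  rintro _ ⟨Z, hZ, rfl⟩
  have h1 := mem_LK (AlgebraicClosure k) (hconj g Z hZ)
  rwa [LinearMap.baseChange_mul, LinearMap.baseChange_mul] at h1

theorem LK_br {L : Submodule k (End k V)} (hbr : ∀ Y ∈ L, ∀ Z ∈ L, Y * Z - Z * Y ∈ L) :
    ∀ Y ∈ LK (AlgebraicClosure k) L, ∀ Z ∈ LK (AlgebraicClosure k) L, Y * Z - Z * Y ∈ LK (AlgebraicClosure k) L := by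
  refine span_br ?_
  rintro _ ⟨Y, hY, rfl⟩ _ ⟨Z, hZ, rfl⟩
  have h1 := mem_LK (AlgebraicClosure k) (hbr Y hY Z hZ)
  rwa [LinearMap.baseChange_sub, LinearMap.baseChange_mul, LinearMap.baseChange_mul] at h1

theorem formK_nd [Nontrivial V] (hnd : ∀ u, (∀ v, ω v u = 0) → u = 0)
    (hωρ : ∀ s u v, ω (ρ s u) (ρ s v) = χ s * ω u v)
    (hSI : Pool.Agent.TH125.Gal.SI (rhoK (AlgebraicClosure k) ρ)) :
    ∀ u : (AlgebraicClosure k) ⊗[k] V, (∀ v, formK ω u v = 0) → u = 0 := by
  let W : Submodule (AlgebraicClosure k) ((AlgebraicClosure k) ⊗[k] V) := LinearMap.ker (formK ω)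
  have hW : ∀ g ∈ (⊤ : Subgroup Γ), ∀ x ∈ W, rhoK (AlgebraicClosure k) ρ g x ∈ W := by
    intro g _ x hx
    rw [LinearMap.mem_ker] at hx ⊢
    refine LinearMap.ext fun z => ?_
    have h1 : z = rhoK (AlgebraicClosure k) ρ g (rhoK (AlgebraicClosure k) ρ g⁻¹ z) := by
      rw [← Module.End.mul_apply, ← map_mul, mul_inv_cancel, map_one]
      rfl
    rw [h1, formK_rho hωρ, hx, LinearMap.zero_apply, mul_zero, LinearMap.zero_apply]
  rcases hSI ⊤ inferInstance W hW with h | h
  · intro u hu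
    have h1 : u ∈ W := LinearMap.mem_ker.2 (LinearMap.ext hu)
    rwa [h, Submodule.mem_bot] at h1
  · exfalso
    obtain ⟨v, hv⟩ := exists_ne (0 : V)
    apply hv
    refine hnd v fun w => ?_
    have h1 : (1 : (AlgebraicClosure k)) ⊗ₜ[k] w ∈ W := by rw [h]; trivial
    have h2 := LinearMap.congr_fun (LinearMap.mem_ker.1 h1) ((1 : (AlgebraicClosure k)) ⊗ₜ[k] v)
    rw [formK_tmul, mul_one, LinearMap.zero_apply, Algebra.smul_def, mul_one] at h2
    exact (algebraMap k (AlgebraicClosure k)).injective (by rw [h2, map_zero])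

theorem SS_bc (x y : V) :
    SS (formK ω) ((1 : (AlgebraicClosure k)) ⊗ₜ[k] x) ((1 : (AlgebraicClosure k)) ⊗ₜ[k] y) = (SS ω x y).baseChange (AlgebraicClosure k) := by
  refine LinearMap.ext fun z => ?_
  induction z with
  | zero => rw [map_zero, map_zero]
  | add z z' hz hz' => rw [map_add, map_add, hz, hz']
  | tmul a v =>
    rw [SS_apply, LinearMap.baseChange_tmul, SS_apply, formK_tmul, formK_tmul, one_mul,
      TensorProduct.tmul_add, TensorProduct.tmul_smul, TensorProduct.tmul_smul,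
      TensorProduct.smul_tmul', TensorProduct.smul_tmul', TensorProduct.smul_tmul',
      TensorProduct.smul_tmul', smul_eq_mul, smul_eq_mul, mul_one, mul_one]

theorem eigen_bc (g : Γ) :
    {b : (AlgebraicClosure k) | Polynomial.aeval b (ρ g).charpoly = 0} =
      {b | ∃ t : (AlgebraicClosure k) ⊗[k] V, t ≠ 0 ∧ rhoK (AlgebraicClosure k) ρ g t = b • t} := by
  ext b
  rw [Set.mem_ofPred_eq, Set.mem_ofPred_eq]
  have h5 : (∃ t : (AlgebraicClosure k) ⊗[k] V, t ≠ 0 ∧ rhoK (AlgebraicClosure k) ρ g t = b • t) ↔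
      Module.End.HasEigenvalue (rhoK (AlgebraicClosure k) ρ g) b := by
    constructor
    · rintro ⟨t, ht, h6⟩
      exact Module.End.hasEigenvalue_of_hasEigenvector
        ⟨Module.End.mem_eigenspace_iff.2 h6, ht⟩
    · intro h6
      obtain ⟨t, ht⟩ := h6.exists_hasEigenvector
      exact ⟨t, ht.2, ht.apply_eq_smul⟩
  rw [h5, Module.End.hasEigenvalue_iff_isRoot_charpoly, rhoK_apply,
    LinearMap.charpoly_baseChange, Polynomial.IsRoot, Polynomial.eval_map_algebraMap]

theorem bc_inj {X : End k V} (hX : X.baseChange (AlgebraicClosure k) = 0) : X = 0 := by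
  have h1 : X.baseChange (AlgebraicClosure k) ∈ LK (AlgebraicClosure k) (⊥ : Submodule k (End k V)) := by
    rw [hX]; exact Submodule.zero_mem _
  exact (Submodule.mem_bot k).1 (of_mem_LK (AlgebraicClosure k) h1)

theorem bc_nil {X : End k V} : IsNilpotent X → IsNilpotent (X.baseChange (AlgebraicClosure k)) := by
  rintro ⟨m, hm⟩
  exact ⟨m, by rw [← LinearMap.baseChange_pow, hm, LinearMap.baseChange_zero]⟩

/-- **The whole symplectic Lie algebra.** -/
theorem full_of_types [Nontrivial V] (halt : ∀ v, ω v v = 0) (hnd : ∀ u, (∀ v, ω v u = 0) → u = 0)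
    (hωρ : ∀ s u v, ω (ρ s u) (ρ s v) = χ s * ω u v)
    (hpot : ∀ Δ : Subgroup Γ, Δ.FiniteIndex →
      (∀ U : Submodule k V, (∀ g ∈ Δ, ∀ u ∈ U, ρ g u ∈ U) → U = ⊥ ∨ U = ⊤) ∧
      ∀ A : End k V, (∀ g ∈ Δ, ∀ x, A (ρ g x) = ρ g (A x)) → ∃ c : k, ∀ v, A v = c • v)
    {L : Submodule k (End k V)}
    (hconj : ∀ g : Γ, ∀ Y ∈ L, ρ g * Y * ρ g⁻¹ ∈ L)
    (hbr : ∀ Y ∈ L, ∀ Z ∈ L, Y * Z - Z * Y ∈ L)
    (hsp : ∀ Y ∈ L, ∀ u w, ω (Y u) w + ω u (Y w) = 0)
    {e : End k V} (heL : e ∈ L) (hnil : IsNilpotent e)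
    (htype : (∃ m, Odd m ∧ jb e ⊤ m = 1 ∧ jb e ⊤ 0 ≠ 0 ∧ ∀ j, 2 ≤ j → Even j → jb e ⊤ j = 0) ∨
      e ^ (finrank k V - 1) ≠ 0 ∧ (finrank k V = 2 ∨ (∃ φ, NotGeometric (ρ φ)) ∨
        ∃ X ∈ L, X ≠ 0 ∧ IsNilpotent X ∧ X ^ (finrank k V - 1) = 0)) (x y : V) :
    SS ω x y ∈ L := by
  classical
  have hanti : ∀ u w, ω u w = -ω w u := fun u w => anti ω halt u w
  have haltK : ∀ v : (AlgebraicClosure k) ⊗[k] V, formK ω v v = 0 := fun v => self_eq_neg.1 (formK_anti hanti v v)
  have hSI : Pool.Agent.TH125.Gal.SI (rhoK (AlgebraicClosure k) ρ) := SI_bc (AlgebraicClosure k) ρ hpot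
  have hωρK := formK_rho (ρ := ρ) (χ := χ) hωρ
  have hndK := formK_nd (ρ := ρ) (χ := χ) hnd hωρ hSI
  have hconjK := LK_conj (ρ := ρ) hconj
  have hbrK := LK_br hbr
  have hspK := LK_sp hsp
  have heK := mem_LK (AlgebraicClosure k) heL
  apply of_mem_LK (AlgebraicClosure k)
  rw [← SS_bc]
  rcases htype with ⟨m, hm, h1, h2, h3⟩ | ⟨hone, hcase⟩
  · refine Pool.Agent.X292.SP.even_gen (χ := (algebraMap k (AlgebraicClosure k) : k →* (AlgebraicClosure k)).comp χ) haltK hndK hωρK hSI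
      hconjK hbrK hspK heK (D := m) (typ2_of (bc_nil hnil) hm ?_ ?_ ?_) _ _
    · rw [jb_bc]; exact h1
    · intro j hj hje
      rw [jb_bc]; exact h3 j hj hje
    · rw [jb_bc]; exact h2
  · obtain ⟨D, hD⟩ : ∃ D, finrank k V = D + 1 :=
      ⟨finrank k V - 1, (Nat.succ_pred_eq_of_pos finrank_pos).symm⟩
    have hdim : finrank (AlgebraicClosure k) ((AlgebraicClosure k) ⊗[k] V) = D + 1 := by rw [Module.finrank_baseChange, hD]
    have hD1 : finrank k V - 1 = D := by omega
    rw [hD1] at hone hcase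
    have heD1 : e ^ (D + 1) = 0 := by
      have h3 := e.aeval_self_charpoly
      rw [(show LinearMap.charpoly e = _ from IsNilpotent.charpoly_eq_X_pow_finrank hnil)] at h3
      rw [← hD]
      simpa using h3
    have heD : (e.baseChange (AlgebraicClosure k)) ^ D ≠ 0 := by
      rw [← LinearMap.baseChange_pow]
      exact fun h => hone (bc_inj h)
    have heD1' : (e.baseChange (AlgebraicClosure k)) ^ (D + 1) = 0 := by
      rw [← LinearMap.baseChange_pow, heD1, LinearMap.baseChange_zero]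
    have hD0 : 0 < D := by
      rw [Nat.pos_iff_ne_zero]
      rintro rfl
      have h4 := Pool.Agent.Y114.GF.even_of_alt ω halt hnd
      rw [hD] at h4
      exact absurd h4 (by decide)
    rcases hcase with h2 | ⟨φ, hφ⟩ | ⟨X, hXL, hX0, hXn, hXD⟩
    · exact Pool.Agent.X292.SP.single_gen haltK hndK hSI hconjK hbrK hspK heK hD0 hdim heD1' heD
        (Or.inl (by omega)) _ _
    · refine Pool.Agent.X292.SP.single_gen haltK hndK hSI hconjK hbrK hspK heK hD0 hdim heD1' heD
        (Or.inr ⟨φ, fun a c h => hφ a c ?_⟩) _ _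
      rw [eigen_bc, h, hD]
      ext b
      constructor
      · rintro ⟨i, hi, h6⟩
        exact ⟨i, Nat.lt_succ_of_le hi, h6⟩
      · rintro ⟨i, hi, h6⟩
        exact ⟨i, Nat.lt_succ_iff.1 hi, h6⟩
    · refine single_other haltK hndK hSI hconjK hbrK hspK heK hD0 hdim heD1' heD (mem_LK (AlgebraicClosure k) hXL)
        (fun h => hX0 (bc_inj h)) (bc_nil hXn) ?_ _ _
      rw [← LinearMap.baseChange_pow, hXD, LinearMap.baseChange_zero]

end base

end

end Pool.Agent.H20.TB
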