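import Mathlib
import Pool.Agent.H20.TB.Link
import Pool.Agent.H20.TB.Full

/-!
# Commutants and logarithms
-/

set_option autoImplicit false
set_option linter.unusedSectionVars false
set_option linter.unusedVariables false

namespace Pool.Agent.H20.TB

open Module Polynomial Pool.Agent.H204R3.GP Pool.Agent.H204R3.SP Pool.Agent.Y114.TF
  Pool.Agent.Y114.MU

noncomputable section

section one

variable {k V : Type} [Field k] [CharZero k] [AddCommGroup V] [Module k V]
  [FiniteDimensional k V]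

theorem St_top (N : End k V) : St N (⊤ : Submodule k V) := fun _ _ => trivial

/-- An endomorphism which commutes with a nilpotent endomorphism with exactly one Jordan block of a
certain length has an eigenvector. -/
theorem eigen_of_block {N A : End k V} (hA : ∀ x, A (N x) = N (A x)) {m : ℕ}
    (h : jb N ⊤ m = 1) : ∃ (c : k) (v : V), v ≠ 0 ∧ A v = c • v := by
  have hAp : ∀ (l : ℕ) x, A ((N ^ l) x) = (N ^ l) (A x) := by
    intro l
    induction l with
    | zero => intro x; rfl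
    | succ l ih =>
      intro x
      rw [pow_succ', Module.End.mul_apply, hA, ih, Module.End.mul_apply]
  obtain ⟨S, hS⟩ : ∃ S : Submodule k V, S = (⊤ : Submodule k V).map (N ^ m) ⊓ LinearMap.ker N :=
    ⟨_, rfl⟩
  obtain ⟨S', hS'⟩ : ∃ S' : Submodule k V, S' =
      (⊤ : Submodule k V).map (N ^ (m + 1)) ⊓ LinearMap.ker N := ⟨_, rfl⟩
  have hst : ∀ l, ∀ x ∈ (⊤ : Submodule k V).map (N ^ l) ⊓ LinearMap.ker N,
      A x ∈ (⊤ : Submodule k V).map (N ^ l) ⊓ LinearMap.ker N := by
    rintro l _ ⟨⟨y, -, rfl⟩, hy⟩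
    refine ⟨⟨A y, trivial, (hAp l y).symm⟩, ?_⟩
    have hy' : N ((N ^ l) y) = 0 := hy
    change N (A ((N ^ l) y)) = 0
    rw [← hA, hy', map_zero]
  have hAS : ∀ x ∈ S, A x ∈ S := by rw [hS]; exact hst m
  have hAS' : ∀ x ∈ S', A x ∈ S' := by rw [hS']; exact hst (m + 1)
  have hle : S' ≤ S := by
    rw [hS, hS']
    refine inf_le_inf_right _ ?_
    rintro _ ⟨x, hx, rfl⟩
    refine ⟨N x, trivial, ?_⟩
    rw [pow_succ, Module.End.mul_apply]
  have hdim : finrank k S = finrank k S' + 1 := by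
    have h1 := jb_eq (St_top N) m
    rw [h] at h1
    unfold kk at h1
    rw [hS, hS']
    exact h1
  obtain ⟨v₀, hv₀, hv₀'⟩ : ∃ v ∈ S, v ∉ S' := by
    by_contra hcon
    push Not at hcon
    have h1 := Submodule.finrank_mono (show S ≤ S' from hcon)
    omega
  have hsup : S' ⊔ Submodule.span k {v₀} = S := by
    have h1 : S' ⊔ Submodule.span k {v₀} ≤ S :=
      sup_le hle ((Submodule.span_singleton_le_iff_mem _ _).2 hv₀)
    refine Submodule.eq_of_le_of_finrank_le h1 ?_
    rw [hdim]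
    refine Submodule.finrank_lt_finrank_of_lt ?_
    refine lt_of_le_of_ne le_sup_left fun h2 => hv₀' ?_
    rw [h2]
    exact (le_sup_right : Submodule.span k {v₀} ≤ _) (Submodule.mem_span_singleton_self v₀)
  have hdec : ∀ x ∈ S, ∃ s ∈ S', ∃ a : k, x = s + a • v₀ := by
    intro x hx
    rw [← hsup] at hx
    obtain ⟨s, hs, t, ht, rfl⟩ := Submodule.mem_sup.1 hx
    obtain ⟨a, rfl⟩ := Submodule.mem_span_singleton.1 ht
    exact ⟨s, hs, a, rfl⟩
  obtain ⟨s₀, hs₀, c, hc⟩ := hdec _ (hAS v₀ hv₀)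
  have hmap : ∀ x ∈ S, (A - c • (1 : End k V)) x ∈ S' := by
    intro x hx
    obtain ⟨s, hs, a, rfl⟩ := hdec x hx
    have h1 : (A - c • (1 : End k V)) (s + a • v₀) = (A s - c • s) + a • s₀ := by
      rw [LinearMap.sub_apply, LinearMap.smul_apply, Module.End.one_apply, map_add, map_smul, hc]
      module
    rw [h1]
    exact Submodule.add_mem _ (Submodule.sub_mem _ (hAS' s hs) (Submodule.smul_mem _ _ hs))
      (Submodule.smul_mem _ _ hs₀)
  let f : S →ₗ[k] S' := (A - c • (1 : End k V)).restrict hmap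
  have hker : LinearMap.ker f ≠ ⊥ := LinearMap.ker_ne_bot_of_finrank_lt (by omega)
  obtain ⟨v, hv, hv0⟩ := Submodule.exists_mem_ne_zero_of_ne_bot hker
  refine ⟨c, v, fun h => hv0 (Subtype.ext h), ?_⟩
  have h1 := congrArg Subtype.val (LinearMap.mem_ker.1 hv)
  change (A - c • (1 : End k V)) v = 0 at h1
  rw [LinearMap.sub_apply, LinearMap.smul_apply, Module.End.one_apply, sub_eq_zero] at h1
  exact h1

theorem rk_mul_unit {N S : End k V} (hS : IsUnit S) (hc : Commute N S) (m : ℕ) :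
    rk (N * S) ⊤ m = rk N ⊤ m := by
  unfold rk
  rw [Submodule.map_top, Submodule.map_top, hc.mul_pow, range_mul_unit (hS.pow m)]

theorem jb_mul_unit {N S : End k V} (hS : IsUnit S) (hc : Commute N S) (m : ℕ) :
    jb (N * S) ⊤ m = jb N ⊤ m := by
  unfold jb
  rw [rk_mul_unit hS hc, rk_mul_unit hS hc, rk_mul_unit hS hc]

/-- Powers of a unipotent element. -/
theorem pow_sub_one_factor {A : End k V} (hnil : IsNilpotent (A - 1)) {e : ℕ} (he : 0 < e) :
    ∃ S : End k V, IsUnit S ∧ Commute (A - 1) S ∧ A ^ e - 1 = (A - 1) * S := by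
  have hcomm : ∀ j : ℕ, Commute (A - 1) (A ^ j) := fun j =>
    ((Commute.refl A).sub_left (Commute.one_left A)).pow_right j
  have h1 : A ^ e - 1 = (A - 1) * ∑ j ∈ Finset.range e, A ^ j := by rw [mul_geom_sum]
  have h2 : ∑ j ∈ Finset.range e, A ^ j = algebraMap k (End k V) (e : k) +
      ∑ j ∈ Finset.range e, (A ^ j - 1) := by
    rw [Finset.sum_sub_distrib, Finset.sum_const, Finset.card_range, nsmul_eq_mul, mul_one,
      map_natCast]
    abel
  have hfac : ∃ T : End k V, Commute (A - 1) T ∧ ∑ j ∈ Finset.range e, (A ^ j - 1) = (A - 1) * T := by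
    refine ⟨∑ j ∈ Finset.range e, ∑ i ∈ Finset.range j, A ^ i, ?_, ?_⟩
    · exact Commute.sum_right _ _ _ fun j _ => Commute.sum_right _ _ _ fun i _ => hcomm i
    · rw [Finset.mul_sum]
      exact Finset.sum_congr rfl fun j _ => by rw [mul_geom_sum]
  obtain ⟨T, hT, hT'⟩ := hfac
  refine ⟨_, ?_, Commute.sum_right _ _ _ fun j _ => hcomm j, h1⟩
  rw [h2, hT']
  refine (hT.isNilpotent_mul_right hnil).isUnit_add_left_of_commute ?_ ?_
  · exact (IsUnit.mk0 (e : k) (by exact_mod_cast he.ne')).map _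
  · exact (Algebra.commutes _ _).symm

theorem jb_pow_sub_one {A : End k V} (hnil : IsNilpotent (A - 1)) {e : ℕ} (he : 0 < e) (m : ℕ) :
    jb (A ^ e - 1) ⊤ m = jb (A - 1) ⊤ m := by
  obtain ⟨S, hS, hc, h⟩ := pow_sub_one_factor hnil he
  rw [h, jb_mul_unit hS hc]

/-- A nilpotent endomorphism with one Jordan block. -/
theorem jb_one_block {N : End k V} (hnil : IsNilpotent N) (h : N ^ (finrank k V - 1) ≠ 0) :
    jb N ⊤ (finrank k V - 1) = 1 := by
  have hz : N ^ finrank k V = 0 := by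
    have h3 := N.aeval_self_charpoly
    rw [(show LinearMap.charpoly N = _ from IsNilpotent.charpoly_eq_X_pow_finrank hnil)] at h3
    simpa using h3
  have hz' : ∀ m, finrank k V ≤ m → rk N ⊤ m = 0 := by
    intro m hm
    obtain ⟨d, rfl⟩ := Nat.exists_eq_add_of_le hm
    unfold rk
    rw [Submodule.map_top, pow_add, hz, zero_mul, LinearMap.range_zero, finrank_bot]
  have hn : 0 < finrank k V := by
    rw [Nat.pos_iff_ne_zero]
    intro h0
    apply h
    have : Subsingleton V := Module.finrank_zero_iff.1 h0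
    exact LinearMap.ext fun x => Subsingleton.elim _ _
  have h1 : jb N ⊤ (finrank k V - 1) = rk N ⊤ (finrank k V - 1) := by
    unfold jb
    rw [hz' (finrank k V - 1 + 2) (by omega), hz' (finrank k V - 1 + 1) (by omega)]
    omega
  have h2 : rk N ⊤ (finrank k V - 1) ≠ 0 := by
    unfold rk
    rw [Submodule.map_top, Ne, Submodule.finrank_eq_zero, LinearMap.range_eq_bot]
    exact h
  have h3 := sum_jb (St_top N) (n := finrank k V) (fun x _ => by rw [hz, LinearMap.zero_apply])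
  rw [finrank_top] at h3
  have h4 : (finrank k V - 1 + 1) * jb N ⊤ (finrank k V - 1) ≤
      ∑ m ∈ Finset.range (finrank k V), (m + 1) * jb N ⊤ m :=
    Finset.single_le_sum (f := fun m => (m + 1) * jb N ⊤ m) (fun _ _ => Nat.zero_le _)
      (Finset.mem_range.2 (by omega))
  rw [h3, Nat.sub_add_cancel hn] at h4
  have h5 : jb N ⊤ (finrank k V - 1) ≤ 1 := by
    by_contra hcon
    push Not at hcon
    nlinarith
  omega

end one

section family

variable {k : Type} [Field k] [CharZero k] {ι : Type} [Fintype ι] [DecidableEq ι]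
  {V : ι → Type} [∀ i, AddCommGroup (V i)] [∀ i, Module k (V i)] [∀ i, FiniteDimensional k (V i)]
  {Γ : Type} [Group Γ] (ρ : ∀ i, Representation k Γ (V i)) (χ : Γ →* k)
  (ω : ∀ i, V i →ₗ[k] V i →ₗ[k] k)

/-- The logarithm of a unipotent element. -/
theorem exists_log2 {τ : Γ} (hχ : χ τ = 1)
    (hnil : ∀ i, IsNilpotent (ρ i τ - 1)) : ∃ A ∈ aa ρ χ, ∀ i, IsNilpotent (A i) ∧
      ∃ S : End k (V i), IsUnit S ∧ Commute (ρ i τ - 1) S ∧ A i = (ρ i τ - 1) * S := by
  choose d hd using hnil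
  set D := ∑ i, d i with hD
  have hle : ∀ i, d i ≤ D := fun i => Finset.single_le_sum (f := d) (fun _ _ => Nat.zero_le _)
    (Finset.mem_univ i)
  have hz : ∀ i, (ρ i τ - 1) ^ (D + 2) = 0 := by
    intro i
    obtain ⟨c, hc⟩ := Nat.exists_eq_add_of_le (hle i)
    rw [hc, add_assoc, pow_add, hd, zero_mul]
  have h0 : sumRep ρ τ - 1 = piE (fun i => ρ i τ - 1) := by
    rw [sumRep_eq, ← map_one (piE (k := k) (V := V)), ← map_sub]
    rfl
  have h1 : (sumRep ρ τ - 1) ^ (D + 2) = 0 := by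
    rw [h0, ← map_pow]
    have h2 : (fun i => ρ i τ - 1) ^ (D + 2) = (0 : ∀ i, End k (V i)) := by
      funext i
      exact hz i
    rw [h2, map_zero]
  have h3 := lg_mem (sumRep ρ) χ h1 hχ
  rw [h0, lgA_piE] at h3
  refine ⟨_, (mem_aa ρ χ _).2 h3, fun i => ⟨lgA_one_nil D ⟨D + 2, hz i⟩, ?_⟩⟩
  obtain ⟨w, hw, h4⟩ := lgA_one D (ρ i τ - 1)
  have h5 : IsNilpotent ((ρ i τ - 1) * w) := hw.isNilpotent_mul_right ⟨D + 2, hz i⟩
  have h6 : IsUnit (1 + (ρ i τ - 1) * w) := by
    rw [add_comm]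
    exact h5.isUnit_add_one
  exact ⟨_, h6, (Commute.one_right _).add_right ((Commute.refl _).mul_right hw), h4⟩

/-- The commutant of a strongly irreducible representation. -/
theorem commutant2 {i : ι} {τ : Γ} (hnil : IsNilpotent (ρ i τ - 1)) {m : ℕ}
    (hm : jb (ρ i τ - 1) ⊤ m = 1) (Δ : Subgroup Γ) (hΔ : Δ.FiniteIndex)
    (hirr : ∀ U : Submodule k (V i), (∀ g ∈ Δ, ∀ u ∈ U, ρ i g u ∈ U) → U = ⊥ ∨ U = ⊤)
    (A : End k (V i)) (hA : ∀ g ∈ Δ, ∀ x, A (ρ i g x) = ρ i g (A x)) :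
    ∃ c : k, ∀ v, A v = c • v := by
  obtain ⟨M, hM0, -, hM⟩ := Subgroup.exists_pow_mem_of_index_ne_zero hΔ.index_ne_zero τ
  have h1 : jb (ρ i τ ^ M - 1) ⊤ m = 1 := by rw [jb_pow_sub_one hnil hM0, hm]
  obtain ⟨c, v₀, hv₀, hc⟩ := eigen_of_block (A := A) (fun x => by
    rw [← map_pow, LinearMap.sub_apply, LinearMap.sub_apply, map_sub, hA _ hM]
    rfl) h1
  refine ⟨c, fun v => ?_⟩
  have hs := hirr (LinearMap.ker (A - c • (1 : End k (V i)))) (fun g hg u hu => by
    rw [LinearMap.mem_ker, LinearMap.sub_apply, LinearMap.smul_apply, Module.End.one_apply,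
      sub_eq_zero] at hu ⊢
    rw [hA g hg, hu, map_smul])
  rcases hs with h | h
  · exfalso
    apply hv₀
    rw [← Submodule.mem_bot k, ← h, LinearMap.mem_ker, LinearMap.sub_apply, LinearMap.smul_apply,
      Module.End.one_apply, sub_eq_zero]
    exact hc
  · have h5 : v ∈ LinearMap.ker (A - c • (1 : End k (V i))) := by rw [h]; trivial
    rw [LinearMap.mem_ker, LinearMap.sub_apply, LinearMap.smul_apply, Module.End.one_apply,
      sub_eq_zero] at h5
    exact h5

end family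

end

end Pool.Agent.H20.TB
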