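import Mathlib
import Pool.Agent.H20.TB.Types

/-!
# Tate classes of families of representations with big Lie algebras
-/

set_option autoImplicit false
set_option linter.unusedSectionVars false
set_option linter.unusedVariables false

namespace Pool.Agent.H20.TB

open Module Polynomial Pool.Agent.H204R3.GP Pool.Agent.H204R3.SP Pool.Agent.Y114.TF
  Pool.Agent.Y114.MU

noncomputable section

variable {k : Type} [Field k] [CharZero k] {ι : Type} [Fintype ι] [DecidableEq ι]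
  {V : ι → Type} [∀ i, AddCommGroup (V i)] [∀ i, Module k (V i)] [∀ i, FiniteDimensional k (V i)]
  {Γ : Type} [Group Γ] (ρ : ∀ i, Representation k Γ (V i)) (χ : Γ →* k)
  (ω : ∀ i, V i →ₗ[k] V i →ₗ[k] k)

/-- **Tate classes of the sum.** -/
theorem family_tate2 (halt : ∀ i v, ω i v v = 0)
    (hnd : ∀ i u, (∀ v, ω i v u = 0) → u = 0)
    (hωρ : ∀ i s u v, ω i (ρ i s u) (ρ i s v) = χ s * ω i u v)
    (hpot : ∀ i (Δ : Subgroup Γ), Δ.FiniteIndex →
      (∀ U : Submodule k (V i), (∀ g ∈ Δ, ∀ u ∈ U, ρ i g u ∈ U) → U = ⊥ ∨ U = ⊤) ∧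
      ∀ A : End k (V i), (∀ g ∈ Δ, ∀ x, A (ρ i g x) = ρ i g (A x)) → ∃ c : k, ∀ v, A v = c • v)
    (hdist : ∀ i j, i ≠ j → ∀ Δ : Subgroup Γ, Δ.FiniteIndex → ∀ B : V j →ₗ[k] V i,
      (∀ g ∈ Δ, ∀ x, B (ρ j g x) = ρ i g (B x)) → ¬ Function.Bijective B)
    (hV : ∀ i, ∃ v : V i, v ≠ 0)
    (hSS : ∀ i u w, ∃ A ∈ aa ρ χ, A i = SS (ω i) u w) :
    HomsGeneratedByPolarizations ρ χ ω := by
  classical
  have hss : FiniteIndexSemisimple (sumRep ρ) := semi_sum ρ fun i Δ hΔ => (hpot i Δ hΔ).1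
  have hcm := comm_sum ρ hpot hdist
  choose δ hδ using hV
  let L : ∀ i, Submodule k (End k (V i)) := fun i => (aa ρ χ).map (LinearMap.proj i)
  have hL : ∀ i X, X ∈ L i ↔ ∃ A ∈ aa ρ χ, A i = X := fun i X => Iff.rfl
  have hSS : ∀ i u w, SS (ω i) u w ∈ L i := fun i u w => (hL i _).2 (hSS i u w)
  -- symplectic bases
  have hdx : ∀ i, ∃ (R : Type) (_ : Fintype R) (_ : DecidableEq R) (e : Basis R k (V i))
      (inv : R → R) (jj : R → k),
      (∀ x, inv (inv x) = x) ∧ (∀ x, inv x ≠ x) ∧ (∀ x, jj (inv x) = -jj x) ∧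
      (∀ x, jj x = 1 ∨ jj x = -1) ∧ ∀ x y, ω i (e x) (e y) = JJ inv jj x y := fun i =>
    Pool.Agent.W529.Ta.exists_darboux (finrank k (V i)) (V i) (ω i) (halt i) (hnd i) le_rfl
  choose R hRf hRd e iv jj hiv hivne hjj hj1 hω using hdx
  have hj0 : ∀ i x, jj i x ≠ 0 := by
    intro i x
    rcases hj1 i x with h | h <;> rw [h]
    · exact one_ne_zero
    · exact neg_ne_zero.2 one_ne_zero
  have hSpL : ∀ i, SpL (ω i) ≤ L i := fun i =>
    SpL_le (ω i) (e i) (hiv i) (hjj i) (hj0 i) (hω i) (hSS i)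
  have hsurj : ∀ i, ∀ X ∈ SpL (ω i), ∃ A ∈ aa ρ χ, A i = X := fun i X hX => (hL i X).1 (hSpL i hX)
  -- the pairs
  have hpair : ∀ i j, i ≠ j → (∃ A ∈ aa ρ χ, A j = 0 ∧ A i ≠ 0) ∨ ∃ A ∈ aa ρ χ, A i = 0 ∧ A j ≠ 0 := by
    intro i j hij
    by_contra hcon
    rw [not_or] at hcon
    push Not at hcon
    obtain ⟨hl1, hl2⟩ := hcon
    obtain ⟨Δ, g, hΔ, hg, hgs⟩ := exists_iso_of_link ρ χ ω halt hnd hωρ (hsurj i) (hsurj j) hl2 hl1
      (hδ j)
    exact hdist i j hij Δ hΔ g hgs hg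
  have hmem : ∀ i, ∀ X ∈ SpL (ω i), piE (Pi.single i X) ∈ lieT (sumRep ρ) χ := by
    intro i X hX
    refine (mem_aa ρ χ _).1 (goursat (aa ρ χ) (aa_bracket ρ χ) (fun i => SpL (ω i))
      (aa_sp ρ χ ω hωρ) hsurj ?_ ?_ hpair i hX)
    · intro i J hJle hJ hJne
      exact SpL_le (ω i) (e i) (hiv i) (hjj i) (hj0 i) (hω i)
        fun u w => J_all (ω i) (halt i) hJle hJ (hnd i) hJne w u
    · intro i
      exact SpL_nab (ω i) (hnd i) (halt i) (hδ i)
  -- the basis of the sum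
  let E : Basis (Σ i, R i) k (∀ i, V i) := Pi.basis e
  let inv : (Σ i, R i) → (Σ i, R i) := fun x => ⟨x.1, iv x.1 x.2⟩
  let J : (Σ i, R i) → k := fun x => jj x.1 x.2
  have hE : ∀ i a, E ⟨i, a⟩ = Pi.single i (e i a) := fun i a => Pi.basis_apply e ⟨i, a⟩
  have hinv : ∀ x, inv (inv x) = x := by
    rintro ⟨i, a⟩
    simp [inv, hiv]
  have hinvne : ∀ x, inv x ≠ x := by
    rintro ⟨i, a⟩ h
    exact hivne i a (eq_of_heq (Sigma.mk.inj h).2)
  have hJ : ∀ x, J (inv x) = -J x := fun x => hjj x.1 x.2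
  have hJ0 : ∀ x, J x ≠ 0 := fun x => hj0 x.1 x.2
  have hform : ∀ x y, sumForm ω (E x) (E y) = JJ inv J x y := by
    rintro ⟨i, a⟩ ⟨j, b⟩
    rw [hE, hE, sumForm_apply, Finset.sum_eq_single i]
    · rw [Pi.single_eq_same]
      by_cases hij : j = i
      · subst hij
        rw [Pi.single_eq_same, hω]
        unfold JJ
        by_cases hb : b = iv j a
        · rw [if_pos hb, if_pos (by simp [inv, hb])]
        · rw [if_neg hb, if_neg]
          intro h
          exact hb (eq_of_heq (Sigma.mk.inj h).2)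
      · rw [Pi.single_eq_of_ne (Ne.symm hij), map_zero]
        unfold JJ
        rw [if_neg]
        intro h
        exact hij (Sigma.mk.inj h).1
    · intro l _ hl
      rw [Pi.single_eq_of_ne hl, map_zero, LinearMap.zero_apply]
    · intro h
      exact absurd (Finset.mem_univ _) h
  have hDDi : ∀ i a, DD (e i) (iv i) a ∈ SpL (ω i) := by
    intro i a
    have h1 := SS_inv (e i) (ω i) (hiv i) (hivne i) (hjj i) (hω i) a
    have h2 := SS_mem_SpL (ω i) (halt i) (e i a) (e i (iv i a))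
    rw [h1] at h2
    have h3 := Submodule.smul_mem _ (-jj i a)⁻¹ h2
    rwa [smul_smul, inv_mul_cancel₀ (neg_ne_zero.2 (hj0 i a)), one_smul] at h3
  have hDD : ∀ y, DD E inv y ∈ lieT (sumRep ρ) χ := by
    rintro ⟨i, a⟩
    have h1 := hmem i _ (hDDi i a)
    have h2 : DD E inv ⟨i, a⟩ = piE (Pi.single i (DD (e i) (iv i) a)) := by
      refine E.ext ?_
      rintro ⟨j, b⟩
      rw [DD_basis, hE, piE_single]
      by_cases hij : j = i
      · subst hij
        rw [Pi.single_eq_same, DD_basis, ← Pi.single_smul]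
        congr 2
        unfold dd
        have e1 : ((⟨j, b⟩ : Σ i, R i) = ⟨j, a⟩) ↔ b = a := by
          constructor
          · intro h
            exact eq_of_heq (Sigma.mk.inj h).2
          · rintro rfl
            rfl
        have e2 : ((⟨j, b⟩ : Σ i, R i) = inv ⟨j, a⟩) ↔ b = iv j a := by
          constructor
          · intro h
            exact eq_of_heq (Sigma.mk.inj h).2
          · rintro rfl
            rfl
        simp only [e1, e2]
      · rw [Pi.single_eq_of_ne hij, LinearMap.zero_apply, Pi.single_zero, dd_other, zero_smul]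
        · intro h
          exact hij (Sigma.mk.inj h).1
        · intro h
          exact hij (Sigma.mk.inj h).1
    rw [h2]
    exact h1
  intro s₀ t₀ c₀ d₀ hst φ hφ
  have hmain := homs_of (sumRep ρ) χ (sumForm ω) (sumForm_alt _ halt)
    (sumForm_nondeg _ hnd) (sumForm_sim ρ χ ω hωρ)
    (Set.range (partForm ω)) (fun m φ hφ => by
      have h1 := tateG_mem E hinv hinvne hJ hJ0 (sumForm ω) hform (sumRep ρ) χ
        (sumForm_sim ρ χ ω hωρ) (hasProj_of hss)
        (fun m φ hφ I h0 y => balanced E (sumRep ρ) χ hDD m φ hφ I h0 y) φ hφ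
      refine Submodule.span_induction ?_ (Submodule.zero_mem _)
        (fun _ _ _ _ h1 h2 => Submodule.add_mem _ h1 h2) (fun c _ _ h => Submodule.smul_mem _ c h) h1
      rintro _ ⟨σ, B, hB, rfl⟩
      have h2 := mmG_mem_span σ (Set.range (partForm ω)) B fun l =>
        tate2_mem_span ρ χ ω halt hnd hωρ hcm (B l) (hB l)
      refine Submodule.span_mono ?_ h2
      rintro _ ⟨B', hB', rfl⟩
      exact ⟨σ, B', hB', rfl⟩) s₀ t₀ c₀ d₀ hst φ hφ
  refine Submodule.span_mono ?_ hmain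
  rintro f' ⟨m, e, B, hB, hf'⟩
  choose u hu using hB
  refine ⟨m, e, u, fun x y => ?_⟩
  rw [hf']
  refine Finset.prod_congr rfl fun l _ => ?_
  rw [← hu l]

end

end Pool.Agent.H20.TB
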