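import Mathlib
import Pool.Agent.H20.TB.Exp
import Pool.Agent.H20.TB.Defs
import Pool.Graph.R_pool_sql_team_seeded_ab47071d.TH116.SS.Clifford

/-!
# Strong irreducibility from the lengths of the Jordan blocks
-/

set_option autoImplicit false
set_option linter.unusedSectionVars false

namespace Pool.Agent.H20.TB

open Module Polynomial

noncomputable section

section

variable {k V : Type} [Field k] [CharZero k] [AddCommGroup V] [Module k V]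
  [FiniteDimensional k V]

theorem pow_dim {N : End k V} (hN : IsNilpotent N) : N ^ finrank k V = 0 := by
  have h3 := N.aeval_self_charpoly
  rw [(show LinearMap.charpoly N = _ from IsNilpotent.charpoly_eq_X_pow_finrank hN)] at h3
  simpa using h3

theorem finrank_orth (ω : V →ₗ[k] V →ₗ[k] k) (hnd : ∀ u, (∀ v, ω v u = 0) → u = 0)
    (halt : ∀ v, ω v v = 0) (U : Submodule k V) :
    finrank k U + finrank k (orth ω U) = finrank k V := by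
  have h1 := LinearMap.BilinForm.finrank_orthogonal (B := ω) ⟨fun x hx => hnd x fun v => by
    rw [anti ω halt, hx v, neg_zero], fun x hx => hnd x hx⟩ U
  have h2 : LinearMap.BilinForm.orthogonal ω U = orth ω U := rfl
  rw [h2] at h1
  have h3 := Submodule.finrank_le U
  omega

variable {Γ : Type} [Group Γ] (ρ : Representation k Γ V) (χ : Γ →* k)
  (ω : V →ₗ[k] V →ₗ[k] k)

theorem orth_rho (hωρ : ∀ s u v, ω (ρ s u) (ρ s v) = χ s * ω u v) {Δ : Subgroup Γ}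
    {U : Submodule k V} (hU : ∀ g ∈ Δ, ∀ u ∈ U, ρ g u ∈ U) :
    ∀ g ∈ Δ, ∀ u ∈ orth ω U, ρ g u ∈ orth ω U := by
  intro g hg v hv u hu
  have h1 := hωρ g (ρ g⁻¹ u) v
  have h2 : ρ g (ρ g⁻¹ u) = u := by
    rw [← Module.End.mul_apply, ← map_mul, mul_inv_cancel, map_one]
    rfl
  rw [h2, hv _ (hU _ (Δ.inv_mem hg) u hu), mul_zero] at h1
  exact h1

/-- A stable subspace is stable under the logarithm. -/
theorem st_of_exp {Δ : Subgroup Γ} (hΔ : Δ.FiniteIndex) {τ : Γ} {N : End k V} {D : ℕ}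
    (hN : IsExp (ρ τ) N D) {U : Submodule k V} (hU : ∀ g ∈ Δ, ∀ u ∈ U, ρ g u ∈ U) : St N U := by
  obtain ⟨M, hM0, -, hM⟩ := Subgroup.exists_pow_mem_of_index_ne_zero hΔ.index_ne_zero τ
  refine hN.st hM0 (U := U) fun x hx => ?_
  rw [← map_pow]
  exact hU _ hM x hx

theorem skew_of_exp (hωρ : ∀ s u v, ω (ρ s u) (ρ s v) = χ s * ω u v) {τ : Γ} {N : End k V} {D : ℕ}
    (hN : IsExp (ρ τ) N D) (hχ : χ τ = 1) (x y : V) : ω (N x) y + ω x (N y) = 0 :=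
  hN.skew ω (fun x y => by rw [hωρ, hχ, one_mul]) x y

end

section

variable {ℓ : ℕ} [Fact ℓ.Prime] {V : Type} [AddCommGroup V] [Module ℚ_[ℓ] V]
  [FiniteDimensional ℚ_[ℓ] V] {Γ : Type} [Group Γ] (ρ : Representation ℚ_[ℓ] Γ V)
  (χ : Γ →* ℚ_[ℓ]) (ω : V →ₗ[ℚ_[ℓ]] V →ₗ[ℚ_[ℓ]] ℚ_[ℓ])

/-- The dimension of a stable subspace is the degree of a divisor of the characteristic polynomial. -/
theorem degree_contra {Δ : Subgroup Γ} (hΔ : Δ.FiniteIndex) {U : Submodule ℚ_[ℓ] V}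
    (hU : ∀ g ∈ Δ, ∀ u ∈ U, ρ g u ∈ U) (h : DegreeExcludes ρ (finrank ℚ_[ℓ] U)) : False := by
  obtain ⟨γ, hγ⟩ := h
  obtain ⟨M, hM0, -, hM⟩ := Subgroup.exists_pow_mem_of_index_ne_zero hΔ.index_ne_zero γ
  have hst : U ≤ U.comap (ρ (γ ^ M)) := fun u hu => hU _ hM u hu
  refine hγ M hM0 (((ρ (γ ^ M)).restrict hst).charpoly) ?_ (LinearMap.charpoly_natDegree _)
  exact Dvd.intro _ (Pool.Agent.W522.C.charpoly_eq_mul (ρ (γ ^ M)) U hst).symm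

/-- **Strong irreducibility.** -/
theorem strong (halt : ∀ v, ω v v = 0) (hnd : ∀ u, (∀ v, ω v u = 0) → u = 0)
    (hωρ : ∀ s u v, ω (ρ s u) (ρ s v) = χ s * ω u v)
    (hiso : ∀ U : Submodule ℚ_[ℓ] V, (∀ g, ∀ u ∈ U, ρ g u ∈ U) → (∀ x ∈ U, ∀ y ∈ U, ω x y = 0) →
      U = ⊥)
    (h1 : ∀ d, 0 < d → 2 * d ≤ finrank ℚ_[ℓ] V → DegreeExcludes ρ d ∨
      ∃ (τ : Γ) (N : End ℚ_[ℓ] V) (D : ℕ),
      IsExp (ρ τ) N D ∧ χ τ = 1 ∧ ExcludesIsotropic (finrank ℚ_[ℓ] V) (jb N ⊤) d)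
    (h2 : ∀ d, 0 < d → 2 * d ≤ finrank ℚ_[ℓ] V → Even d → DegreeExcludes ρ d ∨
      ∃ (τ : Γ) (N : End ℚ_[ℓ] V) (D : ℕ),
      IsExp (ρ τ) N D ∧ χ τ = 1 ∧ ExcludesNondegenerate (finrank ℚ_[ℓ] V) (jb N ⊤) d)
    (Δ : Subgroup Γ) (hΔ : Δ.FiniteIndex) (U : Submodule ℚ_[ℓ] V)
    (hU : ∀ g ∈ Δ, ∀ u ∈ U, ρ g u ∈ U) : U = ⊥ ∨ U = ⊤ := by
  classical
  -- semisimplicity
  have hss : ∀ U : Submodule ℚ_[ℓ] V, (∀ s, ∀ u ∈ U, ρ s u ∈ U) →
      ∃ U' : Submodule ℚ_[ℓ] V, (∀ s, ∀ u ∈ U', ρ s u ∈ U') ∧ IsCompl U U' := by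
    intro U hU
    have hU' : ∀ s, ∀ u ∈ orth ω U, ρ s u ∈ orth ω U := fun s =>
      orth_rho ρ χ ω hωρ (Δ := ⊤) (fun g _ => hU g) s trivial
    refine ⟨orth ω U, hU', isCompl_orth ω halt fun x hx hxy => ?_⟩
    have h3 := hiso (U ⊓ orth ω U) (fun g u hu => ⟨hU g u hu.1, hU' g u hu.2⟩)
      (fun x hx y hy => hy.2 x hx.1)
    have h4 : x ∈ U ⊓ orth ω U := ⟨hx, hxy⟩
    rwa [h3, Submodule.mem_bot] at h4
  have hssΔ := Pool.Agent.TH116.SS.compl_finiteIndex ρ hss Δ hΔ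
  have hNn : ∀ {u N : End ℚ_[ℓ] V} {D : ℕ}, IsExp u N D → ∀ U : Submodule ℚ_[ℓ] V, ∀ x ∈ U,
      (N ^ finrank ℚ_[ℓ] V) x = 0 := by
    intro u N D hN U x _
    rw [pow_dim ⟨D, hN.1⟩, LinearMap.zero_apply]
  -- there are no isotropic stable subspaces
  have hisoΔ : ∀ R : Submodule ℚ_[ℓ] V, (∀ g ∈ Δ, ∀ u ∈ R, ρ g u ∈ R) →
      (∀ x ∈ R, ∀ y ∈ R, ω x y = 0) → R = ⊥ := by
    intro R hR hRi
    by_contra hne
    have hpos : 0 < finrank ℚ_[ℓ] R := by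
      rw [Nat.pos_iff_ne_zero, Ne, Submodule.finrank_eq_zero]
      exact hne
    have hle : R ≤ orth ω R := fun x hx u hu => hRi u hu x hx
    have h3 := finrank_orth ω hnd halt R
    have h4 := Submodule.finrank_mono hle
    rcases h1 (finrank ℚ_[ℓ] R) hpos (by omega) with h | ⟨τ, N, D, hN, hχ, hno⟩
    · exact degree_contra ρ hΔ hR h
    obtain ⟨Y, hY, hc⟩ := hssΔ (orth ω R) (orth_rho ρ χ ω hωρ hR)
    refine hno ⟨jb N R, fun m => ?_, sum_jb (st_of_exp ρ hΔ hN hR) (hNn hN R)⟩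
    exact jb_isotropic ω halt (skew_of_exp ρ χ ω hωρ hN hχ) hnd (st_of_exp ρ hΔ hN hR) hRi
      (st_of_exp ρ hΔ hN hY) hc m
  -- stable subspaces are nondegenerate
  have hndΔ : ∀ R : Submodule ℚ_[ℓ] V, (∀ g ∈ Δ, ∀ u ∈ R, ρ g u ∈ R) →
      ∀ x ∈ R, (∀ y ∈ R, ω y x = 0) → x = 0 := by
    intro R hR x hx hxy
    have h3 := hisoΔ (R ⊓ orth ω R) (fun g hg u hu => ⟨hR g hg u hu.1,
      orth_rho ρ χ ω hωρ hR g hg u hu.2⟩) (fun x hx y hy => hy.2 x hx.1)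
    have h4 : x ∈ R ⊓ orth ω R := ⟨hx, hxy⟩
    rwa [h3, Submodule.mem_bot] at h4
  -- there are no small stable subspaces
  have hsmall : ∀ R : Submodule ℚ_[ℓ] V, (∀ g ∈ Δ, ∀ u ∈ R, ρ g u ∈ R) →
      2 * finrank ℚ_[ℓ] R ≤ finrank ℚ_[ℓ] V → R = ⊥ := by
    intro R hR hle
    by_contra hne
    have hpos : 0 < finrank ℚ_[ℓ] R := by
      rw [Nat.pos_iff_ne_zero, Ne, Submodule.finrank_eq_zero]
      exact hne
    have hnd' := hndΔ R hR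
    have hev : Even (finrank ℚ_[ℓ] R) := by
      refine Pool.Agent.Y114.GF.even_of_alt (ω.domRestrict₁₂ R R) (fun v => halt v) ?_
      intro u hu
      exact Subtype.ext (hnd' u u.2 fun v hv => hu ⟨v, hv⟩)
    rcases h2 (finrank ℚ_[ℓ] R) hpos hle hev with h | ⟨τ, N, D, hN, hχ, hno⟩
    · exact degree_contra ρ hΔ hR h
    have hsk := skew_of_exp ρ χ ω hωρ hN hχ
    have hst := st_of_exp ρ hΔ hN hR
    exact hno ⟨jb N R, fun m => ⟨jb_le_of_nondeg ω halt hsk hst hnd' m,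
      fun hm => even_jb ω halt hsk hst hnd' hm⟩, sum_jb hst (hNn hN R)⟩
  by_cases hle : 2 * finrank ℚ_[ℓ] U ≤ finrank ℚ_[ℓ] V
  · exact Or.inl (hsmall U hU hle)
  · right
    have h3 := finrank_orth ω hnd halt U
    have h4 := hsmall (orth ω U) (orth_rho ρ χ ω hωρ hU) (by omega)
    rw [h4, finrank_bot, add_zero] at h3
    exact Submodule.eq_top_of_finrank_eq h3

end

end

end Pool.Agent.H20.TB
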