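import Mathlib
import Pool.Agent.H20.TB.Blocks
import Pool.Graph.R_pool_sql_team_seeded_ab47071d.TH118.WM.Core
import Pool.Graph.R_seed8.Y115.Main

/-!
# Weight decompositions

Adapted from the library modules `TH118.WM.Grade`, `Op`, `Core` and `Prim` (weight `w + j` instead of
`j`; the balance of the weights of a subspace is an assumption here).
-/

set_option autoImplicit false
set_option linter.unusedSectionVars false

namespace Pool.Agent.H20.TB

open Module Polynomial
open Pool.Agent.TH118.WM (dt dt_eq dt_bot dt_sup dt_map dt_biSup finrank_map_inj comb sum_Icc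
  prod_Icc root_of_kill det_eq_prod_roots aeval_restrict)

noncomputable section

variable {k V : Type} [Field k] [CharZero k] [AddCommGroup V] [Module k V]
  [FiniteDimensional k V]

/-- The weight decomposition for the operator `f`: on `W j` it is killed by a rational polynomial
whose complex roots have absolute value `q ^ ((w + j) / 2)`. -/
structure Wt (f : End k V) (q : ℕ) (w : ℤ) (W : ℤ → Submodule k V) (C : ℤ → ℚ[X]) : Prop where
  hq : 1 < q
  internal : DirectSum.IsInternal W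
  stable : ∀ j, ∀ x ∈ W j, f x ∈ W j
  ne : ∀ j, C j ≠ 0
  kill : ∀ j, ∀ x ∈ W j, aeval f ((C j).map (algebraMap ℚ k)) x = 0
  pure : ∀ j, ∀ z : ℂ, aeval z (C j) = 0 → ‖z‖ ^ 2 = (q : ℝ) ^ (w + j)

theorem st_aeval {f : End k V} {U : Submodule k V} (h : St f U) (p : k[X]) :
    ∀ x ∈ U, aeval f p x ∈ U := by
  intro x hx
  induction p using Polynomial.induction_on' with
  | add p r hp hr =>
    rw [map_add, LinearMap.add_apply]
    exact U.add_mem hp hr
  | monomial n a =>
    rw [aeval_monomial, Module.End.mul_apply, Module.algebraMap_end_apply]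
    refine U.smul_mem _ ?_
    induction n with
    | zero => exact hx
    | succ n ih =>
      rw [pow_succ', Module.End.mul_apply]
      exact h _ ih

namespace Wt

variable {f : End k V} {q : ℕ} {w : ℤ} {W : ℤ → Submodule k V} {C : ℤ → ℚ[X]}
  (h : Wt f q w W C)

include h

theorem q_pos : (0 : ℝ) < q := by
  have := h.hq
  exact_mod_cast (by omega : 0 < q)

theorem zpow_inj {i j : ℤ} (hij : (q : ℝ) ^ i = (q : ℝ) ^ j) : i = j := by
  have h1 : (1 : ℝ) < q := by exact_mod_cast h.hq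
  exact zpow_right_injective₀ (by linarith) (by linarith) hij

/-- Coprimality of polynomials with different absolute values of the roots. -/
theorem cop {P R : ℚ[X]} {i j : ℤ} (hP : ∀ z : ℂ, aeval z P = 0 → ‖z‖ ^ 2 = (q : ℝ) ^ i)
    (hR : ∀ z : ℂ, aeval z R = 0 → ‖z‖ ^ 2 = (q : ℝ) ^ j) (hij : i ≠ j) :
    IsCoprime (P.map (algebraMap ℚ k)) (R.map (algebraMap ℚ k)) := by
  have h1 : IsCoprime P R := by
    refine (Polynomial.isCoprime_iff_aeval_ne_zero_of_isAlgClosed ℚ ℂ P R).2 fun z => ?_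
    by_contra hcon
    push Not at hcon
    exact hij (h.zpow_inj ((hP z hcon.1).symm.trans (hR z hcon.2)))
  exact h1.map (Polynomial.mapRingHom (algebraMap ℚ k))

theorem finite_ne : {j | W j ≠ ⊥}.Finite :=
  WellFoundedGT.finite_ne_bot_of_iSupIndep h.internal.submodule_iSupIndep

/-- Projections that are polynomials in `f`. -/
theorem exists_proj (j : ℤ) : ∃ e : k[X], (∀ x ∈ W j, aeval f e x = x) ∧
    ∀ i, i ≠ j → ∀ x ∈ W i, aeval f e x = 0 := by
  classical
  let s := h.finite_ne.toFinset.erase j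
  let P : k[X] := ∏ i ∈ s, (C i).map (algebraMap ℚ k)
  have hco : IsCoprime ((C j).map (algebraMap ℚ k)) P := by
    refine IsCoprime.prod_right fun i hi => ?_
    have h1 := Finset.ne_of_mem_erase hi
    exact h.cop (h.pure j) (h.pure i) (by omega)
  obtain ⟨a, b, hab⟩ := hco
  refine ⟨b * P, fun x hx => ?_, fun i hi x hx => ?_⟩
  · have h1 := congrArg (fun r => aeval f r x) hab
    simp only [map_add, map_mul, map_one, LinearMap.add_apply, Module.End.mul_apply,
      Module.End.one_apply] at h1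
    rw [h.kill j x hx, map_zero, zero_add] at h1
    rw [map_mul, Module.End.mul_apply]
    exact h1
  · by_cases hi' : W i = ⊥
    · rw [hi', Submodule.mem_bot] at hx
      rw [hx, map_zero]
    · have hmem : i ∈ s := by
        simp only [s, Finset.mem_erase, Set.Finite.mem_toFinset, Set.mem_ofPred_eq]
        exact ⟨hi, hi'⟩
      have h2 : b * P = (b * ∏ l ∈ s.erase i, (C l).map (algebraMap ℚ k)) *
          (C i).map (algebraMap ℚ k) := by
        rw [mul_assoc, mul_comm (∏ l ∈ s.erase i, _) _,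
          Finset.mul_prod_erase s (fun l => (C l).map (algebraMap ℚ k)) hmem]
      rw [h2, map_mul, Module.End.mul_apply, h.kill i x hx, map_zero]

/-- The polynomial of the projection to `W j`. -/
def e (j : ℤ) : k[X] := (h.exists_proj j).choose

/-- The projection to `W j`. -/
def π (j : ℤ) : End k V := aeval f (h.e j)

theorem π_self {j : ℤ} {x : V} (hx : x ∈ W j) : h.π j x = x :=
  (h.exists_proj j).choose_spec.1 x hx

theorem π_ne {i j : ℤ} (hij : i ≠ j) {x : V} (hx : x ∈ W i) : h.π j x = 0 :=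
  (h.exists_proj j).choose_spec.2 i hij x hx

theorem induct {p : V → Prop} (h0 : p 0) (hadd : ∀ x y, p x → p y → p (x + y))
    (hW : ∀ i, ∀ x ∈ W i, p x) (x : V) : p x := by
  have hx : x ∈ ⨆ i, W i := by
    rw [h.internal.submodule_iSup_eq_top]
    trivial
  exact Submodule.iSup_induction W (motive := p) hx hW h0 hadd

theorem π_mem (j : ℤ) (x : V) : h.π j x ∈ W j := by
  refine h.induct (p := fun x => h.π j x ∈ W j) ?_ ?_ ?_ x
  · rw [map_zero]; exact Submodule.zero_mem _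
  · intro x y hx hy
    rw [map_add]; exact Submodule.add_mem _ hx hy
  · intro i x hx
    by_cases hij : i = j
    · subst hij
      rwa [h.π_self hx]
    · rw [h.π_ne hij hx]; exact Submodule.zero_mem _

/-- a finite set of weights -/
def s : Finset ℤ := h.finite_ne.toFinset

theorem sum_π (x : V) : ∑ j ∈ h.s, h.π j x = x := by
  classical
  refine h.induct (p := fun x => ∑ j ∈ h.s, h.π j x = x) ?_ ?_ ?_ x
  · simp
  · intro x y hx hy
    simp only [map_add, Finset.sum_add_distrib, hx, hy]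
  · intro i x hx
    by_cases hi : W i = ⊥
    · rw [hi, Submodule.mem_bot] at hx
      subst hx
      simp
    · rw [Finset.sum_eq_single i]
      · exact h.π_self hx
      · intro j _ hj
        exact h.π_ne hj.symm hx
      · intro hi'
        exact absurd (by simp only [s, Set.Finite.mem_toFinset, Set.mem_ofPred_eq]; exact hi) hi'

theorem π_st {U : Submodule k V} (hU : St f U) (j : ℤ) {x : V} (hx : x ∈ U) : h.π j x ∈ U :=
  st_aeval hU _ x hx

/-- Different weights are independent. -/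
theorem eq_zero_of_mem {i j : ℤ} (hij : i ≠ j) {x : V} (hi : x ∈ W i) (hj : x ∈ W j) : x = 0 := by
  rw [← h.π_self hj]
  exact h.π_ne hij hi

omit h in
theorem comm_aeval {f : End k V} (p r : k[X]) (x : V) :
    aeval f p (aeval f r x) = aeval f r (aeval f p x) := by
  rw [← Module.End.mul_apply, ← Module.End.mul_apply, ← map_mul, ← map_mul, mul_comm]

/-- Pieces whose weights do not add up to zero are orthogonal. -/
theorem orth (ω : V →ₗ[k] V →ₗ[k] k) {a : ℕ} (hwa : w = a)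
    (hω : ∀ x y, ω (f x) (f y) = (q : k) ^ a * ω x y) {i j : ℤ}
    (hij : i + j ≠ 0) {x y : V} (hx : x ∈ W i) (hy : y ∈ W j) : ω x y = 0 := by
  have hq0 := h.q_pos
  have hqC : (q : ℂ) ≠ 0 := by
    have := h.hq
    exact_mod_cast (by omega : q ≠ 0)
  have hqQ : (q : ℚ) ≠ 0 := by
    have := h.hq
    exact_mod_cast (by omega : q ≠ 0)
  set n := (C i).natDegree with hn
  set c : ℚ := (q : ℚ) ^ a with hc
  have hcC : ((c : ℚ) : ℂ) ≠ 0 := by
    rw [hc]
    push_cast
    exact pow_ne_zero _ hqC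
  let r : ℚ[X] := ∑ m ∈ Finset.range (n + 1), Polynomial.C ((C i).coeff m * c ^ m) * X ^ (n - m)
  have hlead : (C i).coeff n ≠ 0 := by
    rw [hn, coeff_natDegree, Ne, leadingCoeff_eq_zero]
    exact h.ne i
  have hr : ∀ z : ℂ, aeval z r = 0 → ‖z‖ ^ 2 = (q : ℝ) ^ (w - i) := by
    intro z hz
    have h1 : aeval z r =
        ∑ m ∈ Finset.range (n + 1), (((C i).coeff m : ℚ) : ℂ) * (c : ℂ) ^ m * z ^ (n - m) := by
      simp only [r, map_sum, map_mul, aeval_C, map_pow, aeval_X]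
      rfl
    have hz0 : z ≠ 0 := by
      rintro rfl
      rw [h1, Finset.sum_range_succ, Nat.sub_self, pow_zero, Finset.sum_eq_zero, zero_add,
        mul_one] at hz
      · rcases mul_eq_zero.1 hz with h2 | h2
        · exact hlead (by exact_mod_cast h2)
        · exact pow_ne_zero _ hcC h2
      · intro m hm
        rw [Finset.mem_range] at hm
        rw [zero_pow (by omega), mul_zero]
    have h2 : aeval ((c : ℂ) * z⁻¹) (C i) = 0 := by
      have h3 : z ^ n * aeval ((c : ℂ) * z⁻¹) (C i) = aeval z r := by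
        rw [h1, aeval_eq_sum_range, Finset.mul_sum]
        refine Finset.sum_congr rfl fun m hm => ?_
        rw [Finset.mem_range] at hm
        have h4 : z ^ n = z ^ (n - m) * z ^ m := by rw [← pow_add]; congr 1; omega
        rw [h4, Algebra.smul_def, mul_pow, inv_pow]
        have h5 : z ^ m ≠ 0 := pow_ne_zero _ hz0
        change z ^ (n - m) * z ^ m * ((((C i).coeff m : ℚ) : ℂ) * ((c : ℂ) ^ m * (z ^ m)⁻¹)) = _
        field_simp
      rw [hz] at h3
      exact (mul_eq_zero.1 h3).resolve_left (pow_ne_zero _ hz0)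
    have h3 := h.pure i _ h2
    have h4 : ‖(c : ℂ)‖ = (q : ℝ) ^ a := by
      rw [hc]
      push_cast
      rw [norm_pow, Complex.norm_natCast]
    rw [norm_mul, norm_inv, mul_pow, inv_pow, h4] at h3
    have hz1 : ‖z‖ ^ 2 ≠ 0 := pow_ne_zero _ (norm_ne_zero_iff.2 hz0)
    have h5 : (q : ℝ) ^ (w - i) * (q : ℝ) ^ (w + i) = ((q : ℝ) ^ a) ^ 2 := by
      rw [← zpow_add₀ hq0.ne', ← pow_mul, ← zpow_natCast]
      congr 1
      rw [hwa]
      push_cast
      ring
    rw [← h3] at h5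
    have h6 : ((q : ℝ) ^ a) ^ 2 ≠ 0 := pow_ne_zero _ (pow_ne_zero _ hq0.ne')
    field_simp at h5
    exact h5.symm
  have key : ∀ y, ω x (aeval f (r.map (algebraMap ℚ k)) y) = 0 := by
    intro y
    have h2 : ∀ m x y, ω ((f ^ m) x) ((f ^ m) y) = ((q : k) ^ a) ^ m * ω x y := by
      intro m
      induction m with
      | zero => intro x y; simp
      | succ m ih =>
        intro x y
        rw [pow_succ, Module.End.mul_apply, Module.End.mul_apply, ih, hω, ← mul_assoc, ← pow_succ]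
    have h1 : ∀ m, m ≤ n → ∀ y, ((q : k) ^ a) ^ m * ω x ((f ^ (n - m)) y) =
        ω ((f ^ m) x) ((f ^ n) y) := by
      intro m hm y
      have h3 : (f ^ n) y = (f ^ m) ((f ^ (n - m)) y) := by
        rw [← Module.End.mul_apply, ← pow_add]
        congr 2
        omega
      rw [h3, h2]
    have h4 : aeval f (r.map (algebraMap ℚ k)) y =
        ∑ m ∈ Finset.range (n + 1), (algebraMap ℚ k ((C i).coeff m) * ((q : k) ^ a) ^ m) •
          (f ^ (n - m)) y := by
      simp only [r]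
      rw [Polynomial.map_sum, map_sum, LinearMap.sum_apply]
      refine Finset.sum_congr rfl fun m _ => ?_
      have e1 : ((Polynomial.C ((C i).coeff m * c ^ m) * X ^ (n - m)).map (algebraMap ℚ k)) =
          Polynomial.C (algebraMap ℚ k ((C i).coeff m) * ((q : k) ^ a) ^ m) * X ^ (n - m) := by
        rw [Polynomial.map_mul, Polynomial.map_C, Polynomial.map_pow, Polynomial.map_X, map_mul,
          map_pow, hc, map_pow, map_natCast]
      rw [e1, map_mul, aeval_C, map_pow, aeval_X, Module.End.mul_apply,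
        Module.algebraMap_end_apply]
    have h5 : aeval f ((C i).map (algebraMap ℚ k)) x =
        ∑ m ∈ Finset.range (n + 1), (algebraMap ℚ k ((C i).coeff m)) • (f ^ m) x := by
      rw [aeval_eq_sum_range, natDegree_map, LinearMap.sum_apply]
      refine Finset.sum_congr rfl fun m _ => ?_
      rw [coeff_map, LinearMap.smul_apply]
    have h6 := h.kill i x hx
    rw [h5] at h6
    have h7 : ω (∑ m ∈ Finset.range (n + 1), (algebraMap ℚ k ((C i).coeff m)) • (f ^ m) x)
        ((f ^ n) y) = 0 := by rw [h6, map_zero, LinearMap.zero_apply]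
    rw [h4, map_sum, ← h7, map_sum, LinearMap.sum_apply]
    refine Finset.sum_congr rfl fun m hm => ?_
    rw [Finset.mem_range] at hm
    rw [map_smul, map_smul, LinearMap.smul_apply, ← h1 m (by omega), smul_eq_mul, smul_eq_mul,
      mul_assoc]
  obtain ⟨a, b, hab⟩ := h.cop (k := k) hr (h.pure j) (by omega)
  have h2 := congrArg (fun r => aeval f r y) hab
  simp only [map_add, map_mul, map_one, LinearMap.add_apply, Module.End.mul_apply,
    Module.End.one_apply] at h2
  rw [h.kill j y hy, map_zero, add_zero, comm_aeval] at h2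
  rw [← h2]
  exact key _

/-- The absolute value of the determinant on a subspace of `W j`. -/
theorem abs_dt (g : k →+* ℂ) {j : ℤ} {Y : Submodule k V} (hY : St f Y)
    (hYj : Y ≤ W j) : ‖g (dt f Y)‖ ^ 2 = ((q : ℝ) ^ (w + j)) ^ finrank k Y := by
  have hY' : ∀ x ∈ Y, f x ∈ Y := hY
  let _ : Algebra k ℂ := g.toAlgebra
  have hg : ∀ x, g x = algebraMap k ℂ x := fun _ => rfl
  obtain ⟨h1, h2⟩ := det_eq_prod_roots (K := ℂ) (f.restrict hY')
  rw [dt_eq hY', hg, h1, ← h2]
  refine Pool.Agent.Y115.M.norm_multiset_prod _ _ fun x hx => ?_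
  have hm : ((f.restrict hY).charpoly.map (algebraMap k ℂ)).Monic :=
    (LinearMap.charpoly_monic _).map _
  rw [Polynomial.mem_roots hm.ne_zero] at hx
  have h3 : aeval (f.restrict hY') ((C j).map (algebraMap ℚ k)) = 0 := by
    refine LinearMap.ext fun y => Subtype.ext ?_
    rw [aeval_restrict, h.kill j y (hYj y.2)]
    rfl
  have h4 := root_of_kill (K := ℂ) _ _ h3 hx
  have h5 : aeval x (C j) = 0 := by
    rw [aeval_def, eval₂_map] at h4
    rw [aeval_def, Subsingleton.elim (algebraMap ℚ ℂ) ((algebraMap k ℂ).comp (algebraMap ℚ k))]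
    exact h4
  exact h.pure j x h5

theorem exists_bound : ∃ B : ℕ, ∀ j : ℤ, (j < -(B : ℤ) ∨ (B : ℤ) < j) → W j = ⊥ := by
  obtain ⟨B, hB⟩ : ∃ B : ℕ, ∀ j ∈ h.s, j.natAbs ≤ B := by
    refine ⟨h.s.sup Int.natAbs, fun j hj => Finset.le_sup (f := Int.natAbs) hj⟩
  refine ⟨B, fun j hj => ?_⟩
  by_contra hne
  have h1 : j ∈ h.s := by
    simp only [s, Set.Finite.mem_toFinset, Set.mem_ofPred_eq]
    exact hne
  have := hB j h1
  omega

/-- A stable subspace is the sum of its graded pieces. -/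
theorem eq_biSup {U : Submodule k V} (hU : St f U) {B : ℕ}
    (hB : ∀ j : ℤ, (j < -(B : ℤ) ∨ (B : ℤ) < j) → W j = ⊥) :
    U = ⨆ j ∈ Finset.Icc (-(B : ℤ)) B, (U ⊓ W j) := by
  apply le_antisymm
  · intro x hx
    rw [← h.sum_π x]
    refine Submodule.sum_mem _ fun j _ => ?_
    by_cases hj : j ∈ Finset.Icc (-(B : ℤ)) B
    · have h1 : U ⊓ W j ≤ ⨆ j ∈ Finset.Icc (-(B : ℤ)) B, (U ⊓ W j) :=
        le_iSup₂_of_le j hj le_rfl
      exact h1 ⟨h.π_st hU j hx, h.π_mem j x⟩
    · have h1 := h.π_mem j x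
      rw [hB j, Submodule.mem_bot] at h1
      · rw [h1]
        exact Submodule.zero_mem _
      · rw [Finset.mem_Icc] at hj
        omega
  · exact iSup₂_le fun j _ => inf_le_left

theorem st_inf {U : Submodule k V} (hU : St f U) (j : ℤ) : St f (U ⊓ W j) :=
  fun x hx => ⟨hU x hx.1, h.stable j x hx.2⟩

theorem indep_inf (U : Submodule k V) : iSupIndep fun j => U ⊓ W j :=
  h.internal.submodule_iSupIndep.mono fun _ => inf_le_right

/-- The absolute value of the determinant on a stable subspace. -/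
theorem norm_dt (g : k →+* ℂ) {U : Submodule k V} (hU : St f U) {B : ℕ}
    (hB : ∀ j : ℤ, (j < -(B : ℤ) ∨ (B : ℤ) < j) → W j = ⊥) :
    ‖g (dt f U)‖ ^ 2 = (q : ℝ) ^ (w * finrank k U +
      ∑ j ∈ Finset.Icc (-(B : ℤ)) B, j * (finrank k ↥(U ⊓ W j) : ℤ)) := by
  classical
  obtain ⟨-, h1, h2⟩ := dt_biSup (fun j => U ⊓ W j) (fun j => h.st_inf hU j) (h.indep_inf U)
    (Finset.Icc (-(B : ℤ)) B)
  rw [← h.eq_biSup hU hB] at h1 h2
  have hq0 := h.q_pos
  rw [h1, map_prod, norm_prod, ← Finset.prod_pow, Finset.prod_congr rfl fun j _ =>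
    h.abs_dt g (h.st_inf hU j) inf_le_right]
  have h3 : (w * finrank k U + ∑ j ∈ Finset.Icc (-(B : ℤ)) B, j * (finrank k ↥(U ⊓ W j) : ℤ)) =
      ∑ j ∈ Finset.Icc (-(B : ℤ)) B, (w + j) * (finrank k ↥(U ⊓ W j) : ℤ) := by
    rw [h2]
    push_cast
    rw [Finset.mul_sum, ← Finset.sum_add_distrib]
    exact Finset.sum_congr rfl fun j _ => by ring
  rw [h3]
  have h6 : ∀ (s : Finset ℤ), (q : ℝ) ^ (∑ j ∈ s, (w + j) * (finrank k ↥(U ⊓ W j) : ℤ)) =
      ∏ j ∈ s, ((q : ℝ) ^ (w + j)) ^ finrank k ↥(U ⊓ W j) := by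
    intro s
    induction s using Finset.induction_on with
    | empty => simp
    | insert b s hb ih =>
      rw [Finset.sum_insert hb, Finset.prod_insert hb, zpow_add₀ hq0.ne', ih, zpow_mul,
        zpow_natCast]
  exact (h6 _).symm

end Wt

/-- `f` and `N` are pure of weight `w`. -/
structure Mon (f N : End k V) (q : ℕ) (w : ℤ) (W : ℤ → Submodule k V) (C : ℤ → ℚ[X]) :
    Prop extends Wt f q w W C where
  lower : ∀ j, ∀ x ∈ W j, N x ∈ W (j - 2)
  inj : ∀ j : ℕ, ∀ x ∈ W j, (N ^ j) x = 0 → x = 0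
  surj : ∀ j : ℕ, ∀ y ∈ W (-(j : ℤ)), ∃ x ∈ W j, (N ^ j) x = y

/-- The primitive part of weight `m` of `U`. -/
def Pr (N : End k V) (W : ℤ → Submodule k V) (U : Submodule k V) (m : ℕ) :
    Submodule k V := U ⊓ W m ⊓ LinearMap.ker (N ^ (m + 1))

theorem mem_Pr {N : End k V} {W : ℤ → Submodule k V} {U : Submodule k V} {m : ℕ} {x : V} :
    x ∈ Pr N W U m ↔ x ∈ U ∧ x ∈ W m ∧ (N ^ (m + 1)) x = 0 := by
  unfold Pr
  rw [Submodule.mem_inf, Submodule.mem_inf, LinearMap.mem_ker, and_assoc]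

namespace Mon

variable {f N : End k V} {q : ℕ} {w : ℤ} {W : ℤ → Submodule k V} {C : ℤ → ℚ[X]}
  (h : Mon f N q w W C)

include h

theorem N_pow_mem (a : ℕ) {j : ℤ} {x : V} (hx : x ∈ W j) : (N ^ a) x ∈ W (j - 2 * a) := by
  induction a with
  | zero => simpa using hx
  | succ a ih =>
    rw [pow_succ', Module.End.mul_apply]
    have h1 := h.lower _ _ ih
    have h2 : j - 2 * (a : ℤ) - 2 = j - 2 * ((a + 1 : ℕ) : ℤ) := by push_cast; ring
    rwa [h2] at h1

theorem map_le {U : Submodule k V} (hN : St N U) (j : ℕ) :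
    (U ⊓ W j).map (N ^ j) ≤ U ⊓ W (-(j : ℤ)) := by
  rintro _ ⟨x, hx, rfl⟩
  refine ⟨pow_mem hN j hx.1, ?_⟩
  have h1 := h.N_pow_mem j hx.2
  have h2 : (j : ℤ) - 2 * j = -(j : ℤ) := by ring
  rwa [h2] at h1

theorem finrank_le {U : Submodule k V} (hN : St N U) (j : ℕ) :
    finrank k ↥(U ⊓ W j) ≤ finrank k ↥(U ⊓ W (-(j : ℤ))) := by
  have h1 := finrank_map_inj (U := U ⊓ W j) (N ^ j) fun x hx h0 => h.inj j x hx.2 h0
  rw [← h1]
  exact Submodule.finrank_mono (h.map_le hN j)

theorem sum_eq (U : Submodule k V) (B : ℕ) :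
    ∑ j ∈ Finset.Icc (-(B : ℤ)) B, j * (finrank k ↥(U ⊓ W j) : ℤ) =
      - ∑ i ∈ Finset.range B, ((i : ℤ) + 1) * ((finrank k ↥(U ⊓ W (-((i : ℤ) + 1))) : ℤ) -
      (finrank k ↥(U ⊓ W ((i : ℤ) + 1)) : ℤ)) := by
  rw [sum_Icc, zero_mul, zero_add, ← Finset.sum_neg_distrib]
  refine Finset.sum_congr rfl fun i _ => ?_
  ring

theorem term_nonneg {U : Submodule k V} (hN : St N U) (i : ℕ) : 0 ≤ ((i : ℤ) + 1) *
    ((finrank k ↥(U ⊓ W (-((i : ℤ) + 1))) : ℤ) - (finrank k ↥(U ⊓ W ((i : ℤ) + 1)) : ℤ)) := by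
  have h3 := h.finrank_le hN (i + 1)
  push_cast at h3
  have h4 : (0 : ℤ) ≤ (finrank k ↥(U ⊓ W (-((i : ℤ) + 1))) : ℤ) -
    (finrank k ↥(U ⊓ W ((i : ℤ) + 1)) : ℤ) := by
    rw [sub_nonneg]
    exact_mod_cast h3
  exact mul_nonneg (by positivity) h4

/-- The weights of a stable subspace add up to a number which is not positive. -/
theorem sum_nonpos {U : Submodule k V} (hN : St N U) (B : ℕ) :
    ∑ j ∈ Finset.Icc (-(B : ℤ)) B, j * (finrank k ↥(U ⊓ W j) : ℤ) ≤ 0 := by
  rw [h.sum_eq, neg_nonpos]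
  exact Finset.sum_nonneg fun i _ => h.term_nonneg hN i

section balanced

variable {U : Submodule k V} (hf : St f U) (hN : St N U) {B : ℕ}
  (hB : ∀ j : ℤ, (j < -(B : ℤ) ∨ (B : ℤ) < j) → W j = ⊥)
  (hbal : ∑ j ∈ Finset.Icc (-(B : ℤ)) B, j * (finrank k ↥(U ⊓ W j) : ℤ) = 0)

include hf hN hB hbal

/-- The weights of `U` are symmetric. -/
theorem finrank_symm (j : ℕ) : finrank k ↥(U ⊓ W (-(j : ℤ))) = finrank k ↥(U ⊓ W j) := by
  classical
  rw [h.sum_eq, neg_eq_zero] at hbal
  have h3 := (Finset.sum_eq_zero_iff_of_nonneg fun i _ => h.term_nonneg hN i).1 hbal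
  rcases Nat.eq_zero_or_pos j with rfl | hj
  · simp
  by_cases hjB : j ≤ B
  · have h4 := h3 (j - 1) (Finset.mem_range.2 (by omega))
    have h5 : (((j - 1 : ℕ) : ℤ)) + 1 = (j : ℤ) := by omega
    rw [h5] at h4
    have h6 : (j : ℤ) ≠ 0 := by omega
    have h7 := (mul_eq_zero.1 h4).resolve_left h6
    omega
  · rw [hB j (by omega), hB (-(j : ℤ)) (by omega)]

theorem map_eq (j : ℕ) : (U ⊓ W j).map (N ^ j) = U ⊓ W (-(j : ℤ)) := by
  refine Submodule.eq_of_le_of_finrank_eq (h.map_le hN j) ?_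
  rw [finrank_map_inj (U := U ⊓ W j) (N ^ j) fun x hx h0 => h.inj j x hx.2 h0,
    h.finrank_symm hf hN hB hbal j]

theorem decomp (j : ℕ) :
    Pr N W U j ⊔ (U ⊓ W ((j + 2 : ℕ) : ℤ)).map N = U ⊓ W j ∧
      Disjoint (Pr N W U j) ((U ⊓ W ((j + 2 : ℕ) : ℤ)).map N) := by
  have hc : ∀ y ∈ W ((j + 2 : ℕ) : ℤ), N y ∈ W j := by
    intro y hy
    have h1 := h.lower _ _ hy
    have h2 : ((j + 2 : ℕ) : ℤ) - 2 = j := by push_cast; ring
    rwa [h2] at h1
  constructor
  · apply le_antisymm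
    · refine sup_le ?_ ?_
      · intro x hx
        rw [mem_Pr] at hx
        exact ⟨hx.1, hx.2.1⟩
      · rintro _ ⟨y, hy, rfl⟩
        exact ⟨hN y hy.1, hc y hy.2⟩
    · intro x hx
      have h1 : (N ^ (j + 1)) x ∈ U ⊓ W (-((j + 2 : ℕ) : ℤ)) := by
        refine ⟨pow_mem hN _ hx.1, ?_⟩
        have h2 := h.N_pow_mem (j + 1) hx.2
        have h3 : (j : ℤ) - 2 * ((j + 1 : ℕ) : ℤ) = -((j + 2 : ℕ) : ℤ) := by push_cast; ring
        rwa [h3] at h2
      rw [← h.map_eq hf hN hB hbal (j + 2)] at h1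
      obtain ⟨y, hy, hxy⟩ := h1
      have h2 : x = (x - N y) + N y := by abel
      rw [h2]
      refine Submodule.add_mem_sup ?_ ⟨y, hy, rfl⟩
      rw [mem_Pr]
      refine ⟨U.sub_mem hx.1 (hN y hy.1), (W j).sub_mem hx.2 (hc y hy.2), ?_⟩
      rw [map_sub, ← hxy]
      have h3 : (N ^ (j + 2)) y = (N ^ (j + 1)) (N y) := by
        rw [pow_succ N (j + 1), Module.End.mul_apply]
      rw [h3, sub_self]
  · rw [Submodule.disjoint_def]
    rintro _ hx ⟨y, hy, rfl⟩
    rw [mem_Pr] at hx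
    have h3 : (N ^ (j + 2)) y = (N ^ (j + 1)) (N y) := by
      rw [pow_succ N (j + 1), Module.End.mul_apply]
    rw [h.inj (j + 2) y hy.2 (by rw [h3]; exact hx.2.2), map_zero]

omit hf hN hB hbal in
theorem N_inj (j : ℕ) : ∀ x ∈ U ⊓ W ((j + 2 : ℕ) : ℤ), N x = 0 → x = 0 := by
  intro x hx h0
  refine h.inj (j + 2) x hx.2 ?_
  rw [pow_succ, Module.End.mul_apply, h0, map_zero]

theorem finrank_rec (j : ℕ) : finrank k ↥(U ⊓ W (j : ℤ)) =
    finrank k ↥(Pr N W U j) + finrank k ↥(U ⊓ W ((j + 2 : ℕ) : ℤ)) := by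
  obtain ⟨h1, h2⟩ := h.decomp hf hN hB hbal j
  have h3 := Submodule.finrank_sup_add_finrank_inf_eq (Pr N W U j)
    ((U ⊓ W ((j + 2 : ℕ) : ℤ)).map N)
  rw [h2.eq_bot, finrank_bot, add_zero, h1,
    finrank_map_inj N (h.N_inj j)] at h3
  exact h3

/-- The dimension of `U` in terms of the primitive parts. -/
theorem finrank_formula :
    finrank k U = ∑ m ∈ Finset.range (B + 1), (m + 1) * finrank k ↥(Pr N W U m) := by
  classical
  obtain ⟨-, hd, hr⟩ := dt_biSup (fun j => U ⊓ W j) (fun j => h.toWt.st_inf hf j)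
    (h.toWt.indep_inf U) (Finset.Icc (-(B : ℤ)) B)
  rw [← h.toWt.eq_biSup hf hB] at hr
  have hbot : ∀ m : ℕ, B < m → U ⊓ W (m : ℤ) = ⊥ := by
    intro m hm
    rw [hB m (by omega), inf_bot_eq]
  have h1 := comb (M := Multiplicative ℕ)
    (fun j => Multiplicative.ofAdd (finrank k ↥(U ⊓ W (j : ℤ))))
    (fun j => Multiplicative.ofAdd (finrank k ↥(Pr N W U j)))
    (fun j => by
      rw [← ofAdd_add, ← h.finrank_rec hf hN hB hbal j]) B
  have h2 := congrArg Multiplicative.toAdd h1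
  simp only [toAdd_mul, toAdd_prod, toAdd_pow, toAdd_ofAdd, smul_eq_mul] at h2
  rw [hbot (B + 2) (by omega), hbot (B + 1) (by omega), finrank_bot, mul_zero, mul_zero, add_zero,
    add_zero] at h2
  rw [hr, sum_Icc, ← h2]
  congr 1
  refine Finset.sum_congr rfl fun j _ => ?_
  have h3 := h.finrank_symm hf hN hB hbal (j + 1)
  push_cast at h3 ⊢
  rw [h3]
  ring

end balanced

/-- The primitive parts count the Jordan blocks. -/
theorem finrank_Pr_le (m : ℕ) : finrank k ↥(Pr N W ⊤ m) ≤ jb N ⊤ m := by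
  have h1 := jb_eq (N := N) (U := ⊤) (fun _ _ => trivial) m
  let K : ℕ → Submodule k V := fun m => (⊤ : Submodule k V).map (N ^ m) ⊓ LinearMap.ker N
  have hK : ∀ m, finrank k ↥(K m) = kk N ⊤ m := fun m => rfl
  have hinj : finrank k ↥((Pr N W ⊤ m).map (N ^ m)) = finrank k ↥(Pr N W ⊤ m) :=
    finrank_map_inj (N ^ m) fun x hx h0 => h.inj m x (mem_Pr.1 hx).2.1 h0
  have hdis : Disjoint ((Pr N W ⊤ m).map (N ^ m)) (K (m + 1)) := by
    rw [Submodule.disjoint_def]
    rintro _ ⟨x, hx, rfl⟩ ⟨⟨y, -, hy⟩, -⟩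
    obtain ⟨-, hx1, hx2⟩ := mem_Pr.1 hx
    have hxm : (N ^ m) x ∈ W (-(m : ℤ)) := by
      have h2 := h.N_pow_mem m hx1
      have h3 : (m : ℤ) - 2 * m = -(m : ℤ) := by ring
      rwa [h3] at h2
    -- the component of `y` of weight `m + 2`
    have hcomp : (N ^ (m + 1)) (h.toWt.π ((m + 2 : ℕ) : ℤ) y) = (N ^ m) x := by
      have h2 : ∀ y, h.toWt.π (-(m : ℤ)) ((N ^ (m + 1)) y) =
          (N ^ (m + 1)) (h.toWt.π ((m + 2 : ℕ) : ℤ) y) := by
        refine h.toWt.induct (by simp) (fun a b ha hb => by simp only [map_add, ha, hb]) ?_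
        intro i a ha
        have h3 := h.N_pow_mem (m + 1) ha
        by_cases hi : i = ((m + 2 : ℕ) : ℤ)
        · subst hi
          rw [h.toWt.π_self ha, h.toWt.π_self]
          have h4 : ((m + 2 : ℕ) : ℤ) - 2 * ((m + 1 : ℕ) : ℤ) = -(m : ℤ) := by push_cast; ring
          rwa [h4] at h3
        · rw [h.toWt.π_ne hi ha, map_zero, h.toWt.π_ne _ h3]
          push_cast at hi ⊢
          omega
      rw [← h2, hy, h.toWt.π_self hxm]
    have h2 := h.toWt.π_mem ((m + 2 : ℕ) : ℤ) y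
    have h3 : (N ^ (m + 2)) (h.toWt.π ((m + 2 : ℕ) : ℤ) y) = 0 := by
      rw [pow_succ' N (m + 1), Module.End.mul_apply, hcomp, ← Module.End.mul_apply, ← pow_succ',
        hx2]
    rw [← hcomp, h.inj (m + 2) _ h2 h3, map_zero]
  have hle : (Pr N W ⊤ m).map (N ^ m) ⊔ K (m + 1) ≤ K m := by
    refine sup_le ?_ ?_
    · rintro _ ⟨x, hx, rfl⟩
      refine ⟨⟨x, trivial, rfl⟩, ?_⟩
      change N ((N ^ m) x) = 0
      rw [← Module.End.mul_apply, ← pow_succ', (mem_Pr.1 hx).2.2]
    · refine inf_le_inf_right _ ?_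
      rintro _ ⟨x, -, rfl⟩
      refine ⟨N x, trivial, ?_⟩
      rw [pow_succ, Module.End.mul_apply]
  have h2 := Submodule.finrank_mono hle
  have h3 := Submodule.finrank_sup_add_finrank_inf_eq ((Pr N W ⊤ m).map (N ^ m)) (K (m + 1))
  rw [hdis.eq_bot, finrank_bot, add_zero, hinj, hK] at h3
  rw [hK, h3] at h2
  omega

/-- The primitive parts of an isotropic subspace are small. -/
theorem isotropic (ω : V →ₗ[k] V →ₗ[k] k) (hnd : ∀ u, (∀ v, ω v u = 0) → u = 0) (hNω : ∀ x y, ω (N x) y + ω x (N y) = 0)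
    {a : ℕ} (hwa : w = a) (hω : ∀ x y, ω (f x) (f y) = (q : k) ^ a * ω x y)
    {U : Submodule k V} (hN : St N U) (hU : ∀ x ∈ U, ∀ y ∈ U, ω x y = 0) (m : ℕ) :
    2 * finrank k ↥(Pr N W U m) ≤ finrank k ↥(Pr N W ⊤ m) := by
  classical
  set P := Pr N W ⊤ m with hP
  set Y := Pr N W U m with hYdef
  have hYP : Y ≤ P := by
    intro x hx
    rw [hYdef, mem_Pr] at hx
    rw [hP, mem_Pr]
    exact ⟨trivial, hx.2⟩
  let β : V →ₗ[k] V →ₗ[k] k := ω.compl₂ (N ^ m)
  have hβ : ∀ x y, β x y = ω x ((N ^ m) y) := fun x y => rfl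
  -- nondegeneracy on the primitive part
  have hndP : ∀ x ∈ P, (∀ y ∈ P, β y x = 0) → x = 0 := by
    intro x hx hxy
    have hx' := mem_Pr.1 hx
    have h0 : (N ^ m) x ∈ W (-(m : ℤ)) := by
      have h2 := h.N_pow_mem m hx'.2.1
      have h3 : (m : ℤ) - 2 * m = -(m : ℤ) := by ring
      rwa [h3] at h2
    refine h.inj m x hx'.2.1 (hnd _ fun y => ?_)
    refine h.toWt.induct (p := fun y => ω y ((N ^ m) x) = 0) (by simp) (fun a b ha hb => by
      rw [map_add, LinearMap.add_apply, ha, hb, add_zero]) ?_ y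
    intro i y hy
    by_cases hi : i = (m : ℤ)
    · subst hi
      -- `y` is the sum of a primitive element and an element of the image of `N`
      have h1 : (N ^ (m + 1)) y ∈ W (-((m + 2 : ℕ) : ℤ)) := by
        have h2 := h.N_pow_mem (m + 1) hy
        have h3 : (m : ℤ) - 2 * ((m + 1 : ℕ) : ℤ) = -((m + 2 : ℕ) : ℤ) := by push_cast; ring
        rwa [h3] at h2
      obtain ⟨v, hv2, hv3⟩ := h.surj (m + 2) _ h1
      have h4 : (N ^ (m + 2)) v = (N ^ (m + 1)) (N v) := by
        rw [pow_succ N (m + 1), Module.End.mul_apply]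
      have hNv : N v ∈ W m := by
        have h6 := h.lower _ _ hv2
        have h7 : ((m + 2 : ℕ) : ℤ) - 2 = m := by push_cast; ring
        rwa [h7] at h6
      have hp : y - N v ∈ P := by
        rw [hP, mem_Pr]
        refine ⟨trivial, (W m).sub_mem hy hNv, ?_⟩
        rw [map_sub, ← hv3, h4, sub_self]
      have h8 := hxy _ hp
      rw [hβ, map_sub, LinearMap.sub_apply, sub_eq_zero] at h8
      rw [h8]
      have h9 := hNω v ((N ^ m) x)
      have h10 : N ((N ^ m) x) = 0 := by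
        rw [← Module.End.mul_apply, ← pow_succ', hx'.2.2]
      rw [h10, map_zero, add_zero] at h9
      exact h9
    · exact h.toWt.orth ω hwa hω (by omega) hy h0
  have hiso : ∀ x ∈ Y, ∀ y ∈ Y, β x y = 0 := by
    intro x hx y hy
    exact hU x (mem_Pr.1 hx).1 _ (pow_mem hN m (mem_Pr.1 hy).1)
  -- the map from `P` to the dual of `Y`
  let L : P →ₗ[k] Dual k P := (β.domRestrict₁₂ P P).flip
  have hLinj : Function.Injective L := by
    rw [← LinearMap.ker_eq_bot, LinearMap.ker_eq_bot']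
    intro x hx
    exact Subtype.ext (hndP x x.2 fun y hy => congrArg (fun F : Dual k P => F ⟨y, hy⟩) hx)
  have hLsurj : Function.Surjective L :=
    (LinearMap.injective_iff_surjective_of_finrank_eq_finrank
      (by rw [Subspace.dual_finrank_eq])).1 hLinj
  let i : Y →ₗ[k] P := Submodule.inclusion hYP
  have hi : Function.Injective i := Submodule.inclusion_injective hYP
  have hi' : Function.Surjective i.dualMap := LinearMap.dualMap_surjective_of_injective hi
  let R : P →ₗ[k] Dual k Y := i.dualMap ∘ₗ L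
  have hRs : Function.Surjective R := hi'.comp hLsurj
  have hRk : LinearMap.range i ≤ LinearMap.ker R := by
    rintro _ ⟨y, rfl⟩
    rw [LinearMap.mem_ker]
    refine LinearMap.ext fun z => ?_
    exact hiso z z.2 y y.2
  have h1 := LinearMap.finrank_range_add_finrank_ker R
  rw [LinearMap.range_eq_top.2 hRs, finrank_top, Subspace.dual_finrank_eq] at h1
  have h2 := Submodule.finrank_mono hRk
  rw [LinearMap.finrank_range_of_inj hi] at h2
  omega

end Mon

end

end Pool.Agent.H20.TB
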