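import Mathlib
import Pool.Agent.H20.TB.Defs
import Pool.Agent.H20.TB.Weights
import Pool.Agent.H20.TB.Strong
import Pool.Graph.R_seed8.Y114.MU.Irr

/-!
# Isotropic Galois stable subspaces are zero
-/

set_option autoImplicit false
set_option linter.unusedSectionVars false
set_option linter.unusedVariables false

namespace Pool.Agent.H20.TB

open NumberField IsDedekindDomain Polynomial Module
open Pool.Agent.Y114.GF (not_above_of_ne)
open Pool.Agent.Y114.MU (frob_value det_one_add_nilpotent two_weights chi_inertia)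
open Pool.Agent.W569.FM Pool.Agent.W571.FM Pool.Agent.Y115.R Pool.Agent.Y115.T Pool.Agent.Y115.Chi
open Pool.Agent.TH118.WM (dt_eq det_eq_prod_roots root_of_kill aeval_restrict)

noncomputable section

section linear

variable {k V : Type} [Field k] [CharZero k] [AddCommGroup V] [Module k V]
  [FiniteDimensional k V]

theorem blocks_eq (N : End k V) (m : ℕ) : blocks N m = jb N ⊤ m := by
  unfold blocks jb rk
  rw [Submodule.map_top, Submodule.map_top, Submodule.map_top]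

theorem IsPure.mon {A N : End k V} {q w : ℕ} (hq : 1 < q) (h : IsPure A N q w) :
    ∃ W C, Mon A N q (w : ℤ) W C := by
  obtain ⟨W, h1, h2, h3, h4⟩ := h
  choose C hC1 hC2 hC3 using h3
  refine ⟨W, C, ⟨⟨hq, h1, fun j x hx => (h2 j x hx).1, hC1, hC3, hC2⟩, fun j x hx => (h2 j x hx).2,
    ?_, ?_⟩⟩
  · intro j x hx h0
    exact (h4 j).injOn hx (W j).zero_mem (by rw [h0, map_zero])
  · intro j y hy
    obtain ⟨x, hx, hxy⟩ := (h4 j).surjOn hy
    exact ⟨x, hx, hxy⟩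

/-- If the monodromy is trivial there is only one weight. -/
theorem IsPure.weight_zero {A : End k V} {q w : ℕ} (hq : 1 < q) (h : IsPure A 0 q w) :
    ∃ C : ℚ[X], C ≠ 0 ∧ (∀ z : ℂ, aeval z C = 0 → ‖z‖ ^ 2 = (q : ℝ) ^ (w : ℤ)) ∧
      aeval A (C.map (algebraMap ℚ k)) = 0 := by
  obtain ⟨W, C, h⟩ := h.mon hq
  have h0 : ∀ j : ℤ, j ≠ 0 → ∀ x ∈ W j, x = 0 := by
    intro j hj x hx
    rcases lt_or_gt_of_ne hj with h1 | h1
    · obtain ⟨m, hm⟩ := Int.exists_eq_neg_ofNat h1.le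
      obtain ⟨y, hy, hxy⟩ := h.surj m x (hm ▸ hx)
      rw [← hxy, zero_pow (by omega), LinearMap.zero_apply]
    · obtain ⟨m, rfl⟩ := Int.eq_ofNat_of_zero_le h1.le
      exact h.inj m x hx (by rw [zero_pow (by omega), LinearMap.zero_apply])
  refine ⟨C 0, h.ne 0, fun z hz => by simpa using h.pure 0 z hz, LinearMap.ext fun x => ?_⟩
  rw [LinearMap.zero_apply]
  refine h.toWt.induct (p := fun x => aeval A ((C 0).map (algebraMap ℚ k)) x = 0) (map_zero _)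
    (fun a b ha hb => by rw [map_add, ha, hb, add_zero]) ?_ x
  intro i x hx
  by_cases hi : i = 0
  · subst hi
    exact h.kill 0 x hx
  · rw [h0 i hi x hx, map_zero]

/-- The determinant on a stable subspace, at a place of good reduction. -/
theorem det_pure (j : k →+* ℂ) (g : End k V) (U : Submodule k V) (hU : ∀ x ∈ U, g x ∈ U)
    {P : ℚ[X]} (hP0 : P ≠ 0) (hP : aeval g (P.map (algebraMap ℚ k)) = 0) {c : ℝ}
    (hc : ∀ z : ℂ, aeval z P = 0 → ‖z‖ ^ 2 = c) :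
    IsAlgebraic ℚ (LinearMap.det (g.restrict hU)) ∧
      ‖j (LinearMap.det (g.restrict hU))‖ ^ 2 = c ^ finrank k U := by
  let _ : Algebra k ℂ := j.toAlgebra
  have hg : ∀ x, j x = algebraMap k ℂ x := fun _ => rfl
  obtain ⟨h1, h2⟩ := det_eq_prod_roots (K := ℂ) (g.restrict hU)
  have hm : ((g.restrict hU).charpoly.map (algebraMap k ℂ)).Monic :=
    (LinearMap.charpoly_monic _).map _
  have hroot : ∀ x ∈ ((g.restrict hU).charpoly.map (algebraMap k ℂ)).roots, aeval x P = 0 := by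
    intro x hx
    rw [Polynomial.mem_roots hm.ne_zero] at hx
    have h3 : aeval (g.restrict hU) (P.map (algebraMap ℚ k)) = 0 := by
      refine LinearMap.ext fun y => Subtype.ext ?_
      rw [aeval_restrict, hP]
      rfl
    have h4 := root_of_kill (K := ℂ) _ _ h3 hx
    rw [aeval_def, eval₂_map] at h4
    rw [aeval_def, Subsingleton.elim (algebraMap ℚ ℂ) ((algebraMap k ℂ).comp (algebraMap ℚ k))]
    exact h4
  constructor
  · have h3 : IsAlgebraic ℚ (j (LinearMap.det (g.restrict hU))) := by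
      rw [hg, h1]
      apply Pool.Agent.Y115.M.isAlgebraic_multiset_prod
      intro a ha
      exact ⟨P, hP0, hroot a ha⟩
    exact (isAlgebraic_algHom_iff (RingHom.toRatAlgHom j) j.injective).1 h3
  · rw [hg, h1, ← h2]
    exact Pool.Agent.Y115.M.norm_multiset_prod _ _ fun x hx => hc x (hroot x hx)

/-- Sums over different ranges. -/
theorem total_eq {c : ℕ → ℕ} {n B : ℕ} (h1 : ∀ m, n ≤ m → c m = 0) (h2 : ∀ m, B < m → c m = 0) :
    total n c = ∑ m ∈ Finset.range (B + 1), (m + 1) * c m := by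
  unfold total
  rcases le_total n (B + 1) with h | h
  · refine Finset.sum_subset (Finset.range_mono h) fun m _ hm => ?_
    rw [h1 m (by simpa using hm), mul_zero]
  · refine (Finset.sum_subset (Finset.range_mono h) fun m _ hm => ?_).symm
    rw [h2 m (by simpa using hm), mul_zero]

theorem jb_zero {N : End k V} {n : ℕ} (hN : N ^ n = 0) {m : ℕ} (hm : n ≤ m) : jb N ⊤ m = 0 := by
  have h1 : ∀ m, n ≤ m → rk N ⊤ m = 0 := by
    intro m hm
    obtain ⟨c, rfl⟩ := Nat.exists_eq_add_of_le hm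
    unfold rk
    rw [pow_add, hN, zero_mul, Submodule.map_zero, finrank_bot]
  unfold jb
  rw [h1 m hm, h1 (m + 2) (by omega)]
  simp

/-- The Jordan type of an isotropic subspace which is balanced. -/
theorem isotropic_type {A N : End k V} {q w : ℕ} {W : ℤ → Submodule k V} {C : ℤ → ℚ[X]}
    (h : Mon A N q (w : ℤ) W C) (hN : IsNilpotent N) (ω : V →ₗ[k] V →ₗ[k] k)
    (hnd : ∀ u, (∀ v, ω v u = 0) → u = 0) (hNω : ∀ x y, ω (N x) y + ω x (N y) = 0)
    (hω : ∀ x y, ω (A x) (A y) = (q : k) ^ w * ω x y)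
    {U : Submodule k V} (hU1 : St A U) (hU2 : St N U) (hU : ∀ x ∈ U, ∀ y ∈ U, ω x y = 0) {B : ℕ}
    (hB : ∀ j : ℤ, (j < -(B : ℤ) ∨ (B : ℤ) < j) → W j = ⊥)
    (hbal : ∑ j ∈ Finset.Icc (-(B : ℤ)) B, j * (finrank k ↥(U ⊓ W j) : ℤ) = 0) :
    ¬ ExcludesIsotropic (finrank k V) (jb N ⊤) (finrank k U) := by
  intro hex
  have hle : ∀ m, 2 * finrank k ↥(Pr N W U m) ≤ jb N ⊤ m := fun m =>
    (h.isotropic ω hnd hNω rfl hω hU2 hU m).trans (h.finrank_Pr_le m)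
  refine hex ⟨fun m => finrank k ↥(Pr N W U m), hle, ?_⟩
  rw [h.finrank_formula hU1 hU2 hB hbal]
  refine total_eq (fun m hm => ?_) (fun m hm => ?_)
  · have h1 := hle m
    rw [jb_zero (pow_dim hN) hm] at h1
    omega
  · rw [Submodule.finrank_eq_zero, eq_bot_iff]
    intro x hx
    have h2 := (mem_Pr.1 hx).2.1
    rwa [hB m (by omega)] at h2

end linear

section detU

variable {k G V : Type} [Field k] [Group G] [AddCommGroup V] [Module k V]
  (ρ : Representation k G V) (U : Submodule k V) (hU : ∀ g, ∀ x ∈ U, ρ g x ∈ U)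

/-- The representation on a stable subspace. -/
def resU : G →* End k U where
  toFun g := (ρ g).restrict (hU g)
  map_one' := by
    refine LinearMap.ext fun x => Subtype.ext ?_
    change ρ 1 x = x
    rw [map_one]
    rfl
  map_mul' g h := by
    refine LinearMap.ext fun x => Subtype.ext ?_
    change ρ (g * h) x = ρ g (ρ h x)
    rw [map_mul]
    rfl

/-- The determinant of a stable subspace. -/
def detU : G →* kˣ := ((LinearMap.det : End k U →* k).comp (resU ρ U hU)).toHomUnits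

theorem coe_detU (g : G) : (detU ρ U hU g : k) = LinearMap.det ((ρ g).restrict (hU g)) := rfl

theorem continuous_detU [TopologicalSpace k] [IsTopologicalRing k] [TopologicalSpace G]
    [IsTopologicalGroup G] [FiniteDimensional k V]
    (hcont : ∀ (x : V) (f : Dual k V), Continuous fun g => f (ρ g x)) :
    Continuous (detU ρ U hU) := by
  have h1 : Continuous fun g => LinearMap.det ((ρ g).restrict (hU g)) := by
    let b := Module.finBasis k U
    have h2 : (fun g => LinearMap.det ((ρ g).restrict (hU g))) =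
        fun g => (LinearMap.toMatrix b b ((ρ g).restrict (hU g))).det :=
      funext fun g => (LinearMap.det_toMatrix b _).symm
    rw [h2]
    refine Continuous.matrix_det (continuous_matrix fun i j => ?_)
    obtain ⟨F, hF⟩ := LinearMap.exists_extend (b.coord i)
    refine (hcont (b j) F).congr fun g => ?_
    rw [LinearMap.toMatrix_apply, ← Module.Basis.coord_apply, ← hF]
    rfl
  rw [Units.continuous_iff]
  refine ⟨h1, ?_⟩
  have h2 : (fun g => (((detU ρ U hU g)⁻¹ : kˣ) : k)) =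
      fun g => LinearMap.det ((ρ g⁻¹).restrict (hU g⁻¹)) :=
    funext fun g => by rw [← map_inv, coe_detU]
  exact (congrArg Continuous h2).mpr (h1.comp continuous_inv)

end detU

section galois

variable {F : Type} [Field F] [NumberField F] {ℓ : ℕ} [hℓ : Fact ℓ.Prime] {V : Type}
  [AddCommGroup V] [Module ℚ_[ℓ] V] [FiniteDimensional ℚ_[ℓ] V]
  (ρ : Representation ℚ_[ℓ] Gal(AlgebraicClosure F/F) V)
  (χ : Gal(AlgebraicClosure F/F) →* ℚ_[ℓ])

theorem char_frob {w : ℕ}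
    (hχ : ∀ g, χ g *
      (algebraMap ℤ_[ℓ] ℚ_[ℓ] (cyclotomicCharacter (AlgebraicClosure F) ℓ g : ℤ_[ℓ])) ^ w = 1)
    {v : HeightOneSpectrum (𝓞 F)}
    {Q : Ideal (OO F)} (hQ : Q.IsPrime) (hQv : cm Q = v.asIdeal) (hℓv : ¬ Above v ℓ) {τ φ : GF F}
    (hτ : InInertia Q τ) (hφ : FrobAt (Ideal.absNorm v.asIdeal) Q φ) :
    χ φ⁻¹ = (q v : ℚ_[ℓ]) ^ w ∧ χ τ = 1 := by
  obtain ⟨h1, h2⟩ := chi_inertia hQ hQv hℓv hτ hφ
  have h3 := hχ φ
  have h4 := hχ τ
  have h5 : algebraMap ℤ_[ℓ] ℚ_[ℓ] (cyclotomicCharacter (AlgebraicClosure F) ℓ φ : ℤ_[ℓ]) =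
      (Ideal.absNorm v.asIdeal : ℚ_[ℓ]) := by
    have h6 := congrArg (fun z : ℤ_[ℓ] => (z : ℚ_[ℓ])) h1
    simp only [PadicInt.coe_natCast] at h6
    exact h6
  have h6 : algebraMap ℤ_[ℓ] ℚ_[ℓ] (cyclotomicCharacter (AlgebraicClosure F) ℓ τ : ℤ_[ℓ]) = 1 := by
    have h7 := congrArg (fun z : ℤ_[ℓ]ˣ => ((z : ℤ_[ℓ]) : ℚ_[ℓ])) h2
    simp only [Units.val_one, PadicInt.coe_one] at h7
    exact h7
  rw [h5] at h3
  rw [h6, one_pow, mul_one] at h4
  refine ⟨?_, h4⟩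
  have h7 : χ φ⁻¹ * χ φ = 1 := by rw [← map_mul, inv_mul_cancel, map_one]
  have h8 : χ φ ≠ 0 := right_ne_zero_of_mul_eq_one h7
  have h9 : (χ φ⁻¹ - (q v : ℚ_[ℓ]) ^ w) * χ φ = 0 := by
    rw [sub_mul, h7, mul_comm ((q v : ℚ_[ℓ]) ^ w)]
    unfold q
    rw [h3, sub_self]
  exact sub_eq_zero.1 ((mul_eq_zero.1 h9).resolve_right h8)

/-- The dimension of a stable isotropic subspace is not excluded by the lengths of the Jordan blocks
at a place. -/
theorem place_contra {w : ℕ} (hcont : ∀ (x : V) (f : Dual ℚ_[ℓ] V), Continuous fun g => f (ρ g x))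
    (hχ : ∀ g, χ g *
      (algebraMap ℤ_[ℓ] ℚ_[ℓ] (cyclotomicCharacter (AlgebraicClosure F) ℓ g : ℤ_[ℓ])) ^ w = 1)
    (ω : V →ₗ[ℚ_[ℓ]] V →ₗ[ℚ_[ℓ]] ℚ_[ℓ])
    (hnd : ∀ u, (∀ v, ω v u = 0) → u = 0)
    (hωρ : ∀ s u v, ω (ρ s u) (ρ s v) = χ s * ω u v)
    (T : Set ℕ) (hT3 : 3 ≤ T.encard) (hT : ∀ p ∈ T, p.Prime ∧ p ≠ ℓ ∧ UnramifiedIn F p)
    (hgood : ∀ p ∈ T, ∀ v, Above v p → GoodAt ρ w v)
    {p₁ : ℕ} (hp₁ : p₁.Prime) (hp₁ℓ : p₁ ≠ ℓ) (hp₁u : UnramifiedIn F p₁)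
    (hall : ∀ v, Above v p₁ → ∃ b, PureAt ρ w v b) {v₁ : HeightOneSpectrum (𝓞 F)} {b₁ : ℕ → ℕ}
    (hv₁ : Above v₁ p₁) (hpure₁ : PureAt ρ w v₁ b₁)
    (U : Submodule ℚ_[ℓ] V) (hU : ∀ g, ∀ x ∈ U, ρ g x ∈ U)
    (hiso : ∀ x ∈ U, ∀ y ∈ U, ω x y = 0)
    (hexc : ExcludesIsotropic (finrank ℚ_[ℓ] V) b₁ (finrank ℚ_[ℓ] U)) : False := by
  classical
  obtain ⟨j, hj⟩ := exists_j ℓ ℚ_[ℓ] ℚ (algebraMap ℚ ℚ_[ℓ]) (algebraMap ℚ ℂ)
  -- the character
  have hW'' : ∀ g, ∀ x ∈ U, ρ g x ∈ U := hU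
  set ψ : GF F →* ℚ_[ℓ]ˣ := detU ρ U hU with hψ
  have hψc : Continuous ψ := continuous_detU ρ U hU hcont
  have hψdet : ∀ g, (ψ g : ℚ_[ℓ]) = LinearMap.det ((ρ g).restrict (hW'' g)) := fun g => rfl
  have hψdt : ∀ g, (ψ g : ℚ_[ℓ]) = Pool.Agent.TH118.WM.dt (ρ g) U := by
    intro g
    rw [hψdet, dt_eq (hW'' g)]
  -- Frobenius elements
  have hfr₀ : ∀ v : HeightOneSpectrum (𝓞 F), ∃ (Q : Ideal (OO F)) (σ : GF F), Q.IsMaximal ∧
      cm Q = v.asIdeal ∧ FrobAt (Ideal.absNorm v.asIdeal) Q σ := fun v => frob_cm v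
  choose Q₀ σ₀ hQ₀ hQ₀v hσ₀ using hfr₀
  have hℓv : ∀ p, p.Prime → p ≠ ℓ → ∀ v : HeightOneSpectrum (𝓞 F), Above v p → ¬ Above v ℓ :=
    fun p hp hne v hv => not_above_of_ne hp hℓ.out hne hv
  have hqv1 : ∀ v : HeightOneSpectrum (𝓞 F), 1 < q v := by
    intro v
    unfold q
    have h1 : Ideal.absNorm v.asIdeal ≠ 0 := by
      rw [Ne, Ideal.absNorm_eq_zero_iff]
      exact v.ne_bot
    have h2 : Ideal.absNorm v.asIdeal ≠ 1 := by
      rw [Ne, Ideal.absNorm_eq_one_iff]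
      exact v.isPrime.ne_top
    omega
  have hq0 : ∀ v : HeightOneSpectrum (𝓞 F), (Ideal.absNorm v.asIdeal : ℝ) ≠ 0 := by
    intro v
    rw [Nat.cast_ne_zero, Ne, Ideal.absNorm_eq_zero_iff]
    exact v.ne_bot
  have hinv : ∀ g, (ψ g⁻¹ : ℚ_[ℓ]) = (ψ g : ℚ_[ℓ])⁻¹ := by
    intro g
    rw [map_inv, Units.val_inv_eq_inv_val]
  -- the places of good reduction
  have hgoodin : ∀ v : HeightOneSpectrum (𝓞 F), GoodAt ρ w v →
      (∀ Q : Ideal (OO F), Q.IsPrime → cm Q = v.asIdeal → ∀ g, InInertia Q g → ψ g = 1) ∧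
      IsAlgebraic ℚ (ψ (σ₀ v) : ℚ_[ℓ]) ∧
      ‖j (ψ (σ₀ v) : ℚ_[ℓ])‖ ^ 2 =
        (Ideal.absNorm v.asIdeal : ℝ) ^ (-((w : ℤ) * finrank ℚ_[ℓ] U)) := by
    intro v hP
    refine ⟨fun Q hQ hQv g hg => ?_, ?_⟩
    · apply Units.ext
      rw [hψdet, Units.val_one]
      have h1 : ρ g = 1 := (hP Q ⟨hQ, hQv⟩).1 g hg
      have h2 : (ρ g).restrict (hW'' g) = LinearMap.id := by
        refine LinearMap.ext fun x => Subtype.ext ?_
        change ρ g x = x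
        rw [h1]
        rfl
      rw [h2, LinearMap.det_id]
    · obtain ⟨C, hC0, hC1, hC2⟩ :=
        ((hP (Q₀ v) ⟨(hQ₀ v).isPrime, hQ₀v v⟩).2 (σ₀ v) (hσ₀ v)).weight_zero (hqv1 v)
      obtain ⟨h2, h3⟩ := det_pure j (ρ (σ₀ v)⁻¹) U (hW'' _) hC0 hC2 hC1
      rw [← hψdet, hinv] at h2 h3
      refine ⟨IsAlgebraic.inv_iff.1 h2, ?_⟩
      rw [map_inv₀, norm_inv, inv_pow] at h3
      rw [zpow_neg, ← inv_eq_iff_eq_inv, h3]
      unfold q
      rw [← zpow_natCast, ← zpow_mul]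
  -- the places with a pure representation
  have hpurein : ∀ v : HeightOneSpectrum (𝓞 F), ¬ Above v ℓ → ∀ b, PureAt ρ w v b →
      (∀ Q : Ideal (OO F), Q.IsPrime → cm Q = v.asIdeal → ∀ g, InInertia Q g → ψ g = 1) ∧
      ∃ c : ℤ, (‖j (ψ (σ₀ v) : ℚ_[ℓ])‖ ^ 2 = (Ideal.absNorm v.asIdeal : ℝ) ^ c ∧
        -((w : ℤ) * finrank ℚ_[ℓ] U) ≤ c) ∧
        (c = -((w : ℤ) * finrank ℚ_[ℓ] U) → ¬ ExcludesIsotropic (finrank ℚ_[ℓ] V) b (finrank ℚ_[ℓ] U)) := by
    intro v hv b hP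
    refine ⟨fun Q hQ hQv g hg => ?_, ?_⟩
    · apply Units.ext
      rw [hψdet, Units.val_one]
      have h1 := (hP Q ⟨hQ, hQv⟩).1 g hg
      have h2 : IsNilpotent ((ρ g).restrict (hW'' g) - 1) := by
        obtain ⟨m, hm⟩ := h1
        have h3 : ∀ x ∈ U, (ρ g - 1) x ∈ U := by
          intro x hx
          rw [LinearMap.sub_apply, Module.End.one_apply]
          exact Submodule.sub_mem _ (hU g x hx) hx
        have h4 : (ρ g).restrict (hW'' g) - 1 = (ρ g - 1).restrict h3 := by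
          refine LinearMap.ext fun x => Subtype.ext ?_
          rfl
        refine ⟨m, ?_⟩
        rw [h4, Module.End.pow_restrict]
        refine LinearMap.ext fun x => Subtype.ext ?_
        change ((ρ g - 1) ^ m) x = 0
        rw [hm]
        rfl
      have h3 : (ρ g).restrict (hW'' g) = 1 + ((ρ g).restrict (hW'' g) - 1) := by abel
      rw [h3]
      exact det_one_add_nilpotent h2
    · obtain ⟨-, τ, N, hτ, ⟨d, hNd, hexp⟩, hb, hφ⟩ := hP (Q₀ v) ⟨(hQ₀ v).isPrime, hQ₀v v⟩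
      obtain ⟨hχφ, hχτ⟩ := char_frob χ hχ (hQ₀ v).isPrime (hQ₀v v) hv hτ (hσ₀ v)
      obtain ⟨W, C, hM⟩ := (hφ (σ₀ v) (hσ₀ v)).mon (hqv1 v)
      have hN : IsNilpotent N := ⟨d, hNd⟩
      have hE : IsExp (ρ τ) N d := isExp_of_sum hNd hexp
      have hNU : St N U := hE.st one_pos (by rw [pow_one]; exact hU τ)
      have hskew := hE.skew ω fun x y => by rw [hωρ, hχτ, one_mul]
      have hAU : St (ρ (σ₀ v)⁻¹) U := hU _
      have hωA : ∀ x y, ω (ρ (σ₀ v)⁻¹ x) (ρ (σ₀ v)⁻¹ y) = (q v : ℚ_[ℓ]) ^ w * ω x y := by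
        intro x y
        rw [hωρ, hχφ]
      obtain ⟨B, hB⟩ := hM.toWt.exists_bound
      have h1 := hM.toWt.norm_dt j hAU hB
      rw [← hψdt, hinv, map_inv₀, norm_inv, inv_pow] at h1
      have h2 := hM.sum_nonpos hNU B
      refine ⟨-((w : ℤ) * finrank ℚ_[ℓ] U +
        ∑ j ∈ Finset.Icc (-(B : ℤ)) B, j * (finrank ℚ_[ℓ] ↥(U ⊓ W j) : ℤ)), ⟨?_, ?_⟩, ?_⟩
      · rw [zpow_neg, ← inv_eq_iff_eq_inv, h1]
        rfl
      · linarith
      · intro hc
        have h3 := isotropic_type hM hN ω hnd hskew hωA hAU hNU hiso hB (by linarith)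
        have h4 : b = jb N ⊤ := funext fun m => by rw [← hb, blocks_eq]
        rw [h4]
        exact h3
  have hex' : ∀ v : HeightOneSpectrum (𝓞 F), ∃ b, Above v p₁ → PureAt ρ w v b := by
    intro v
    by_cases hv : Above v p₁
    · obtain ⟨b, hb⟩ := hall v hv
      exact ⟨b, fun _ => hb⟩
    · exact ⟨0, fun h => absurd h hv⟩
  choose bb hbb using hex'
  have hcc : ∀ v : HeightOneSpectrum (𝓞 F), ∃ c : ℤ, Above v p₁ →
      (‖j (ψ (σ₀ v) : ℚ_[ℓ])‖ ^ 2 = (Ideal.absNorm v.asIdeal : ℝ) ^ c ∧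
        -((w : ℤ) * finrank ℚ_[ℓ] U) ≤ c) := by
    intro v
    by_cases hv : Above v p₁
    · obtain ⟨-, c, hc, -⟩ := hpurein v (hℓv p₁ hp₁ hp₁ℓ v hv) (bb v) (hbb v hv)
      exact ⟨c, fun _ => hc⟩
    · exact ⟨0, fun h => absurd h hv⟩
  choose c hc using hcc
  have key := two_weights ψ hψc T hT3 hT ⟨hp₁, hp₁ℓ, hp₁u⟩ (fun v => ψ (σ₀ v)) (by
    intro p hp v hv Q hQ hQv
    have hin : ∀ Q : Ideal (OO F), Q.IsPrime → cm Q = v.asIdeal → ∀ g, InInertia Q g →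
        ψ g = 1 := by
      rcases hp with h | rfl
      · exact (hgoodin v (hgood p h v hv)).1
      · exact (hpurein v (hℓv p hp₁ hp₁ℓ v hv) (bb v) (hbb v hv)).1
    exact ⟨hin Q hQ hQv, fun φ hφ => frob_value ψ v hin (hQ₀ v).isPrime hQ (hQ₀v v) hQv (hσ₀ v) hφ⟩)
    (fun p hp v hv => (hgoodin v (hgood p hp v hv)).2.1) j
    (-((w : ℤ) * finrank ℚ_[ℓ] U))
    (fun p hp v hv => (hgoodin v (hgood p hp v hv)).2.2)
    c (fun v hv => (hc v hv).1) (fun v hv => (hc v hv).2) v₁ hv₁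
  obtain ⟨-, c', ⟨hc'1, -⟩, hc'2⟩ := hpurein v₁ (hℓv p₁ hp₁ hp₁ℓ v₁ hv₁) b₁ hpure₁
  refine hc'2 ?_ hexc
  have h1 := (hc v₁ hv₁).1
  rw [hc'1] at h1
  have h2 : (1 : ℝ) < (Ideal.absNorm v₁.asIdeal : ℝ) := by exact_mod_cast hqv1 v₁
  rw [← key]
  exact zpow_right_injective₀ (by linarith) (by linarith) h1

end galois

end

end Pool.Agent.H20.TB
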