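import Mathlib
import Pool.Agent.H20.TB.Global
import Pool.Agent.H20.TB.Family

/-!
# Assembly
-/

set_option autoImplicit false
set_option linter.unusedSectionVars false

namespace Pool.Agent.H20.TB

open NumberField IsDedekindDomain Polynomial Module
open Pool.Agent.Y114.GF (not_above_of_ne)
open Pool.Agent.W571.FM (frob_cm)

noncomputable section

variable {ℓ : ℕ} [hℓ : Fact ℓ.Prime] {V : Type} [AddCommGroup V] [Module ℚ_[ℓ] V]
  [FiniteDimensional ℚ_[ℓ] V] {Γ : Type} [Group Γ]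
  (ρ : Representation ℚ_[ℓ] Γ V) (χ : Γ →* ℚ_[ℓ])
  (ω : V →ₗ[ℚ_[ℓ]] V →ₗ[ℚ_[ℓ]] ℚ_[ℓ])

/-- The dimensions of the stable isotropic subspaces are not excluded. -/
theorem PlaceExcludes.contra (hnd : ∀ u, (∀ v, ω v u = 0) → u = 0)
    (hωρ : ∀ s u v, ω (ρ s u) (ρ s v) = χ s * ω u v)
    (U : Submodule ℚ_[ℓ] V) (hU : ∀ g, ∀ x ∈ U, ρ g x ∈ U)
    (hiso : ∀ x ∈ U, ∀ y ∈ U, ω x y = 0) (h : PlaceExcludes ρ χ (finrank ℚ_[ℓ] U)) : False := by
  obtain ⟨F, _, _, s, w, p, hM, hp, hpℓ, hpu, hall, v, b, hv, hb, hexc⟩ := h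
  obtain ⟨T, hT3, hT⟩ := hM.good
  exact place_contra (ρ.comp s) (χ.comp s) hM.continuous hM.similitude ω hnd
    (fun g u v => hωρ (s g) u v) T hT3 (fun p hp => ⟨(hT p hp).1, (hT p hp).2.1, (hT p hp).2.2.1⟩)
    (fun p hp => (hT p hp).2.2.2) hp hpℓ hpu hall hv hb U (fun g => hU (s g)) hiso hexc

/-- The exclusion at a place gives a unipotent element which excludes. -/
theorem PlaceExcludes.exists_exp {d : ℕ} (h : PlaceExcludes ρ χ d) :
    ∃ (τ : Γ) (N : End ℚ_[ℓ] V) (D : ℕ), IsExp (ρ τ) N D ∧ χ τ = 1 ∧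
      ExcludesIsotropic (finrank ℚ_[ℓ] V) (jb N ⊤) d := by
  obtain ⟨F, _, _, s, w, p, hM, hp, hpℓ, hpu, hall, v, b, hv, hb, hexc⟩ := h
  obtain ⟨Q, φ, hQ, hQv, hφ⟩ := frob_cm v
  obtain ⟨-, τ, N, hτ, ⟨D, hN, hexp⟩, hbl, -⟩ := hb Q ⟨hQ.isPrime, hQv⟩
  have hχ := (char_frob (χ.comp s) hM.similitude hQ.isPrime hQv
    (not_above_of_ne hp hℓ.out hpℓ hv) hτ hφ).2
  refine ⟨s τ, N, D, isExp_of_sum hN hexp, hχ, ?_⟩
  have h4 : b = jb N ⊤ := funext fun m => by rw [← hbl, blocks_eq]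
  rw [← h4]
  exact hexc

theorem UnipotentExcludes.exists_exp {d : ℕ} (h : UnipotentExcludes ρ χ d) :
    ∃ (τ : Γ) (N : End ℚ_[ℓ] V) (D : ℕ), IsExp (ρ τ) N D ∧ χ τ = 1 ∧
      ExcludesNondegenerate (finrank ℚ_[ℓ] V) (jb N ⊤) d := by
  obtain ⟨τ, N, hχ, ⟨D, hN, hexp⟩, hexc⟩ := h
  refine ⟨τ, N, D, isExp_of_sum hN hexp, hχ, ?_⟩
  have h4 : blocks N = jb N ⊤ := funext fun m => blocks_eq N m
  rw [← h4]
  exact hexc

/-- Strong irreducibility. -/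
theorem strong_of_excludes (halt : ∀ v, ω v v = 0) (hnd : ∀ u, (∀ v, ω v u = 0) → u = 0)
    (hωρ : ∀ s u v, ω (ρ s u) (ρ s v) = χ s * ω u v)
    (h1 : ∀ d, 0 < d → 2 * d ≤ finrank ℚ_[ℓ] V → DegreeExcludes ρ d ∨ PlaceExcludes ρ χ d)
    (h2 : ∀ d, 0 < d → 2 * d ≤ finrank ℚ_[ℓ] V → Even d →
      DegreeExcludes ρ d ∨ UnipotentExcludes ρ χ d)
    (Δ : Subgroup Γ) (hΔ : Δ.FiniteIndex) (U : Submodule ℚ_[ℓ] V)
    (hU : ∀ g ∈ Δ, ∀ u ∈ U, ρ g u ∈ U) : U = ⊥ ∨ U = ⊤ := by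
  refine strong ρ χ ω halt hnd hωρ ?_ ?_ ?_ Δ hΔ U hU
  · intro U hU hiso
    by_contra hne
    have hpos : 0 < finrank ℚ_[ℓ] U := by
      rw [Nat.pos_iff_ne_zero, Ne, Submodule.finrank_eq_zero]
      exact hne
    have hle : U ≤ orth ω U := fun x hx u hu => hiso u hu x hx
    have hdim := finrank_orth ω hnd halt U
    have hdim' := Submodule.finrank_mono hle
    rcases h1 (finrank ℚ_[ℓ] U) hpos (by omega) with h | h
    · exact degree_contra ρ (Δ := ⊤) inferInstance (fun g _ => hU g) h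
    · exact h.contra ρ χ ω hnd hωρ U hU hiso
  · intro d hd hle
    rcases h1 d hd hle with h | h
    · exact Or.inl h
    · exact Or.inr (h.exists_exp ρ χ)
  · intro d hd hle hev
    rcases h2 d hd hle hev with h | h
    · exact Or.inl h
    · exact Or.inr (h.exists_exp ρ χ)

/-- **The theorem.** -/
theorem main {ι : Type} [Fintype ι] {V : ι → Type} [∀ i, AddCommGroup (V i)]
    [∀ i, Module ℚ_[ℓ] (V i)] [∀ i, FiniteDimensional ℚ_[ℓ] (V i)] (R : Family ℚ_[ℓ] V Γ)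
    (hiso : ∀ i d, 0 < d → 2 * d ≤ finrank ℚ_[ℓ] (V i) →
      DegreeExcludes (R.ρ i) d ∨ PlaceExcludes (R.ρ i) R.χ d)
    (hnondeg : ∀ i d, 0 < d → 2 * d ≤ finrank ℚ_[ℓ] (V i) → Even d →
      DegreeExcludes (R.ρ i) d ∨ UnipotentExcludes (R.ρ i) R.χ d)
    (htrans : ∀ i, ∃ τ, R.IsTransvection i τ) : Semisimple R.sum ∧ R.TateClasses := by
  classical
  have key : ∀ i, ∃ τ : Γ, R.χ τ = 1 ∧ (∀ j, IsNilpotent (R.ρ j τ - 1)) ∧
      finrank ℚ_[ℓ] (LinearMap.range (R.ρ i τ - 1)) = 1 ∧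
      ∀ j, i ≠ j → finrank ℚ_[ℓ] (V j) = finrank ℚ_[ℓ] (V i) → finrank ℚ_[ℓ] (LinearMap.range (R.ρ j τ - 1)) ≠ 1 := by
    intro i
    obtain ⟨τ, hχ, hnil, hrk, hother⟩ := htrans i
    choose! e he hu hz using hother
    set E : ℕ := ∏ j ∈ Finset.univ.erase i, e j with hE
    have hEpos : 0 < E := Finset.prod_pos fun j hj => he j (Finset.ne_of_mem_erase hj)
    have hdvd : ∀ j, j ≠ i → ∃ m, 0 < m ∧ E = e j * m := by
      intro j hj
      obtain ⟨m, hm⟩ : e j ∣ E := Finset.dvd_prod_of_mem _ (Finset.mem_erase.2 ⟨hj, Finset.mem_univ j⟩)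
      refine ⟨m, ?_, hm⟩
      rw [Nat.pos_iff_ne_zero]
      rintro rfl
      rw [mul_zero] at hm
      omega
    refine ⟨τ ^ E, by rw [map_pow, hχ, one_pow], ?_, ?_, ?_⟩
    · intro j
      by_cases hj : j = i
      · subst hj
        rw [map_pow]
        exact nil_pow' hnil E
      · obtain ⟨m, -, hm⟩ := hdvd j hj
        rw [hm, pow_mul, map_pow]
        exact nil_pow' (hu j hj) m
    · rw [map_pow, range_pow_sub_one hnil hEpos]
      exact hrk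
    · intro j hij hnj
      have hji : j ≠ i := fun h => hij h.symm
      obtain ⟨m, hm0, hm⟩ := hdvd j hji
      rw [hm, pow_mul, map_pow, range_pow_sub_one (hu j hji) hm0]
      exact hz j hji hnj
  choose τ hχ hnil hrk hz using key
  refine family_tate R.ρ R.χ R.ω R.alt R.nondeg R.sim ?_ τ hχ hnil hrk ?_
  · intro i Δ hΔ U hU
    exact strong_of_excludes (R.ρ i) R.χ (R.ω i) (R.alt i) (R.nondeg i) (R.sim i) (hiso i)
      (hnondeg i) Δ hΔ U hU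
  · intro i j hij hfr
    exact hz i j hij hfr

end

end Pool.Agent.H20.TB
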