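import Mathlib
import Pool.Agent.H20.TB.Main
import Pool.Agent.H20.TB.Family2

/-!
# Assembly: general types
-/

set_option autoImplicit false
set_option linter.unusedSectionVars false

namespace Pool.Agent.H20.TB

open NumberField IsDedekindDomain Polynomial Module
open Pool.Agent.H204R3.SP Pool.Agent.Y114.MU Pool.Agent.Y114.TF
open scoped TensorProduct

noncomputable section

section any

variable {k : Type} [Field k] [CharZero k] {ι : Type} [Fintype ι] {V : ι → Type}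
  [∀ i, AddCommGroup (V i)] [∀ i, Module k (V i)] {Γ : Type} [Group Γ] (R : Family k V Γ)

theorem pairing_tprod {W : Type} [AddCommGroup W] [Module k W] (ω : W →ₗ[k] W →ₗ[k] k) {t : ℕ}
    (y z : Fin t → W) : pairing ω y (PiTensorProduct.tprod k z) = ∏ l, ω (z l) (y l) := by
  unfold pairing
  rw [PiTensorProduct.lift.tprod]
  simp

theorem distinct_of_tate (hV : ∀ i, ∃ v : V i, v ≠ 0) (hT : R.TateClasses) : R.Distinct := by
  classical
  intro i j hij Δ hΔ f hf
  let F : (∀ i, V i) →ₗ[k] (∀ i, V i) :=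
    LinearMap.single k V j ∘ₗ f.toLinearMap ∘ₗ LinearMap.proj i
  have hF : ∀ x, F x = Pi.single j (f (x i)) := fun x => rfl
  have hFs : ∀ s ∈ Δ, F ∘ₗ R.sum s = R.sum s ∘ₗ F := by
    intro s hs
    refine LinearMap.ext fun x => ?_
    change Pi.single (M := V) j (f (R.ρ i s (x i))) = _
    funext l
    change _ = R.ρ l s (Pi.single (M := V) j (f (x i)) l)
    by_cases hl : l = j
    · subst hl
      rw [Pi.single_eq_same, Pi.single_eq_same, ← hf s hs]
    · rw [Pi.single_eq_of_ne hl, Pi.single_eq_of_ne hl, map_zero]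
  let Φ : (⨂[k] _ : Fin 1, (∀ i, V i)) →ₗ[k] (⨂[k] _ : Fin 1, (∀ i, V i)) :=
    PiTensorProduct.map fun _ => F
  have hΦ : IsHom R.sum R.χ 0 0 Φ := by
    refine ⟨Δ, hΔ, fun s hs x => ?_⟩
    unfold twist
    rw [pow_zero, one_smul]
    change (PiTensorProduct.map (fun _ => F) ∘ₗ PiTensorProduct.map (fun _ => R.sum s)) x =
      (PiTensorProduct.map (fun _ => R.sum s) ∘ₗ PiTensorProduct.map (fun _ => F)) x
    rw [← PiTensorProduct.map_comp, ← PiTensorProduct.map_comp]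
    have h1 : (fun _ : Fin 1 => F ∘ₗ R.sum s) = (fun _ : Fin 1 => R.sum s ∘ₗ F) :=
      funext fun _ => hFs s hs
    rw [h1]
  have hmem := hT 1 1 0 0 rfl Φ hΦ
  have hprod : ∀ (a : V i) (b : V j) (g : (⨂[k] _ : Fin 1, (∀ i, V i)) →ₗ[k]
      (⨂[k] _ : Fin 1, (∀ i, V i))), IsProduct (∑ i, R.form i) R.form g →
      pairing (∑ i, R.form i) (fun _ : Fin 1 => Pi.single j b)
        (g (PiTensorProduct.tprod k fun _ : Fin 1 => Pi.single i a)) = 0 := by
    rintro a b g ⟨m, e, u, h⟩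
    rw [h]
    have hform : ∀ (l : ι) , R.form l (Pi.single i a) (Pi.single j b) = 0 ∧
        R.form l (Pi.single j b) (Pi.single i a) = 0 := by
      intro l
      have h1 : ∀ x y, R.form l x y = R.ω l (x l) (y l) := fun _ _ => rfl
      rw [h1, h1]
      by_cases hl : l = i
      · subst hl
        rw [Pi.single_eq_of_ne (M := V) hij, map_zero, map_zero, LinearMap.zero_apply]
        exact ⟨rfl, rfl⟩
      · rw [Pi.single_eq_of_ne (M := V) hl, map_zero, map_zero, LinearMap.zero_apply]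
        exact ⟨rfl, rfl⟩
    refine Finset.prod_eq_zero (Finset.mem_univ (e.symm (Sum.inl 0)).1) ?_
    have hne : e ((e.symm (Sum.inl 0)).1, 0) ≠ e ((e.symm (Sum.inl 0)).1, 1) := by
      intro h1
      have h2 : (0 : Fin 2) = 1 := congrArg Prod.snd (e.injective h1)
      exact absurd h2 (by decide)
    revert hne
    generalize e ((e.symm (Sum.inl 0)).1, 0) = p
    generalize e ((e.symm (Sum.inl 0)).1, 1) = p'
    intro hne
    rcases p with p | p <;> rcases p' with p' | p'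
    · exact absurd (congrArg Sum.inl (Subsingleton.elim p p')) hne
    · exact (hform _).1
    · exact (hform _).2
    · exact absurd (congrArg Sum.inr (Subsingleton.elim p p')) hne
  have hzero : ∀ (a : V i) (b : V j), R.ω j (f a) b = 0 := by
    intro a b
    have h1 : pairing (∑ i, R.form i) (fun _ : Fin 1 => Pi.single j b)
        (Φ (PiTensorProduct.tprod k fun _ : Fin 1 => Pi.single i a)) = 0 := by
      refine Submodule.span_induction (p := fun g _ => pairing (∑ i, R.form i)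
        (fun _ : Fin 1 => Pi.single j b)
        (g (PiTensorProduct.tprod k fun _ : Fin 1 => Pi.single i a)) = 0) ?_ ?_ ?_ ?_ hmem
      · intro g hg
        exact hprod a b g hg
      · rw [LinearMap.zero_apply, map_zero]
      · intro g g' _ _ h h'
        rw [LinearMap.add_apply, map_add, h, h', add_zero]
      · intro c g _ h
        rw [LinearMap.smul_apply, map_smul, h, smul_zero]
    rw [PiTensorProduct.map_tprod, pairing_tprod, Fin.prod_univ_one, hF, Pi.single_eq_same,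
      LinearMap.sum_apply, LinearMap.sum_apply, Finset.sum_eq_single j] at h1
    · change R.ω j (Pi.single (M := V) j (f a) j) (Pi.single (M := V) j b j) = 0 at h1
      rwa [Pi.single_eq_same, Pi.single_eq_same] at h1
    · intro l _ hl
      change R.ω l (Pi.single (M := V) j (f a) l) (Pi.single (M := V) j b l) = 0
      rw [Pi.single_eq_of_ne hl, map_zero, LinearMap.zero_apply]
    · intro h
      exact absurd (Finset.mem_univ _) h
  obtain ⟨v, hv⟩ := hV i
  apply hv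
  apply f.injective
  rw [map_zero]
  refine R.nondeg j _ fun b => ?_
  rw [alt_neg (R.ω j) (R.alt j), hzero, neg_zero]

theorem blocks_nontrivial {U : Type} [AddCommGroup U] [Module k U] [FiniteDimensional k U]
    {N : End k U} {m : ℕ} (h : blocks N m ≠ 0) : ∃ v : U, v ≠ 0 := by
  by_contra hcon
  push Not at hcon
  apply h
  have h1 : ∀ W : Submodule k U, finrank k W = 0 := fun W =>
    Submodule.finrank_eq_zero.2 (by
      rw [eq_bot_iff]
      intro x _
      rw [Submodule.mem_bot]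
      exact hcon x)
  unfold blocks
  rw [h1, h1, h1]

variable [∀ i, FiniteDimensional k (V i)]

/-- **The theorem for strongly irreducible representations.** -/
theorem tate_of_big
    (hirr : ∀ i (Δ : Subgroup Γ), Δ.FiniteIndex → ∀ U : Submodule k (V i),
      (∀ s ∈ Δ, ∀ u ∈ U, R.ρ i s u ∈ U) → U = ⊥ ∨ U = ⊤)
    (hbig : ∀ i, R.BigAt i) : Semisimple R.sum ∧ (R.TateClasses ↔ R.Distinct) := by
  classical
  -- the types
  have hpow1 : ∀ i τ, R.OneBlock i τ → ∃ v : V i, v ≠ 0 := by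
    intro i τ h
    by_contra hcon
    push Not at hcon
    exact h (LinearMap.ext fun x => hcon _)
  have hone : ∀ i, ∃ (τ : Γ) (m : ℕ), R.Unipotent τ ∧ jb (R.ρ i τ - 1) ⊤ m = 1 := by
    intro i
    obtain ⟨τ, hτ, ⟨⟨m, -, hm⟩, -, -⟩ | ⟨h1, -⟩⟩ := hbig i
    · exact ⟨τ, m, hτ, by rw [← blocks_eq]; exact hm⟩
    · exact ⟨τ, _, hτ, jb_one_block (hτ.2 i) h1⟩
  have hV : ∀ i, ∃ v : V i, v ≠ 0 := by
    intro i
    obtain ⟨τ, hτ, ⟨⟨m, -, hm⟩, -, -⟩ | ⟨h1, -⟩⟩ := hbig i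
    · exact blocks_nontrivial (N := R.ρ i τ - 1) (m := m) (by
        change R.blocks i τ m ≠ 0
        rw [hm]
        exact one_ne_zero)
    · exact hpow1 i τ h1
  have hpot : ∀ i (Δ : Subgroup Γ), Δ.FiniteIndex →
      (∀ U : Submodule k (V i), (∀ g ∈ Δ, ∀ u ∈ U, R.ρ i g u ∈ U) → U = ⊥ ∨ U = ⊤) ∧
      ∀ A : End k (V i), (∀ g ∈ Δ, ∀ x, A (R.ρ i g x) = R.ρ i g (A x)) →
        ∃ c : k, ∀ v, A v = c • v := by
    intro i Δ hΔ
    obtain ⟨τ, m, hτ, hm⟩ := hone i
    exact ⟨hirr i Δ hΔ, commutant2 R.ρ (hτ.2 i) hm Δ hΔ (hirr i Δ hΔ)⟩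
  have hss : Pool.Agent.H204R3.GP.FiniteIndexSemisimple (sumRep R.ρ) := semi_sum R.ρ fun i Δ hΔ => (hpot i Δ hΔ).1
  refine ⟨hss, distinct_of_tate R hV, fun hD => ?_⟩
  refine family_tate2 R.ρ R.χ R.ω R.alt R.nondeg R.sim hpot ?_ hV ?_
  · intro i j hij Δ hΔ B hB hbij
    exact hD j i hij.symm Δ hΔ (LinearEquiv.ofBijective B hbij) hB
  intro i u w
  obtain ⟨v, hv⟩ := hV i
  have : Nontrivial (V i) := ⟨⟨v, 0, hv⟩⟩
  let L : Submodule k (End k (V i)) :=
    (aa R.ρ R.χ).map (LinearMap.proj (R := k) (φ := fun i => End k (V i)) i)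
  have hL : ∀ X, X ∈ L ↔ ∃ A ∈ aa R.ρ R.χ, A i = X := fun X => Iff.rfl
  have hsp := aa_sp R.ρ R.χ R.ω R.sim
  obtain ⟨τ, hτ, htype⟩ := hbig i
  obtain ⟨N, hN, hN'⟩ := exists_log2 R.ρ R.χ hτ.1 hτ.2
  obtain ⟨hNnil, S, hS, hSc, hNS⟩ := hN' i
  have hjb : ∀ m, jb (N i) ⊤ m = R.blocks i τ m := by
    intro m
    rw [hNS, jb_mul_unit hS hSc]
    exact (blocks_eq _ _).symm
  refine (hL _).1 (full_of_types (ρ := R.ρ i) (χ := R.χ) (ω := R.ω i) (R.alt i) (R.nondeg i)
    (R.sim i) (hpot i) (L := L) ?_ ?_ ?_ (e := N i) ⟨N, hN, rfl⟩ hNnil ?_ u w)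
  · rintro g _ ⟨A, hA, rfl⟩
    exact ⟨_, aa_conj R.ρ R.χ g A hA, rfl⟩
  · rintro _ ⟨A, hA, rfl⟩ _ ⟨B, hB, rfl⟩
    exact ⟨_, aa_bracket R.ρ R.χ A hA B hB, rfl⟩
  · rintro _ ⟨A, hA, rfl⟩
    exact hsp A hA i
  · rcases htype with ⟨⟨m, hm, hm1⟩, h0, heven⟩ | ⟨h1, h2⟩
    · left
      refine ⟨m, hm, ?_, ?_, fun j hj hj' => ?_⟩
      · rw [hjb, hm1]
      · rw [hjb]; exact h0
      · rw [hjb, heven j hj hj']
    · right
      have hpow : ∀ {X Y Z : End k (V i)} (d : ℕ), IsUnit Y → Commute X Y → Z = X * Y →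
          (Z ^ d = 0 ↔ X ^ d = 0) := by
        intro X Y Z d hY hc hZ
        rw [hZ, hc.mul_pow]
        exact (hY.pow d).mul_left_eq_zero
      refine ⟨fun h => h1 ((hpow _ hS hSc hNS).1 h), ?_⟩
      rcases h2 with h2 | h2 | ⟨τ', hτ', hne, hnot⟩
      · exact Or.inl h2
      · exact Or.inr (Or.inl h2)
      · right; right
        obtain ⟨X, hX, hX'⟩ := exists_log2 R.ρ R.χ hτ'.1 hτ'.2
        obtain ⟨hXnil, S', hS', hSc', hXS⟩ := hX' i
        refine ⟨X i, ⟨X, hX, rfl⟩, ?_, hXnil, ?_⟩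
        · intro h
          have h3 := (hpow 1 hS' hSc' hXS).1 (by rw [pow_one, h])
          rw [pow_one, sub_eq_zero] at h3
          exact hne h3
        · rw [hpow _ hS' hSc' hXS]
          exact not_not.1 hnot

end any

section main

variable {ℓ : ℕ} [hℓ : Fact ℓ.Prime] {Γ : Type} [Group Γ]

/-- **The theorem.** -/
theorem main2 {ι : Type} [Fintype ι] {V : ι → Type} [∀ i, AddCommGroup (V i)]
    [∀ i, Module ℚ_[ℓ] (V i)] [∀ i, FiniteDimensional ℚ_[ℓ] (V i)] (R : Family ℚ_[ℓ] V Γ)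
    (hiso : ∀ i d, 0 < d → 2 * d ≤ finrank ℚ_[ℓ] (V i) →
      DegreeExcludes (R.ρ i) d ∨ PlaceExcludes (R.ρ i) R.χ d)
    (hnondeg : ∀ i d, 0 < d → 2 * d ≤ finrank ℚ_[ℓ] (V i) → Even d →
      DegreeExcludes (R.ρ i) d ∨ UnipotentExcludes (R.ρ i) R.χ d)
    (hbig : ∀ i, R.BigAt i) : Semisimple R.sum ∧ (R.TateClasses ↔ R.Distinct) :=
  tate_of_big R (fun i Δ hΔ U hU => strong_of_excludes (R.ρ i) R.χ (R.ω i) (R.alt i)
    (R.nondeg i) (R.sim i) (hiso i) (hnondeg i) Δ hΔ U hU) hbig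

end main

end

end Pool.Agent.H20.TB
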